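import Pool.Agent.H97.IIC.Final

/-!
# Lemma A, finite form: choice of the parameters
-/

open Finset Filter Topology
open scoped Classical

namespace H97.IIC

noncomputable section

variable {V : Type*}

lemma log_nat_tendsto : Tendsto (fun n : ℕ => Real.log n) atTop atTop :=
  Real.tendsto_log_atTop.comp tendsto_natCast_atTop_atTop

lemma ev_log_ge (c : ℝ) : ∀ᶠ n : ℕ in atTop, c ≤ Real.log n :=
  log_nat_tendsto.eventually_ge_atTop c

lemma ev_log_le (c : ℝ) (hc : 0 < c) : ∀ᶠ n : ℕ in atTop, Real.log n ≤ c * n := by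
  have h := Real.isLittleO_log_id_atTop.bound hc
  have h' := tendsto_natCast_atTop_atTop (R := ℝ) |>.eventually h
  filter_upwards [h', eventually_ge_atTop 1] with n hn h1
  have h2 : (1 : ℝ) ≤ n := by exact_mod_cast h1
  simp only [id, Real.norm_eq_abs] at hn
  rw [abs_of_nonneg (Real.log_nonneg h2), abs_of_nonneg (by positivity)] at hn
  exact hn

lemma ev_pow_exp (B b c : ℝ) (hb : 0 < b) (hc : 0 < c) :
    ∀ᶠ n : ℕ in atTop, (n : ℝ) ^ B * Real.exp (-b * n) ≤ c := by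
  have h := (tendsto_rpow_mul_exp_neg_mul_atTop_nhds_zero B b hb).comp
    (tendsto_natCast_atTop_atTop (R := ℝ))
  have := h.eventually (eventually_le_nhds hc)
  simpa using this

/-- The numerical end game. -/
lemma numeric {α K K1 κ3 n k s m O R X PB PA W : ℝ} (hα : 0 < α) (hK : 1 ≤ K)
    (hK1 : 0 < K1) (hn : 1 ≤ n) (hk : 1 ≤ k) (hPA : 0 < PA) (hW : W ≤ α * n / 2)
    (hPB : α * PA ≤ PB)
    (hO : O ≤ α ^ 2 * n / 16) (hR : R ≤ α ^ 2 * n / 16) (hs : s = K1 * k) (hm : m = K * n)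
    (hκ3 : κ3 = α ^ 2 / (128 * K1 ^ 2 * K)) (hX : X ≤ α ^ 2 / 32)
    (h : k * ((α * n - W) * PB - O * PA - R * PA) ≤ 2 * ((4 * s ^ 2 * m * κ3 + X) / k * PA)) :
    False := by
  have h1 : α * n / 2 * (α * PA) ≤ (α * n - W) * PB := by
    apply mul_le_mul (by linarith) hPB (by positivity)
    have : 0 < α * n := by positivity
    linarith
  have h2 : O * PA ≤ α ^ 2 * n / 16 * PA := mul_le_mul_of_nonneg_right hO hPA.le
  have h3 : R * PA ≤ α ^ 2 * n / 16 * PA := mul_le_mul_of_nonneg_right hR hPA.le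
  have h4 : 3 / 8 * (α ^ 2 * n * PA) ≤ (α * n - W) * PB - O * PA - R * PA := by nlinarith
  have h5 : k * (3 / 8 * (α ^ 2 * n * PA)) ≤ 2 * ((4 * s ^ 2 * m * κ3 + X) / k * PA) :=
    (mul_le_mul_of_nonneg_left h4 (by linarith)).trans h
  have hk0 : 0 < k := by linarith
  have h6 : 4 * s ^ 2 * m * κ3 = k ^ 2 * (α ^ 2 * n / 32) := by
    rw [hs, hm, hκ3]; field_simp; ring
  have h7 : (4 * s ^ 2 * m * κ3 + X) / k ≤ k * (α ^ 2 * n / 16) := by
    rw [div_le_iff₀ hk0, h6]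
    have h8 : X ≤ k * k * (α ^ 2 * n / 32) := by
      refine hX.trans ?_
      have h9 : 1 ≤ k * k * n := by nlinarith [mul_le_mul hk hk zero_le_one hk0.le]
      nlinarith [mul_le_mul_of_nonneg_left h9 (show 0 ≤ α ^ 2 / 32 by positivity)]
    nlinarith
  have h8 : 2 * ((4 * s ^ 2 * m * κ3 + X) / k * PA) ≤ 2 * (k * (α ^ 2 * n / 16) * PA) := by
    apply mul_le_mul_of_nonneg_left _ zero_le_two
    exact mul_le_mul_of_nonneg_right h7 hPA.le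
  have h9 : 0 < k * (α ^ 2 * n * PA) := by positivity
  nlinarith

lemma num_W {α K K1 n k s m k' md : ℝ} (hK1 : 0 < K1) (hn : 0 < n) (hα : 0 < α)
    (hk : 0 < k) (hs : s = K1 * k) (hm : m = K * n) (hmd : md ≤ m / s) (hK : 32 * K ≤ α * K1)
    (hk4 : 4 * k ≤ α * n / 8) (hk' : k' ≤ α * n / 8) :
    4 * k * (md + 1) + k' ≤ α * n / 2 := by
  have h2 : 4 * k * (md + 1) ≤ 4 * k * (m / s + 1) :=
    mul_le_mul_of_nonneg_left (by linarith) (by linarith)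
  have h3 : 4 * k * (m / s) = 4 * K * n / K1 := by
    rw [hm, hs]; field_simp
  have h4 : 4 * K * n / K1 ≤ α * n / 8 := by
    rw [div_le_div_iff₀ hK1 (by norm_num)]
    have := mul_le_mul_of_nonneg_right hK hn.le
    linarith
  have h6 : 4 * k * (m / s + 1) = 4 * k * (m / s) + 4 * k := by ring
  have h7 : 0 < α * n := by positivity
  linarith

lemma num_O {α K K3 κ2 n m k' D : ℝ} (hα : 0 < α) (hK : 0 < K) (hK3 : 0 < K3) (hn : 0 < n)
    (hm : m = K * n) (hκ : κ2 = α ^ 2 / (128 * K ^ 2 * K3)) (hk' : n / (2 * K3) ≤ k')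
    (hD : D ≤ κ2) : 2 * m ^ 2 * (κ2 + D) / k' ≤ α ^ 2 * n / 16 := by
  have hk0 : 0 < k' := lt_of_lt_of_le (by positivity) hk'
  have hκ0 : 0 < κ2 := by rw [hκ]; positivity
  have h2 : 2 * m ^ 2 * (κ2 + D) ≤ 2 * m ^ 2 * (2 * κ2) :=
    mul_le_mul_of_nonneg_left (by linarith) (by positivity)
  have h3 : 2 * m ^ 2 * (2 * κ2) / k' ≤ 2 * m ^ 2 * (2 * κ2) / (n / (2 * K3)) :=
    div_le_div_of_nonneg_left (by positivity) (by positivity) hk'
  refine (div_le_div_of_nonneg_right h2 hk0.le).trans (h3.trans (le_of_eq ?_))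
  rw [hm, hκ]
  field_simp
  ring

lemma num_R {α μ K d n s m ρ Cρ w : ℝ} (hα : 0 < α) (hμ : 0 < μ) (hK : 0 < K) (hd : 0 ≤ d)
    (hn : 0 < n) (hs : 1 ≤ s) (hm : m = K * n) (hC : Cρ = μ * (64 * K * (2 * d + 1)) / α ^ 2)
    (hρ : ρ = Cρ * s ^ 2) (hw : w = d * (2 * s) + 1) :
    μ * (2 * s * (2 * m * w)) / ρ ≤ α ^ 2 * n / 16 := by
  have hs0 : 0 < s := by linarith
  have hm0 : 0 < m := by rw [hm]; positivity
  have h1 : w ≤ (2 * d + 1) * s := by rw [hw]; linarith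
  have hC0 : 0 < Cρ := by rw [hC]; positivity
  have hρ0 : 0 < ρ := by rw [hρ]; positivity
  have h2 : μ * (2 * s * (2 * m * w)) ≤ μ * (2 * s * (2 * m * ((2 * d + 1) * s))) := by
    gcongr
  refine (div_le_div_of_nonneg_right h2 hρ0.le).trans (le_of_eq ?_)
  rw [hρ, hC, hm]
  field_simp
  ring

lemma num_X {α S K d n s m δs C7 q a3 K1 C0 k : ℝ} (hα : 0 < α) (hS : 0 < S) (hK : 1 ≤ K)
    (hd : 0 ≤ d) (hn : 1 ≤ n) (hs0 : 0 < s) (hs : s ≤ S * n) (hm : m = K * n)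
    (hδ : δs = 2 * d * Real.exp (-(a3 * s))) (hq : 0 < q) (ha : 0 < a3 * K1)
    (hC0 : 8 ≤ a3 * K1 * C0) (hk : C0 * Real.log n ≤ k) (hsk : s = K1 * k)
    (hC7 : C7 = 8 * S * d ^ 3 * K ^ 4 / q) (e7 : 32 * C7 / α ^ 2 ≤ n) :
    2 * s * δs * n * (d * m) ^ 2 * (m + m * m) / q ≤ α ^ 2 / 32 := by
  have hn0 : 0 < n := by linarith
  have hlog : 0 ≤ Real.log n := Real.log_nonneg hn
  have hC70 : 0 ≤ C7 := by rw [hC7]; positivity
  have hn8 : Real.exp (-(a3 * s)) ≤ 1 / n ^ 8 := by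
    have h1 : (1 : ℝ) / n ^ 8 = Real.exp (-(8 * Real.log n)) := by
      rw [Real.exp_neg, mul_comm (8 : ℝ), Real.exp_mul, Real.exp_log hn0, one_div]
      norm_num
    rw [h1]
    apply Real.exp_le_exp.2
    have h2 : 8 * Real.log n ≤ a3 * K1 * C0 * Real.log n := mul_le_mul_of_nonneg_right hC0 hlog
    have h3 : a3 * K1 * (C0 * Real.log n) ≤ a3 * K1 * k := mul_le_mul_of_nonneg_left hk ha.le
    rw [hsk]
    linarith
  have h1 : δs ≤ 2 * d * (1 / n ^ 8) := by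
    rw [hδ]; exact mul_le_mul_of_nonneg_left hn8 (by positivity)
  have hδ0 : 0 ≤ δs := by rw [hδ]; positivity
  have hKn : 1 ≤ K * n := by nlinarith
  have h2 : m + m * m ≤ 2 * (K * n) ^ 2 := by
    rw [hm]; nlinarith
  have h3 : 2 * s * δs * n * (d * m) ^ 2 * (m + m * m) / q
      ≤ 2 * (S * n) * (2 * d * (1 / n ^ 8)) * n * (d * (K * n)) ^ 2 *
        (2 * (K * n) ^ 2) / q := by
    rw [hm] at h2 ⊢
    gcongr
  have h4 : 2 * (S * n) * (2 * d * (1 / n ^ 8)) * n * (d * (K * n)) ^ 2 *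
        (2 * (K * n) ^ 2) / q = C7 / n ^ 2 := by
    rw [hC7]
    field_simp
    ring
  rw [h4] at h3
  refine h3.trans ?_
  rw [div_le_iff₀ (by positivity)]
  rw [div_le_iff₀ (by positivity)] at e7
  have h5 : n ≤ n ^ 2 := by nlinarith
  have h6 : 0 < α ^ 2 := by positivity
  have h7 : n * α ^ 2 ≤ n ^ 2 * α ^ 2 := mul_le_mul_of_nonneg_right h5 h6.le
  linarith

lemma num_f {s S L Cρ : ℝ} (hs0 : 0 ≤ s) (hs : s ≤ S * L) (hL : 1 ≤ L) (hS : 0 ≤ S)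
    (hC : 0 ≤ Cρ) : 2 * s + Cρ * s ^ 2 + 3 ≤ (2 * S + Cρ * S ^ 2 + 3) * L ^ 2 := by
  have hL2 : L ≤ L ^ 2 := by nlinarith
  have hL1 : 1 ≤ L ^ 2 := by nlinarith
  have h1 : s ^ 2 ≤ S ^ 2 * L ^ 2 := by
    rw [← mul_pow]; exact pow_le_pow_left₀ hs0 hs 2
  have h2 : Cρ * s ^ 2 ≤ Cρ * (S ^ 2 * L ^ 2) := mul_le_mul_of_nonneg_left h1 hC
  have h3 : S * L ≤ S * L ^ 2 := mul_le_mul_of_nonneg_left hL2 hS
  linarith

lemma num_tau {p A0 B S n : ℝ} {d s : ℕ} (hp : p = Real.exp (-A0)) (hA0 : 0 < A0)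
    (hn : 1 ≤ n) (hS : 0 ≤ S) (hs : (s : ℝ) ≤ S * Real.log n) (hB : B = 2 * A0 * d * S) :
    n ^ (-(B + 1)) ≤ min (1 / n) (p ^ (d * (2 * s))) := by
  have hn0 : 0 < n := by linarith
  have hlog : 0 ≤ Real.log n := Real.log_nonneg hn
  have hB0 : 0 ≤ B := by rw [hB]; positivity
  have hBl : 0 ≤ B * Real.log n := by positivity
  have hnB : n ^ (-(B + 1)) = Real.exp (-(B + 1) * Real.log n) := by
    rw [Real.rpow_def_of_pos hn0]; ring_nf
  rw [hnB]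
  refine le_min ?_ ?_
  · have h1 : 1 / n = Real.exp (-Real.log n) := by
      rw [Real.exp_neg, Real.exp_log hn0, one_div]
    rw [h1]
    apply Real.exp_le_exp.2
    linarith
  · rw [hp, ← Real.exp_nat_mul]
    apply Real.exp_le_exp.2
    push_cast
    have h1 : (d : ℝ) * (2 * s) * A0 ≤ B * Real.log n := by
      rw [hB]
      have h2 : (d : ℝ) * 2 * A0 * s ≤ d * 2 * A0 * (S * Real.log n) :=
        mul_le_mul_of_nonneg_left hs (by positivity)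
      linarith
    linarith

lemma num_D {B K d n m δm a2 κ2 τ : ℝ} (hK : 0 < K) (hd : 0 ≤ d) (hn : 1 ≤ n)
    (hm : m = K * n) (hδ : δm = 2 * d * Real.exp (-(a2 * m))) (hτ0 : 0 < τ)
    (hτ : n ^ (-(B + 1)) ≤ τ)
    (e6 : n ^ (B + 2) * Real.exp (-(a2 * K) * n) ≤ κ2 / (2 * d ^ 2 * K + 1)) :
    δm * d * m / τ ≤ κ2 := by
  have hn0 : 0 < n := by linarith
  have hm0 : 0 < m := by rw [hm]; positivity
  have hδ0 : 0 ≤ δm := by rw [hδ]; positivity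
  have hrp : 0 < n ^ (B + 1) := Real.rpow_pos_of_pos hn0 _
  have h2 : 1 / τ ≤ n ^ (B + 1) := by
    rw [Real.rpow_neg hn0.le] at hτ
    rw [div_le_iff₀ hτ0]
    have h3 := mul_le_mul_of_nonneg_left hτ hrp.le
    rw [mul_inv_cancel₀ hrp.ne'] at h3
    exact h3
  have h3 : δm * d * m / τ = δm * d * m * (1 / τ) := by ring
  rw [h3]
  have h4 : δm * d * m * (1 / τ) ≤ δm * d * m * n ^ (B + 1) :=
    mul_le_mul_of_nonneg_left h2 (by positivity)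
  refine h4.trans ?_
  have h5 : δm * d * m * n ^ (B + 1)
      = 2 * d ^ 2 * K * (n ^ (B + 2) * Real.exp (-(a2 * K) * n)) := by
    have h6 : n ^ (B + 2) = n ^ (B + 1) * n := by
      rw [show B + 2 = (B + 1) + 1 by ring, Real.rpow_add hn0, Real.rpow_one]
    have h7 : -(a2 * (K * n)) = -(a2 * K) * n := by ring
    rw [h6, hδ, hm, h7]
    ring
  rw [h5]
  have h8 : 0 ≤ n ^ (B + 2) * Real.exp (-(a2 * K) * n) := by positivity
  rw [le_div_iff₀ (by positivity)] at e6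
  linarith

lemma num_k' {α K3 n : ℝ} {k' N : ℕ} (hK3 : 0 < K3) (hn0 : 0 < n) (hK3a : 8 ≤ α * K3)
    (hle : (k' : ℝ) ≤ n / K3) (_ : N = k') : (k' : ℝ) ≤ α * n / 8 := by
  refine hle.trans ?_
  rw [div_le_div_iff₀ hK3 (by norm_num)]
  have := mul_le_mul_of_nonneg_right hK3a hn0.le
  linarith

lemma num_size {a1 A0 K n m κ1 PA p d e : ℝ} (hd : 0 ≤ d) (hn : 0 < n) (hm : m = K * n)
    (hK : A0 + 1 ≤ a1 * K) (hpn : p = Real.exp (-(A0 * n))) (hPA : p ≤ PA) (hκ : 0 < κ1)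
    (he : e = 2 * d * Real.exp (-(a1 * m))) (e2 : 2 * d * Real.exp (-n) ≤ κ1) :
    e ≤ κ1 * PA := by
  have hp0 : 0 < p := by rw [hpn]; exact Real.exp_pos _
  have h2 : Real.exp (-(a1 * m)) ≤ Real.exp (-n) * p := by
    rw [hpn, ← Real.exp_add]
    apply Real.exp_le_exp.2
    rw [hm]
    have h3 : (A0 + 1) * n ≤ a1 * K * n := mul_le_mul_of_nonneg_right hK hn.le
    linarith
  calc e = 2 * d * Real.exp (-(a1 * m)) := he
    _ ≤ 2 * d * (Real.exp (-n) * p) := mul_le_mul_of_nonneg_left h2 (by positivity)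
    _ = (2 * d * Real.exp (-n)) * p := by ring
    _ ≤ κ1 * PA := mul_le_mul e2 hPA hp0.le hκ.le

/-- **Lemma A, finite form.** -/
theorem lemmaA_finite {p : ℝ} (hp0 : 0 < p) (hp1 : p < 1) (d : ℕ) (em : ℕ → ℝ)
    (hem : Tendsto em atTop (𝓝 0)) (F : ℕ → ℝ)
    (hF : ∀ K : ℝ, ∀ᶠ n : ℕ in atTop, K * (Real.log n) ^ 2 ≤ F n) {ε₀ : ℝ} (hε₀ : 0 < ε₀) :
    ∀ᶠ n : ℕ in atTop, ∀ (H : Finset (Sym2 V)) (x : V) (T : Set V), Deg H d →
      (∀ m : ℕ, 0 < m → ∀ H' ⊆ H, ∀ y,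
        Ex p H' (fun ω => min 1 ((#(cl ω y) : ℝ) / m)) ≤ em m) →
      (∀ a b, s(a, b) ∈ H → a ∉ T → F n ≤ Ex p H (fun η => min (#(cl η b) : ℝ) n)) →
      (∀ ω ⊆ H, Hit ω x T → n ≤ #(cl ω x)) → p ^ n ≤ PH p H x T →
      Ex p H (fun ω => ind (Hit ω x T) * (npiv ω x T / #(cl ω x))) ≤ ε₀ * PH p H x T := by
  have hq : 0 < 1 - p := by linarith
  obtain ⟨lam, hlam⟩ : ∃ lam, lam = p / (1 - p) := ⟨_, rfl⟩
  have hlam0 : 0 < lam := hlam ▸ div_pos hp0 hq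
  obtain ⟨A0, hA0pos, hpexp⟩ : ∃ A0 : ℝ, 0 < A0 ∧ p = Real.exp (-A0) := by
    refine ⟨-Real.log p, ?_, ?_⟩
    · have := Real.log_neg hp0 hp1
      linarith
    · rw [neg_neg, Real.exp_log hp0]
  obtain ⟨α, hα⟩ : ∃ α, α = ε₀ / 4 := ⟨_, rfl⟩
  have hα0 : 0 < α := by rw [hα]; positivity
  obtain ⟨a1, ha1, hsize⟩ := exists_size (V := V) hp0 hp1 d hα0
  obtain ⟨K, hKge⟩ := exists_nat_ge (max ((A0 + 1) / a1) 1)
  have hK1' : (1 : ℝ) ≤ K := (le_max_right _ _).trans hKge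
  have hKa : A0 + 1 ≤ a1 * K := by
    have := (le_max_left _ _).trans hKge
    rw [div_le_iff₀ ha1] at this
    linarith
  have hKpos : 0 < K := by
    have : (0 : ℝ) < K := by linarith
    exact_mod_cast this
  obtain ⟨K3, hK3ge⟩ := exists_nat_ge (max (8 / α) 1)
  have hK31 : (1 : ℝ) ≤ K3 := (le_max_right _ _).trans hK3ge
  have hK3a : 8 ≤ α * K3 := by
    have := (le_max_left _ _).trans hK3ge
    rw [div_le_iff₀ hα0] at this
    linarith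
  have hK3pos : 0 < K3 := by
    have : (0 : ℝ) < K3 := by linarith
    exact_mod_cast this
  obtain ⟨K1, hK1ge⟩ := exists_nat_ge (max (32 * K / α) 1)
  have hK11 : (1 : ℝ) ≤ K1 := (le_max_right _ _).trans hK1ge
  have hK1a : 32 * K ≤ α * K1 := by
    have := (le_max_left _ _).trans hK1ge
    rw [div_le_iff₀ hα0] at this
    linarith
  have hK1pos : 0 < K1 := by
    have : (0 : ℝ) < K1 := by linarith
    exact_mod_cast this
  have hKr : (0 : ℝ) < K := by linarith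
  have hK1r : (0 : ℝ) < K1 := by linarith
  have hK3r : (0 : ℝ) < K3 := by linarith
  obtain ⟨κ2, hκ2⟩ : ∃ κ2, κ2 = α ^ 2 / (128 * (K : ℝ) ^ 2 * K3) := ⟨_, rfl⟩
  have hκ20 : 0 < κ2 := by rw [hκ2]; positivity
  obtain ⟨a2, ha2, hC2⟩ := exists_CProp (V := V) hp0 hp1 d hκ20
  obtain ⟨κ3, hκ3⟩ : ∃ κ3, κ3 = α ^ 2 / (128 * (K1 : ℝ) ^ 2 * K) := ⟨_, rfl⟩
  have hκ30 : 0 < κ3 := by rw [hκ3]; positivity
  obtain ⟨a3, ha3, hC3⟩ := exists_CProp (V := V) hp0 hp1 d hκ30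
  have haK : 0 < a3 * K1 := by positivity
  obtain ⟨C0, hC0⟩ : ∃ C0, C0 = 8 / (a3 * K1) + 1 := ⟨_, rfl⟩
  have hC01 : 1 ≤ C0 := by
    have : 0 < 8 / (a3 * K1) := by positivity
    linarith
  have hC0a : 8 ≤ a3 * K1 * C0 := by
    rw [hC0, mul_add, mul_div_cancel₀ _ haK.ne']
    linarith
  obtain ⟨S, hS⟩ : ∃ S, S = K1 * (C0 + 1) := ⟨_, rfl⟩
  have hS0 : 0 < S := by rw [hS]; positivity
  obtain ⟨μ, hμ⟩ : ∃ μ, μ = (1 - p) / p := ⟨_, rfl⟩
  have hμ0 : 0 < μ := by rw [hμ]; exact div_pos hq hp0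
  obtain ⟨Cρ, hCρ⟩ : ∃ Cρ, Cρ = μ * (64 * K * (2 * (d : ℝ) + 1)) / α ^ 2 := ⟨_, rfl⟩
  have hCρ0 : 0 < Cρ := by rw [hCρ]; positivity
  obtain ⟨B, hB⟩ : ∃ B, B = 2 * A0 * d * S := ⟨_, rfl⟩
  obtain ⟨C7, hC7⟩ : ∃ C7, C7 = 8 * S * (d : ℝ) ^ 3 * K ^ 4 / (1 - p) := ⟨_, rfl⟩
  have hkft : Tendsto (fun n : ℕ => ⌈C0 * Real.log n⌉₊) atTop atTop :=
    tendsto_nat_ceil_atTop.comp (log_nat_tendsto.const_mul_atTop (by linarith : 0 < C0))
  -- eventual facts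
  have e1 : ∀ κ : ℝ, 0 < κ → ∀ᶠ n : ℕ in atTop, lam * d * em (K * n) ≤ κ := by
    intro κ hκ
    have h1 : Tendsto (fun n : ℕ => lam * d * em (K * n)) atTop (𝓝 (lam * d * 0)) :=
      (hem.comp (tendsto_atTop_mono (fun n => Nat.le_mul_of_pos_left n hKpos)
        tendsto_id)).const_mul _
    rw [mul_zero] at h1
    exact h1.eventually (eventually_le_nhds hκ)
  have e1c : ∀ᶠ n : ℕ in atTop, lam * d * em (K1 * ⌈C0 * Real.log n⌉₊) ≤ κ3 / 2 := by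
    have h1 : Tendsto (fun n : ℕ => lam * d * em (K1 * ⌈C0 * Real.log n⌉₊)) atTop
        (𝓝 (lam * d * 0)) :=
      (hem.comp (tendsto_atTop_mono (fun n : ℕ =>
        Nat.le_mul_of_pos_left (⌈C0 * Real.log n⌉₊) hK1pos) hkft)).const_mul _
    rw [mul_zero] at h1
    exact h1.eventually (eventually_le_nhds (by positivity))
  have e2 : ∀ᶠ n : ℕ in atTop, 2 * d * Real.exp (-(n : ℝ)) ≤ α := by
    filter_upwards [ev_pow_exp 0 1 (α / (2 * d + 1)) one_pos (by positivity)] with n hn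
    rw [Real.rpow_zero, one_mul, le_div_iff₀ (by positivity)] at hn
    have h1 : 0 < Real.exp (-(n : ℝ)) := Real.exp_pos _
    have h2 : Real.exp (-1 * (n : ℝ)) = Real.exp (-(n : ℝ)) := by ring_nf
    rw [h2] at hn
    linarith
  have e3 := hF (2 * S + Cρ * S ^ 2 + 3)
  have e4 := ev_log_le (α / (32 * (C0 + 1))) (by positivity)
  have e6 := ev_pow_exp (B + 2) (a2 * K) (κ2 / (2 * d ^ 2 * K + 1)) (by positivity) (by positivity)
  have e7 : ∀ᶠ n : ℕ in atTop, 32 * C7 / α ^ 2 ≤ n :=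
    (tendsto_natCast_atTop_atTop (R := ℝ)).eventually_ge_atTop _
  filter_upwards [e1 (α / 2) (by positivity), e1 (κ2 / 2) (by positivity), e1c, e2, e3, e4, e6, e7,
    ev_log_ge 1, eventually_ge_atTop (2 * K3),
    eventually_ge_atTop 1] with n e1a e1b e1c e2 e3 e4 e6 e7 hlog hn3 hn1
  clear e1 hkft hem hF
  intro H x T hd hεH hfr hn hPA
  by_contra hcon
  push Not at hcon
  obtain ⟨k, hk⟩ : ∃ k, k = ⌈C0 * Real.log n⌉₊ := ⟨_, rfl⟩
  rw [← hk] at e1c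
  obtain ⟨s, hs⟩ : ∃ s, s = K1 * k := ⟨_, rfl⟩
  obtain ⟨m, hm⟩ : ∃ m, m = K * n := ⟨_, rfl⟩
  rw [← hs] at e1c
  rw [← hm] at e1a e1b
  obtain ⟨k', hk'⟩ : ∃ k', k' = n / K3 := ⟨_, rfl⟩
  obtain ⟨PA, hPAdef⟩ : ∃ PA, PA = PH p H x T := ⟨_, rfl⟩
  have hn1r : (1 : ℝ) ≤ n := by exact_mod_cast hn1
  have hn0 : (0 : ℝ) < n := by linarith
  have hPA0 : 0 < PA := hPAdef ▸ lt_of_lt_of_le (by positivity) hPA
  have hkge : C0 * Real.log n ≤ k := hk ▸ Nat.le_ceil _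
  have hlog0 : 0 < Real.log n := by linarith
  have hkle : (k : ℝ) ≤ (C0 + 1) * Real.log n := by
    have h1 : (k : ℝ) < C0 * Real.log n + 1 := hk ▸ Nat.ceil_lt_add_one (by positivity)
    linarith
  have hC0log : 1 ≤ C0 * Real.log n := by nlinarith
  have hk1 : (1 : ℝ) ≤ k := hC0log.trans hkge
  have hk0r : (0 : ℝ) < k := by linarith
  have hk0 : 0 < k := by exact_mod_cast hk0r
  have hs0 : 0 < s := hs ▸ Nat.mul_pos hK1pos hk0
  have hsr : (s : ℝ) = K1 * k := by rw [hs]; push_cast; ring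
  have hs1 : (1 : ℝ) ≤ s := by exact_mod_cast hs0
  have hsS : (s : ℝ) ≤ S * Real.log n := by
    rw [hsr, hS, mul_assoc]
    exact mul_le_mul_of_nonneg_left hkle hK1r.le
  have hmr : (m : ℝ) = K * n := by rw [hm]; push_cast; ring
  have hm0 : 0 < m := hm ▸ Nat.mul_pos hKpos (by omega)
  have hlogn : Real.log n ≤ n := by
    have := Real.log_le_sub_one_of_pos hn0
    linarith
  have hsn : (s : ℝ) ≤ S * n := hsS.trans (mul_le_mul_of_nonneg_left hlogn hS0.le)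
  -- k'
  have hk'0 : 0 < k' := hk' ▸ Nat.div_pos (by omega) hK3pos
  have hk'le : (k' : ℝ) ≤ α * n / 8 :=
    num_k' hK3r hn0 hK3a (hk' ▸ Nat.cast_div_le) rfl
  have hk'ge : (n : ℝ) / (2 * K3) ≤ k' := by
    have h1 : n < K3 * (k' + 1) := by
      rw [hk']
      exact Nat.lt_mul_div_succ n hK3pos
    have h2 : (n : ℝ) < K3 * (k' + 1) := by exact_mod_cast h1
    have h3 : (2 : ℝ) * K3 ≤ n := by exact_mod_cast hn3
    rw [div_le_iff₀ (by positivity)]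
    linarith
  -- size control
  have hsz : Ex p H (fun ω => ind (Hit ω x T) * gi m #(cl ω x) * npiv ω x T)
      ≤ ε₀ / 2 * PH p H x T := by
    refine (hsize H x T m (em m) hd hm0 (hεH m hm0) (by rw [← hlam]; exact e1a)).trans ?_
    rw [← hPAdef]
    rw [← hPAdef] at hPA
    have h1 : 2 * d * Real.exp (-(a1 * m)) ≤ α * PA := by
      refine num_size (Nat.cast_nonneg d) hn0 hmr hKa ?_ hPA hα0 rfl e2
      rw [hpexp, ← Real.exp_nat_mul]
      congr 1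
      ring
    have h2 : α * PA + α * PA = ε₀ / 2 * PA := by rw [hα]; ring
    linarith
  have hPB := size_control hp0 hp1 x T m hε₀ hcon hsz
  rw [← hα, ← hPAdef] at hPB
  -- parameters
  obtain ⟨ρ, hρ⟩ : ∃ ρ, ρ = Cρ * (s : ℝ) ^ 2 := ⟨_, rfl⟩
  have hρ0 : 0 < ρ := by rw [hρ]; positivity
  obtain ⟨τ, hτ⟩ : ∃ τ, τ = min (1 / (n : ℝ)) (p ^ (d * (2 * s))) := ⟨_, rfl⟩
  have hτ0 : 0 < τ := by rw [hτ]; exact lt_min (by positivity) (by positivity)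
  have hnτ : (n : ℝ) * τ ≤ 1 := by
    calc (n : ℝ) * τ ≤ n * (1 / n) := mul_le_mul_of_nonneg_left (hτ ▸ min_le_left _ _) hn0.le
      _ = 1 := by field_simp
  have hτge : (n : ℝ) ^ (-(B + 1)) ≤ τ := hτ ▸ num_tau hpexp hA0pos hn1r hS0.le hsS hB
  have hf : 2 * (s : ℝ) + ρ + 3 ≤ F n := by
    refine le_trans ?_ e3
    rw [hρ]
    exact num_f (by linarith) hsS hlog hS0.le hCρ0.le
  obtain ⟨δs, hδs⟩ : ∃ δs, δs = 2 * (d : ℝ) * Real.exp (-(a3 * s)) := ⟨_, rfl⟩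
  obtain ⟨δm, hδm⟩ : ∃ δm, δm = 2 * (d : ℝ) * Real.exp (-(a2 * m)) := ⟨_, rfl⟩
  have hδs0 : 0 ≤ δs := by rw [hδs]; positivity
  have hδm0 : 0 ≤ δm := by rw [hδm]; positivity
  have hCs : CProp p H s κ3 δs :=
    hδs ▸ hC3 H s (em s) hd hs0 (hεH s hs0) (by rw [← hlam]; exact e1c)
  have hCm : CProp p H m κ2 δm :=
    hδm ▸ hC2 H m (em m) hd hm0 (hεH m hm0) (by rw [← hlam]; exact e1b)
  have htm : (n : ℝ) ≤ m := by
    rw [hmr]
    have := mul_le_mul_of_nonneg_right hK1' hn0.le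
    linarith
  have hmain := main_ineq hp0 hp1 x T (d := d) (m := m) (s := s) (k := k) (k' := k') (n := n)
    (t := n) (τ := τ) (ρ := ρ) (f := F n) (α := α) hd hs0 hk0 hk'0 hn0
    htm hτ0 hnτ hρ0 (hτ ▸ min_le_right _ _) hf hfr hn hα0.le hκ30.le hδs0
    hκ20.le hδm0 hCs hCm
  rw [← hPAdef, ← hμ] at hmain
  -- the terms
  have hk4 : 4 * (k : ℝ) ≤ α * n / 8 := by
    have h6 : (C0 + 1) * Real.log n ≤ (C0 + 1) * (α / (32 * (C0 + 1)) * n) :=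
      mul_le_mul_of_nonneg_left e4 (by linarith)
    have h7 : (C0 + 1) * (α / (32 * (C0 + 1)) * n) = α * n / 32 := by
      field_simp
    linarith
  have hW : 4 * (k : ℝ) * (m / s + 1 : ℕ) + k' ≤ α * n / 2 := by
    have := num_W (md := ((m / s : ℕ) : ℝ)) hK1r hn0 hα0 hk0r hsr hmr Nat.cast_div_le hK1a hk4
      hk'le
    push_cast
    push_cast at this
    exact this
  have hO : 2 * (m : ℝ) ^ 2 * (κ2 + δm * d * m / τ) / k' ≤ α ^ 2 * n / 16 :=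
    num_O hα0 hKr hK3r hn0 hmr hκ2 hk'ge
      (num_D hKr (Nat.cast_nonneg d) hn1r hmr hδm hτ0 hτge e6)
  have hR : μ * (2 * (s : ℝ) * (2 * m * (d * (2 * s) + 1 : ℕ))) / ρ ≤ α ^ 2 * n / 16 :=
    num_R hα0 hμ0 hKr (Nat.cast_nonneg d) hn0 hs1 hmr hCρ hρ (by push_cast; ring)
  have hX : 2 * (s : ℝ) * δs * n * (d * m) ^ 2 * (m + m * m) / (1 - p) ≤ α ^ 2 / 32 :=
    num_X hα0 hS0 hK1' (Nat.cast_nonneg d) hn1r (by linarith) hsn hmr hδs hq haK hC0a hkge hsr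
      hC7 e7
  exact numeric (α := α) (K := K) (K1 := K1) (n := n) (k := k) (s := s) (m := m) hα0 hK1' hK1r
    hn1r hk1 hPA0 hW hPB hO hR hsr hmr hκ3 hX hmain

end

end H97.IIC
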