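import Mathlib
import Pool.Agent.H17.IIC.FMain
import Pool.Agent.H91.IIC.Russo
import Pool.Agent.H97.IIC.LemmaA

/-!
# From the finite form of Lemma A to `PivStatement`
-/

open MeasureTheory Set Filter Topology
open scoped ENNReal Classical

set_option linter.unusedSectionVars false

namespace Pool.Agent.H97.Bridge

open Pool.Agent.H17.IIC

section gen
variable {V : Type*}

/-- the open edges of `ω` in the finite set `Λ` -/
noncomputable def res (Λ : Finset (Sym2 V)) (ω : Sym2 V → Bool) : Finset (Sym2 V) :=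
  Λ.filter (fun e => ω e = true)

lemma mem_res {Λ : Finset (Sym2 V)} {ω : Sym2 V → Bool} {e : Sym2 V} :
    e ∈ res Λ ω ↔ e ∈ Λ ∧ ω e = true := by
  simp [res]

lemma res_subset (Λ : Finset (Sym2 V)) (ω : Sym2 V → Bool) : res Λ ω ⊆ Λ :=
  Finset.filter_subset _ _

lemma res_update_true {Λ : Finset (Sym2 V)} {e : Sym2 V} (he : e ∉ Λ) (ω : Sym2 V → Bool) :
    res (insert e Λ) (Function.update ω e true) = insert e (res Λ ω) := by
  ext f
  rw [mem_res, Finset.mem_insert, Finset.mem_insert, mem_res]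
  by_cases h : f = e
  · subst h; simp
  · simp [h]

lemma res_update_false {Λ : Finset (Sym2 V)} {e : Sym2 V} (he : e ∉ Λ) (ω : Sym2 V → Bool) :
    res (insert e Λ) (Function.update ω e false) = res Λ ω := by
  ext f
  rw [mem_res, Finset.mem_insert, mem_res]
  by_cases h : f = e
  · subst h; simp [he]
  · simp [h]

lemma res_off (Λ : Finset (Sym2 V)) (e : Sym2 V) (ω : Sym2 V → Bool) :
    res Λ (off ω e) = (res Λ ω).erase e := by
  ext f
  rw [mem_res, Finset.mem_erase, mem_res]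
  by_cases h : f = e
  · subst h; simp [off_self]
  · rw [off_ne h]; tauto

lemma depOn_res (Λ : Finset (Sym2 V)) (F : Finset (Sym2 V) → ℝ) :
    Pool.Agent.H91.IIC.DepOn Λ (fun ω => F (res Λ ω)) := by
  intro ω ω' h
  have : res Λ ω = res Λ ω' := by
    ext f
    rw [mem_res, mem_res]
    constructor
    · rintro ⟨h1, h2⟩; exact ⟨h1, by rw [← h f h1]; exact h2⟩
    · rintro ⟨h1, h2⟩; exact ⟨h1, by rw [h f h1]; exact h2⟩
  simp only [this]

lemma measurable_res (Λ : Finset (Sym2 V)) (F : Finset (Sym2 V) → ℝ) :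
    Measurable (fun ω : Sym2 V → Bool => ENNReal.ofReal (F (res Λ ω))) :=
  (depOn_res Λ F).measurable.ennreal_ofReal

lemma Ex_empty (p : ℝ) (F : Finset (Sym2 V) → ℝ) : H97.IIC.Ex p ∅ F = F ∅ := by
  simp [H97.IIC.Ex, H97.IIC.wt]

/-- expectations of functions of the open edges in `Λ` are finite sums -/
theorem lintegral_res (p : unitInterval) (Λ : Finset (Sym2 V)) :
    ∀ (F : Finset (Sym2 V) → ℝ), (∀ η ⊆ Λ, 0 ≤ F η) →
      ∫⁻ ω, ENNReal.ofReal (F (res Λ ω)) ∂(prodBern (Sym2 V) p)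
        = ENNReal.ofReal (H97.IIC.Ex (p : ℝ) Λ F) := by
  have hp0 : (0 : ℝ) ≤ p := p.2.1
  have hp1 : (p : ℝ) ≤ 1 := p.2.2
  induction Λ using Finset.induction_on with
  | empty =>
    intro F _
    rw [Ex_empty]
    have : ∀ ω : Sym2 V → Bool, res ∅ ω = ∅ := fun ω => by simp [res]
    simp only [this, lintegral_const, measure_univ, mul_one]
  | insert e Λ he ih =>
    intro F hF
    have h1 := ih (fun η => F (insert e η)) (fun η hη => hF _ (Finset.insert_subset_insert e hη))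
    have h0 := ih F (fun η hη => hF _ (hη.trans (Finset.subset_insert e Λ)))
    rw [resample p e (measurable_res _ F), H97.IIC.Ex_erase (Finset.mem_insert_self e Λ) F,
      Finset.erase_insert he]
    simp only [res_update_true he, res_update_false he]
    rw [h1, h0, ← ENNReal.ofReal_mul hp0, ← ENNReal.ofReal_mul (by linarith),
      ← ENNReal.ofReal_add]
    · exact mul_nonneg hp0 (H97.IIC.Ex_nonneg hp0 hp1
        (fun η hη => hF _ (Finset.insert_subset_insert e hη)))
    · exact mul_nonneg (by linarith) (H97.IIC.Ex_nonneg hp0 hp1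
        (fun η hη => hF _ (hη.trans (Finset.subset_insert e Λ))))

variable {G : SimpleGraph V}

/-- configuration of a finite edge set -/
noncomputable def conf (η : Finset (Sym2 V)) : Sym2 V → Bool := fun e => decide (e ∈ η)

lemma conn_cluster {Λ : Finset (Sym2 V)} (hΛ : ∀ e ∈ Λ, e ∈ G.edgeSet) {ω : Sym2 V → Bool}
    {x y : V} (h : H97.IIC.Conn (res Λ ω) x y) : y ∈ cluster G ω x := by
  induction h with
  | refl => exact self_mem_cluster
  | @tail b c _ h2 ih =>
    obtain ⟨h3, h4⟩ := mem_res.1 h2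
    exact cluster_step ih (SimpleGraph.mem_edgeSet G |>.1 (hΛ _ h3)) h4

lemma cl_subset_cluster {Λ : Finset (Sym2 V)} (hΛ : ∀ e ∈ Λ, e ∈ G.edgeSet) (ω : Sym2 V → Bool)
    (x : V) : ((H97.IIC.cl (res Λ ω) x : Finset V) : Set V) ⊆ cluster G ω x := by
  intro y hy
  exact conn_cluster hΛ (H97.IIC.mem_cl.1 (Finset.mem_coe.1 hy))

lemma card_le_encard {Λ : Finset (Sym2 V)} (hΛ : ∀ e ∈ Λ, e ∈ G.edgeSet) (ω : Sym2 V → Bool)
    (x : V) : ((H97.IIC.cl (res Λ ω) x).card : ℕ∞) ≤ (cluster G ω x).encard := by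
  rw [← Set.encard_coe_eq_coe_finsetCard]
  exact Set.encard_le_encard (cl_subset_cluster hΛ ω x)

lemma cluster_conf {η : Finset (Sym2 V)} (hη : ∀ e ∈ η, e ∈ G.edgeSet) (x : V) :
    cluster G (conf η) x = ((H97.IIC.cl η x : Finset V) : Set V) := by
  apply Set.Subset.antisymm
  · intro y hy
    rw [Finset.mem_coe, H97.IIC.mem_cl]
    refine cluster_induction (P := fun y => H97.IIC.Conn η x y) (H97.IIC.Conn.refl _ _) ?_ y hy
    intro a _ ha b _ ho
    exact ha.tail (by simpa [conf] using ho)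
  · intro y hy
    rw [Finset.mem_coe, H97.IIC.mem_cl] at hy
    induction hy with
    | refl => exact self_mem_cluster
    | @tail b c _ h2 ih =>
      exact cluster_step ih (SimpleGraph.mem_edgeSet G |>.1 (hη _ h2)) (by simpa [conf] using h2)

lemma dist_lt_card' {η : Finset (Sym2 V)} (hη : ∀ e ∈ η, e ∈ G.edgeSet) {x y : V}
    (hy : y ∈ H97.IIC.cl η x) : G.dist x y < (H97.IIC.cl η x).card := by
  have h1 := cluster_conf (G := G) hη x
  have hf : (cluster G (conf η) x).Finite := by rw [h1]; exact Finset.finite_toSet _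
  have h2 : cl G (conf η) x = H97.IIC.cl η x := by
    apply Finset.coe_injective
    rw [cl_eq_of_finite hf, h1]
  have h3 := dist_lt_card (G := G) (ω := conf η) (x := x) (y := x) (z := y) hf self_mem_cluster
    (by rw [h1]; exact Finset.mem_coe.2 hy)
  rwa [h2] at h3

lemma walk_conn {x y : V} (w : G.Walk x y) {η : Finset (Sym2 V)}
    (h : ∀ e ∈ w.edges, e ∈ η) : H97.IIC.Conn η x y := by
  induction w with
  | nil => exact H97.IIC.Conn.refl _ _
  | cons hadj w ih =>
    refine (H97.IIC.Conn.edge (h _ (by simp))).trans (ih (fun e he => h e (by simp [he])))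

/-- the set of vertices at distance at least `n` from `o` -/
def far' (G : SimpleGraph V) (n : ℕ) (o : V) : Set V := {z | n ≤ G.dist o z}

/-- the edges of `G` inside the ball of radius `N` about `o` -/
def inBall (G : SimpleGraph V) (N : ℕ) (o : V) : Set (Sym2 V) :=
  {e | ∃ a b, G.Adj a b ∧ G.dist o a ≤ N ∧ G.dist o b ≤ N ∧ e = s(a, b)}

lemma inBall_finite (hconn : G.Connected) (hfin : ∀ x, (G.neighborSet x).Finite) (N : ℕ) (o : V) :
    (inBall G N o).Finite := by
  refine (touch_finite G hfin (ball_finite hconn hfin o N)).subset ?_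
  rintro e ⟨a, b, h1, h2, _, rfl⟩
  exact ⟨a, h2, b, h1, rfl⟩

lemma mem_inBall {N : ℕ} {o a b : V} : s(a, b) ∈ inBall G N o ↔
    G.Adj a b ∧ G.dist o a ≤ N ∧ G.dist o b ≤ N := by
  constructor
  · rintro ⟨a', b', h1, h2, h3, h4⟩
    rw [Sym2.eq_iff] at h4
    rcases h4 with ⟨rfl, rfl⟩ | ⟨rfl, rfl⟩
    · exact ⟨h1, h2, h3⟩
    · exact ⟨h1.symm, h3, h2⟩
  · rintro ⟨h1, h2, h3⟩
    exact ⟨a, b, h1, h2, h3, rfl⟩

lemma dist_step (hconn : G.Connected) {o a b : V} (h : G.Adj a b) :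
    G.dist o b ≤ G.dist o a + 1 := by
  have h1 : G.dist o b ≤ G.dist o a + G.dist a b := hconn.dist_triangle
  rw [SimpleGraph.dist_eq_one_iff_adj.2 h] at h1
  exact h1

lemma reach_iff (hconn : G.Connected) {n N : ℕ} (hN : n ≤ N) {Λ : Finset (Sym2 V)} {o : V}
    (hΛ : ∀ e, e ∈ Λ ↔ e ∈ inBall G N o) (ω : Sym2 V → Bool) :
    Reach G n ω o ↔ H97.IIC.Hit (res Λ ω) o (far' G n o) := by
  have hΛe : ∀ e ∈ Λ, e ∈ G.edgeSet := by
    intro e he
    obtain ⟨a, b, h1, _, _, rfl⟩ := (hΛ e).1 he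
    exact h1
  constructor
  · rintro ⟨z, hz, hd⟩
    have key := cluster_induction (G := G) (ω := ω) (x := o)
      (P := fun y => H97.IIC.Conn (res Λ ω) o y ∨ H97.IIC.Hit (res Λ ω) o (far' G n o))
      (Or.inl (H97.IIC.Conn.refl _ _)) ?_ z hz
    · rcases key with h | h
      · exact ⟨z, H97.IIC.mem_cl.2 h, le_of_eq hd.symm⟩
      · exact h
    · intro a _ ha b hab ho
      rcases ha with ha | ha
      · by_cases hn : n ≤ G.dist o a
        · exact Or.inr ⟨a, H97.IIC.mem_cl.2 ha, hn⟩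
        · left
          have h1 := dist_step hconn (o := o) hab
          refine ha.tail (mem_res.2 ⟨(hΛ _).2 (mem_inBall.2 ⟨hab, by omega, by omega⟩), ho⟩)
      · exact Or.inr ha
  · rintro ⟨y, hy, hd⟩
    have hd' : n ≤ G.dist o y := hd
    rw [H97.IIC.mem_cl] at hy
    have key : ∀ y, H97.IIC.Conn (res Λ ω) o y → n ≤ G.dist o y →
        ∃ z, H97.IIC.Conn (res Λ ω) o z ∧ G.dist o z = n := by
      intro y hy
      induction hy with
      | refl =>
        intro h
        rw [SimpleGraph.dist_self] at h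
        exact ⟨o, H97.IIC.Conn.refl _ _, by rw [SimpleGraph.dist_self]; omega⟩
      | @tail b c h1 h2 ih =>
        intro h
        by_cases hn : n ≤ G.dist o b
        · exact ih hn
        · have hadj : G.Adj b c := hΛe _ (mem_res.1 h2).1
          have h3 := dist_step hconn (o := o) hadj
          exact ⟨c, H97.IIC.Conn.tail h1 h2, by omega⟩
    obtain ⟨z, hz, hdz⟩ := key y hy hd'
    exact ⟨z, conn_cluster hΛe hz, hdz⟩

lemma min_encard_le (hconn : G.Connected) {n N : ℕ} (hN : 2 * n ≤ N) {Λ : Finset (Sym2 V)} {o b : V}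
    (hΛ : ∀ e, e ∈ Λ ↔ e ∈ inBall G N o) (hb : G.dist o b ≤ n) (ω : Sym2 V → Bool) :
    min (cluster G ω b).encard (n : ℕ∞) ≤ ((min (H97.IIC.cl (res Λ ω) b).card n : ℕ) : ℕ∞) := by
  have hΛe : ∀ e ∈ Λ, e ∈ G.edgeSet := by
    intro e he
    obtain ⟨a, b, h1, _, _, rfl⟩ := (hΛ e).1 he
    exact h1
  by_cases hcard : n ≤ (H97.IIC.cl (res Λ ω) b).card
  · rw [min_eq_right hcard]
    exact min_le_right _ _
  · have hsub : cluster G ω b ⊆ ((H97.IIC.cl (res Λ ω) b : Finset V) : Set V) := by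
      intro y hy
      rw [Finset.mem_coe, H97.IIC.mem_cl]
      refine cluster_induction (P := fun y => H97.IIC.Conn (res Λ ω) b y)
        (H97.IIC.Conn.refl _ _) ?_ y hy
      intro a _ ha a' haa' ho
      have h1 : G.dist b a < (H97.IIC.cl (res Λ ω) b).card :=
        dist_lt_card' (fun e he => hΛe e (res_subset _ _ he)) (H97.IIC.mem_cl.2 ha)
      have h2 : G.dist o a ≤ G.dist o b + G.dist b a := hconn.dist_triangle
      have h3 := dist_step hconn (o := o) haa'
      exact ha.tail (mem_res.2 ⟨(hΛ _).2 (mem_inBall.2 ⟨haa', by omega, by omega⟩), ho⟩)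
    have h1 := Set.encard_le_encard hsub
    rw [Set.encard_coe_eq_coe_finsetCard] at h1
    rw [min_eq_left (by omega : (H97.IIC.cl (res Λ ω) b).card ≤ n)]
    exact (min_le_left _ _).trans h1

lemma path_event (hconn : G.Connected) {n N : ℕ} (hN : n ≤ N) {Λ : Finset (Sym2 V)} {o z : V}
    (hΛ : ∀ e, e ∈ Λ ↔ e ∈ inBall G N o) (hz : G.dist o z = n) :
    ∃ ξ ⊆ Λ, ξ.card ≤ n ∧ ∀ η, ξ ⊆ η → H97.IIC.Hit η o (far' G n o) := by
  obtain ⟨w, hw⟩ := hconn.exists_walk_length_eq_dist o z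
  refine ⟨w.edges.toFinset, ?_, ?_, ?_⟩
  · intro e he
    rw [List.mem_toFinset] at he
    rw [hΛ]
    induction e using Sym2.inductionOn with
    | hf a b =>
      have hsup : ∀ v ∈ w.support, G.dist o v ≤ N := by
        intro v hv
        have h1 := SimpleGraph.dist_le (w.takeUntil v hv)
        have h2 := SimpleGraph.Walk.length_takeUntil_le_length w hv
        omega
      refine mem_inBall.2 ⟨w.adj_of_mem_edges he, hsup _ (w.fst_mem_support_of_mem_edges he),
        hsup _ (w.snd_mem_support_of_mem_edges he)⟩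
  · calc w.edges.toFinset.card ≤ w.edges.length := List.toFinset_card_le _
      _ = n := by rw [SimpleGraph.Walk.length_edges, hw, hz]
  · intro η hη
    refine ⟨z, H97.IIC.mem_cl.2 (walk_conn w (fun e he => hη (List.mem_toFinset.2 he))), ?_⟩
    exact le_of_eq hz.symm

lemma exists_dist_eq [Infinite V] (hconn : G.Connected) (hfin : ∀ x, (G.neighborSet x).Finite)
    (o : V) (n : ℕ) : ∃ z, G.dist o z = n := by
  obtain ⟨y, hy⟩ : ∃ y, n ≤ G.dist o y := by
    by_contra hc
    push Not at hc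
    have : (Set.univ : Set V) ⊆ {y | G.dist o y ≤ n} := fun y _ => (hc y).le
    exact Set.infinite_univ ((ball_finite hconn hfin o n).subset this)
  have key : ∀ y, Relation.ReflTransGen G.Adj o y → n ≤ G.dist o y → ∃ z, G.dist o z = n := by
    intro y hy
    induction hy with
    | refl =>
      intro h
      rw [SimpleGraph.dist_self] at h
      exact ⟨o, by rw [SimpleGraph.dist_self]; omega⟩
    | @tail b c h1 h2 ih =>
      intro h
      by_cases hn : n ≤ G.dist o b
      · exact ih hn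
      · have h3 := dist_step hconn (o := o) h2
        exact ⟨c, by omega⟩
  exact key y ((SimpleGraph.reachable_iff_reflTransGen o y).1 (hconn.preconnected o y)) hy

end gen

section grp
variable {Γ : Type*} [Group Γ] [Countable Γ] {G : SimpleGraph Γ}

lemma deg_inBall (hG : CayleyLike G) {Λ : Finset (Sym2 Γ)} (hΛ : ∀ e ∈ Λ, e ∈ G.edgeSet) :
    H97.IIC.Deg Λ (hG.fin 1).toFinset.card := by
  intro v
  have hsub : (Λ.filter fun e => v ∈ e) ⊆ (hG.fin 1).toFinset.image (fun w => s(v, v * w)) := by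
    intro e he
    rw [Finset.mem_filter] at he
    obtain ⟨he1, he2⟩ := he
    obtain ⟨w, rfl⟩ := Sym2.mem_iff_exists.1 he2
    rw [Finset.mem_image]
    refine ⟨v⁻¹ * w, ?_, by simp⟩
    rw [Set.Finite.mem_toFinset, SimpleGraph.mem_neighborSet]
    have : G.Adj v w := hΛ _ he1
    rw [← hG.inv v]
    simpa using this
  exact (Finset.card_le_card hsub).trans Finset.card_image_le

/-- truncated expected cluster size `E[min(|C|/m, 1)]` -/
noncomputable def emE (G : SimpleGraph Γ) (p : unitInterval) (m : ℕ) : ℝ≥0∞ :=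
  ∫⁻ ω, min 1 (((cluster G ω 1).encard : ℝ≥0∞) / m) ∂(perc Γ p)

lemma measurable_minE (m : ℕ) (x : Γ) :
    Measurable (fun ω : Sym2 Γ → Bool => min 1 (((cluster G ω x).encard : ℝ≥0∞) / m)) :=
  measurable_const.min ((measurable_encard x).div_const _)

lemma emE_le_one (p : unitInterval) (m : ℕ) : emE G p m ≤ 1 := by
  unfold emE
  calc _ ≤ ∫⁻ _, 1 ∂(perc Γ p) := lintegral_mono (fun ω => min_le_left _ _)
    _ = 1 := by simp

lemma emE_tendsto (hG : CayleyLike G) (p : unitInterval) (hth : ThetaZero G p) :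
    Tendsto (emE G p) atTop (𝓝 0) := by
  have h := tendsto_lintegral_of_dominated_convergence (μ := perc Γ p)
    (F := fun (m : ℕ) (ω : Sym2 Γ → Bool) => min 1 (((cluster G ω 1).encard : ℝ≥0∞) / m))
    (f := fun _ => (0 : ℝ≥0∞)) (fun _ => 1) (fun m => measurable_minE m 1)
    (fun m => Eventually.of_forall (fun ω => min_le_left _ _)) (by simp) ?_
  · simp only [lintegral_zero] at h
    exact h
  · filter_upwards [ae_finite p hG.inv hth] with ω hω
    have hne : ((cluster G ω 1).encard : ℝ≥0∞) ≠ ⊤ := by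
      rw [encard_eq]
      have : cl G ω 1 ≠ ∅ := by
        intro h
        have h2 : (1 : Γ) ∈ cl G ω 1 := (mem_cl_of_finite (hω 1)).2 self_mem_cluster
        rw [h] at h2
        simp at h2
      simp [this]
    have h1 : Tendsto (fun m : ℕ => ((cluster G ω 1).encard : ℝ≥0∞) / m) atTop (𝓝 0) := by
      have := ENNReal.Tendsto.const_mul (a := ((cluster G ω 1).encard : ℝ≥0∞))
        ENNReal.tendsto_inv_nat_nhds_zero (Or.inr hne)
      rw [mul_zero] at this
      simpa only [div_eq_mul_inv] using this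
    exact tendsto_of_tendsto_of_tendsto_of_le_of_le tendsto_const_nhds h1 (fun _ => bot_le)
      (fun _ => min_le_right _ _)

lemma emE_shift (hG : CayleyLike G) (p : unitInterval) (m : ℕ) (y : Γ) :
    ∫⁻ ω, min 1 (((cluster G ω y).encard : ℝ≥0∞) / m) ∂(perc Γ p) = emE G p m := by
  unfold emE
  rw [← lintegral_shift p y (measurable_minE m 1)]
  apply lintegral_congr
  intro ω
  have := encard_shift hG.inv y ω 1
  rw [mul_one] at this
  rw [this]

lemma ofReal_min_div (a m : ℕ) :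
    ENNReal.ofReal (min 1 ((a : ℝ) / m)) ≤ min 1 ((a : ℝ≥0∞) / m) := by
  rcases Nat.eq_zero_or_pos m with rfl | hm
  · rcases Nat.eq_zero_or_pos a with rfl | ha
    · simp
    · simp
  · rw [← ENNReal.ofReal_one, ← ENNReal.ofReal_natCast a, ← ENNReal.ofReal_natCast m,
      ← ENNReal.ofReal_div_of_pos (by exact_mod_cast hm)]
    refine le_min (ENNReal.ofReal_le_ofReal (min_le_left _ _))
      (ENNReal.ofReal_le_ofReal (min_le_right _ _))

lemma em_bound (hG : CayleyLike G) (p : unitInterval) {Λ : Finset (Sym2 Γ)}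
    (hΛ : ∀ e ∈ Λ, e ∈ G.edgeSet) (m : ℕ) (y : Γ) :
    H97.IIC.Ex (p : ℝ) Λ (fun ω => min 1 (((H97.IIC.cl ω y).card : ℝ) / m))
      ≤ (emE G p m).toReal := by
  have h0 : ∀ η : Finset (Sym2 Γ), 0 ≤ min (1 : ℝ) (((H97.IIC.cl η y).card : ℝ) / m) := fun η =>
    le_min zero_le_one (by positivity)
  have h1 := lintegral_res p Λ (fun ω => min 1 (((H97.IIC.cl ω y).card : ℝ) / m)) (fun η _ => h0 η)
  have hne : emE G p m ≠ ⊤ := ne_top_of_le_ne_top ENNReal.one_ne_top (emE_le_one p m)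
  rw [← ENNReal.ofReal_le_iff_le_toReal hne, ← h1, ← emE_shift hG p m y]
  apply lintegral_mono
  intro ω
  refine (ofReal_min_div _ _).trans ?_
  refine min_le_min le_rfl (ENNReal.div_le_div_right ?_ _)
  have := card_le_encard (G := G) hΛ ω y
  have h2 : (((H97.IIC.cl (res Λ ω) y).card : ℕ∞) : ℝ≥0∞) ≤ ((cluster G ω y).encard : ℝ≥0∞) := by
    exact_mod_cast this
  simpa using h2

lemma fT_le (p : unitInterval) (t : ℕ) : fT G p t ≤ t := by
  unfold fT
  calc _ ≤ ∫⁻ _, (t : ℝ≥0∞) ∂(perc Γ p) := by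
        apply lintegral_mono
        intro ω
        have : ((min (cluster G ω 1).encard (t : ℕ∞) : ℕ∞) : ℝ≥0∞) ≤ ((t : ℕ∞) : ℝ≥0∞) := by
          exact_mod_cast min_le_right _ _
        exact this
    _ = t := by simp

lemma fT_bound (hG : CayleyLike G) (p : unitInterval) {n N : ℕ} (hN : 2 * n ≤ N)
    {Λ : Finset (Sym2 Γ)} {o b : Γ} (hΛ : ∀ e, e ∈ Λ ↔ e ∈ inBall G N o)
    (hb : G.dist o b ≤ n) :
    (fT G p n).toReal ≤ H97.IIC.Ex (p : ℝ) Λ (fun η => min ((H97.IIC.cl η b).card : ℝ) n) := by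
  have h0 : ∀ η : Finset (Sym2 Γ), 0 ≤ min ((H97.IIC.cl η b).card : ℝ) n := fun η =>
    le_min (by positivity) (by positivity)
  have h1 := lintegral_res p Λ (fun η => min ((H97.IIC.cl η b).card : ℝ) n) (fun η _ => h0 η)
  have hEx : 0 ≤ H97.IIC.Ex (p : ℝ) Λ (fun η => min ((H97.IIC.cl η b).card : ℝ) n) :=
    H97.IIC.Ex_nonneg p.2.1 p.2.2 (fun η _ => h0 η)
  refine ENNReal.toReal_le_of_le_ofReal hEx ?_
  rw [← h1]
  have hmeas : Measurable (fun ω : Sym2 Γ → Bool =>
      ((min (cluster G ω 1).encard (n : ℕ∞) : ℕ∞) : ℝ≥0∞)) := by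
    have : (fun ω : Sym2 Γ → Bool => ((min (cluster G ω 1).encard (n : ℕ∞) : ℕ∞) : ℝ≥0∞))
        = fun ω => min ((cluster G ω 1).encard : ℝ≥0∞) (n : ℝ≥0∞) := by
      funext ω
      rcases le_total (cluster G ω 1).encard (n : ℕ∞) with h | h
      · rw [min_eq_left h, min_eq_left]
        have : ((cluster G ω 1).encard : ℝ≥0∞) ≤ ((n : ℕ∞) : ℝ≥0∞) := by exact_mod_cast h
        simpa using this
      · rw [min_eq_right h, min_eq_right]
        · simp
        · have : ((n : ℕ∞) : ℝ≥0∞) ≤ ((cluster G ω 1).encard : ℝ≥0∞) := by exact_mod_cast h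
          simpa using this
    rw [this]
    exact (measurable_encard 1).min measurable_const
  unfold fT
  rw [← lintegral_shift p b hmeas]
  apply lintegral_mono
  intro ω
  have h2 := encard_shift hG.inv b ω 1
  rw [mul_one] at h2
  beta_reduce
  rw [← h2]
  have h3 := min_encard_le hG.conn hN hΛ hb ω
  have h4 : ((min (cluster G ω b).encard (n : ℕ∞) : ℕ∞) : ℝ≥0∞)
      ≤ (((min (H97.IIC.cl (res Λ ω) b).card n : ℕ) : ℕ∞) : ℝ≥0∞) := by
    exact_mod_cast h3
  refine h4.trans ?_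
  rw [← Nat.cast_min, ENNReal.ofReal_natCast]
  simp

lemma thetaN_eq (hG : CayleyLike G) (p : unitInterval) {n N : ℕ} (hN : n ≤ N)
    {Λ : Finset (Sym2 Γ)} (hΛ : ∀ e, e ∈ Λ ↔ e ∈ inBall G N 1) :
    thetaN G p n = ENNReal.ofReal (H97.IIC.PH (p : ℝ) Λ 1 (far' G n 1)) := by
  unfold thetaN
  rw [← lintegral_indicator_one (measurableSet_Reach n 1)]
  have h1 := lintegral_res p Λ (fun ω => H97.IIC.ind (H97.IIC.Hit ω 1 (far' G n 1)))
    (fun η _ => H97.IIC.ind_nonneg _)
  unfold H97.IIC.PH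
  rw [← h1]
  apply lintegral_congr
  intro ω
  have := reach_iff hG.conn hN hΛ ω
  by_cases h : Reach G n ω 1
  · rw [Set.indicator_of_mem (show ω ∈ {ω : Sym2 Γ → Bool | Reach G n ω 1} from h),
      H97.IIC.ind_true (this.1 h)]
    simp
  · rw [Set.indicator_of_notMem (show ω ∉ {ω : Sym2 Γ → Bool | Reach G n ω 1} from h),
      H97.IIC.ind_false (fun h' => h (this.2 h'))]
    simp

lemma piv_le (hG : CayleyLike G) {n N : ℕ} (hN : n ≤ N)
    {Λ : Finset (Sym2 Γ)} (hΛ : ∀ e, e ∈ Λ ↔ e ∈ inBall G N 1) (ω : Sym2 Γ → Bool) :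
    ((piv G n ω 1).ncard : ℝ≥0∞) / ((cluster G ω 1).encard : ℝ≥0∞)
      ≤ ENNReal.ofReal (H97.IIC.ind (H97.IIC.Hit (res Λ ω) 1 (far' G n 1)) *
        (H97.IIC.npiv (res Λ ω) 1 (far' G n 1) / (H97.IIC.cl (res Λ ω) 1).card)) := by
  have hΛe : ∀ e ∈ Λ, e ∈ G.edgeSet := by
    intro e he
    obtain ⟨a, b, h1, _, _, rfl⟩ := (hΛ e).1 he
    exact h1
  have hr := fun ω => reach_iff hG.conn hN hΛ ω
  by_cases h : Reach G n ω 1
  · rw [H97.IIC.ind_true ((hr ω).1 h), one_mul]
    have hsub : piv G n ω 1 ⊆ (((res Λ ω).filter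
        (fun e => ¬ H97.IIC.Hit ((res Λ ω).erase e) 1 (far' G n 1)) : Finset (Sym2 Γ)) :
        Set (Sym2 Γ)) := by
      rintro e ⟨he, _, hn⟩
      rw [Finset.mem_coe, Finset.mem_filter]
      have hn' : ¬ H97.IIC.Hit ((res Λ ω).erase e) 1 (far' G n 1) := by
        rw [← res_off, ← hr]
        exact hn
      refine ⟨?_, hn'⟩
      by_contra hc
      apply hn'
      rw [Finset.erase_eq_of_notMem hc]
      exact (hr ω).1 h
    have h1 : (piv G n ω 1).ncard ≤ H97.IIC.npiv (res Λ ω) 1 (far' G n 1) := by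
      have := Set.ncard_le_ncard hsub (Finset.finite_toSet _)
      rw [Set.ncard_coe_finset] at this
      exact this
    have h2 : ((H97.IIC.cl (res Λ ω) 1).card : ℝ≥0∞) ≤ ((cluster G ω 1).encard : ℝ≥0∞) := by
      have := card_le_encard (G := G) hΛe ω 1
      have h2 : (((H97.IIC.cl (res Λ ω) 1).card : ℕ∞) : ℝ≥0∞)
          ≤ ((cluster G ω 1).encard : ℝ≥0∞) := by
        exact_mod_cast this
      simpa using h2
    have hpos : 0 < (H97.IIC.cl (res Λ ω) 1).card := H97.IIC.cl_pos _ _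
    rw [ENNReal.ofReal_div_of_pos (by exact_mod_cast hpos), ENNReal.ofReal_natCast,
      ENNReal.ofReal_natCast]
    exact ENNReal.div_le_div (by exact_mod_cast h1) h2
  · have : piv G n ω 1 = ∅ := by
      ext e
      simp only [Set.mem_empty_iff_false, iff_false]
      rintro ⟨_, h', _⟩
      exact h h'
    rw [this]
    simp

lemma pivRatio_le (hG : CayleyLike G) (p : unitInterval) {n N : ℕ} (hN : n ≤ N)
    {Λ : Finset (Sym2 Γ)} (hΛ : ∀ e, e ∈ Λ ↔ e ∈ inBall G N 1) :
    pivRatio G p n ≤ ENNReal.ofReal (H97.IIC.Ex (p : ℝ) Λ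
      (fun η => H97.IIC.ind (H97.IIC.Hit η 1 (far' G n 1)) *
        (H97.IIC.npiv η 1 (far' G n 1) / (H97.IIC.cl η 1).card))) := by
  have h1 := lintegral_res p Λ (fun η => H97.IIC.ind (H97.IIC.Hit η 1 (far' G n 1)) *
        (H97.IIC.npiv η 1 (far' G n 1) / (H97.IIC.cl η 1).card))
    (fun η _ => mul_nonneg (H97.IIC.ind_nonneg _) (by positivity))
  rw [← h1]
  exact lintegral_mono (fun ω => piv_le hG hN hΛ ω)

lemma log_growth {c : ℝ} (hc : 0 < c) (K : ℝ) :
    ∀ᶠ n : ℕ in atTop, K * (Real.log n) ^ 2 ≤ c * Real.sqrt n := by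
  have h1 : (fun x : ℝ => Real.log x ^ 2) =o[atTop] fun x : ℝ => x ^ ((1 : ℝ) / 2) := by
    have := isLittleO_log_rpow_atTop (r := (1 : ℝ) / 4) (by norm_num)
    have h2 := this.pow (n := 2) (by norm_num)
    refine h2.congr' (EventuallyEq.refl _ _) ?_
    filter_upwards [eventually_ge_atTop (0 : ℝ)] with x hx
    rw [← Real.rpow_natCast, ← Real.rpow_mul hx]
    norm_num
  have h2 := (h1.const_mul_left K).bound hc
  have h3 : ∀ᶠ n : ℕ in atTop, ‖K * Real.log (n : ℝ) ^ 2‖ ≤ c * ‖((n : ℝ)) ^ ((1 : ℝ) / 2)‖ :=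
    tendsto_natCast_atTop_atTop.eventually h2
  filter_upwards [h3] with n hn
  refine (le_abs_self _).trans ?_
  rw [Real.norm_eq_abs] at hn
  refine hn.trans ?_
  rw [Real.norm_eq_abs, abs_of_nonneg (by positivity), Real.sqrt_eq_rpow]

/-- **Lemma A** in the form used by the joint proof. -/
theorem pivStatement [Infinite Γ] (hG : CayleyLike G) (p : unitInterval) : PivStatement G p := by
  intro hp0 hp1 hth hf
  obtain ⟨c, hc, hfc⟩ := hf
  have hp0' : (0 : ℝ) < p := lt_of_le_of_ne p.2.1 (Ne.symm hp0)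
  have hp1' : (p : ℝ) < 1 := lt_of_le_of_ne p.2.2 hp1
  have hem : Tendsto (fun m => (emE G p m).toReal) atTop (𝓝 0) := by
    have := (ENNReal.tendsto_toReal ENNReal.zero_ne_top).comp (emE_tendsto hG p hth)
    rw [ENNReal.toReal_zero] at this
    exact this
  have hF : ∀ K : ℝ, ∀ᶠ n : ℕ in atTop, K * (Real.log n) ^ 2 ≤ (fT G p n).toReal := by
    intro K
    filter_upwards [log_growth hc K] with n hn
    refine hn.trans ?_
    have hne : fT G p n ≠ ⊤ := ne_top_of_le_ne_top (ENNReal.natCast_ne_top n) (fT_le p n)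
    exact (ENNReal.ofReal_le_iff_le_toReal hne).1 (hfc n)
  rw [ENNReal.tendsto_nhds_zero]
  intro ε hε
  obtain ⟨ε₀, hε₀, hε₀'⟩ : ∃ ε₀ : ℝ, 0 < ε₀ ∧ ENNReal.ofReal ε₀ ≤ ε := by
    refine ⟨(min ε 1).toReal, ENNReal.toReal_pos (by simp [hε.ne']) (by simp), ?_⟩
    rw [ENNReal.ofReal_toReal (by simp)]
    exact min_le_left _ _
  filter_upwards [H97.IIC.lemmaA_finite (V := Γ) hp0' hp1' (hG.fin 1).toFinset.card
    (fun m => (emE G p m).toReal) hem (fun n => (fT G p n).toReal) hF hε₀] with n hn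
  set Λ := (inBall_finite hG.conn hG.fin (2 * n) (1 : Γ)).toFinset with hΛdef
  have hΛ : ∀ e, e ∈ Λ ↔ e ∈ inBall G (2 * n) 1 := by
    intro e
    rw [hΛdef, Set.Finite.mem_toFinset]
  have hΛe : ∀ e ∈ Λ, e ∈ G.edgeSet := by
    intro e he
    obtain ⟨a, b, h1, _, _, rfl⟩ := (hΛ e).1 he
    exact h1
  have hmain := hn Λ 1 (far' G n 1) (deg_inBall hG hΛe)
    (fun m _ H' hH' y => em_bound hG p (fun e he => hΛe e (hH' he)) m y) ?_ ?_ ?_
  · have hth1 := thetaN_eq hG p (by omega : n ≤ 2 * n) hΛ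
    have hpr := pivRatio_le hG p (by omega : n ≤ 2 * n) hΛ
    have h3 := hpr.trans (ENNReal.ofReal_le_ofReal hmain)
    rw [ENNReal.ofReal_mul hε₀.le, ← hth1] at h3
    calc (thetaN G p n)⁻¹ * pivRatio G p n
        ≤ (thetaN G p n)⁻¹ * (ENNReal.ofReal ε₀ * thetaN G p n) := by gcongr
      _ = ENNReal.ofReal ε₀ * ((thetaN G p n)⁻¹ * thetaN G p n) := by ring
      _ ≤ ENNReal.ofReal ε₀ * 1 := by gcongr; exact ENNReal.inv_mul_le_one _
      _ ≤ ε := by rw [mul_one]; exact hε₀'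
  · intro a b hab ha
    have ha' : G.dist 1 a < n := by
      by_contra hc'
      exact ha (not_lt.1 hc')
    have hadj : G.Adj a b := hΛe _ hab
    have := dist_step hG.conn (o := 1) hadj
    exact fT_bound hG p (le_refl (2 * n)) hΛ (by omega)
  · intro ω hω hhit
    obtain ⟨y, hy, hd⟩ := hhit
    have h1 := dist_lt_card' (G := G) (fun e he => hΛe e (hω he)) hy
    have h2 : n ≤ G.dist 1 y := hd
    omega
  · obtain ⟨z, hz⟩ := exists_dist_eq hG.conn hG.fin (1 : Γ) n
    obtain ⟨ξ, hξ, hcard, hhit⟩ := path_event hG.conn (by omega : n ≤ 2 * n) hΛ hz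
    have h1 := H97.IIC.Ex_superset (p := (p : ℝ)) hξ
    calc (p : ℝ) ^ n ≤ (p : ℝ) ^ ξ.card := pow_le_pow_of_le_one hp0'.le hp1'.le hcard
      _ = _ := h1.symm
      _ ≤ _ := by
        unfold H97.IIC.PH
        exact H97.IIC.Ex_mono hp0'.le hp1'.le (fun η _ => H97.IIC.ind_mono (hhit η))

end grp

end Pool.Agent.H97.Bridge
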