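import Pool.Agent.H97.IIC.LP

/-!
# The deterministic inequality (A6)
-/

open Finset
open scoped Classical

namespace H97.IIC

noncomputable section

variable {V : Type*}

/-- expected sizes of the fresh clusters hanging off `U ⊆ C`. -/
def RR (p : ℝ) (H : Finset (Sym2 V)) (T : Set V) (C U : Finset V) (t : ℝ) : ℝ :=
  ∑ e ∈ (bd H C).filter (fun e => e.1 ∈ U),
    Ex p (off H C) (fun η => min (#(cl η e.2) : ℝ) t * ind (¬ Hit η e.2 T))

lemma cl_sub_of_mem {ζ η : Finset (Sym2 V)} (h : ζ ⊆ η) {b y z : V} (hz : z ∈ cl η b)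
    (hz' : z ∈ cl ζ y) : cl ζ y ⊆ cl η b := by
  have h1 : cl η z = cl η b := cl_eq_of_mem hz
  have h2 : z ∈ cl η y := cl_mono h y hz'
  have h3 : cl η z = cl η y := cl_eq_of_mem h2
  rw [← h1, h3]
  exact cl_mono h y

section path

variable {H η : Finset (Sym2 V)} {T : Set V} {b : V}

lemma pathC {L : Finset V} {a : V} (hη : η ⊆ H) (hLT : ∀ y ∈ L, y ∉ T) (ha : a ∈ L)
    (hb : b ∉ L) (hab : s(a, b) ∈ H) :
    ind (Hit η b T) ≤ ∑ e ∈ bd H L, ind (Hit (η ∩ off H L) e.2 T) := by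
  by_contra hcon
  push Not at hcon
  have hh : Hit η b T := by
    by_contra h
    rw [ind_false h] at hcon
    exact absurd hcon (not_lt.2 (Finset.sum_nonneg fun _ _ => ind_nonneg _))
  rw [ind_true hh] at hcon
  have hno : ∀ e ∈ bd H L, ¬ Hit (η ∩ off H L) e.2 T := by
    intro e he h
    have h1 : ind (Hit (η ∩ off H L) e.2 T) ≤ ∑ e ∈ bd H L, ind (Hit (η ∩ off H L) e.2 T) :=
      Finset.single_le_sum (f := fun e : V × V => ind (Hit (η ∩ off H L) e.2 T))
        (fun _ _ => ind_nonneg _) he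
    rw [ind_true h] at h1
    linarith
  have key : ∀ z, Conn η b z → z ∈ L ∨ ∃ e ∈ bd H L, z ∉ L ∧ z ∈ cl (η ∩ off H L) e.2 := by
    intro z hz
    induction hz with
    | refl => exact Or.inr ⟨(a, b), mem_bd.2 ⟨ha, hb, hab⟩, hb, self_mem_cl _ _⟩
    | @tail z z' h1 h2 ih =>
      by_cases hz' : z' ∈ L
      · exact Or.inl hz'
      right
      rcases ih with hz | ⟨e, he, hz, hze⟩
      · exact ⟨(z, z'), mem_bd.2 ⟨hz, hz', hη h2⟩, hz', self_mem_cl _ _⟩
      · refine ⟨e, he, hz', ?_⟩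
        rw [mem_cl] at hze ⊢
        refine hze.tail (mem_inter.2 ⟨h2, mem_off.2 ⟨hη h2, ?_⟩⟩)
        intro v hv hve
        rw [Sym2.mem_iff] at hve
        rcases hve with rfl | rfl
        · exact hz hv
        · exact hz' hv
  obtain ⟨y, hy, hT⟩ := hh
  rw [mem_cl] at hy
  rcases key y hy with h | ⟨e, he, _, h⟩
  · exact hLT y h hT
  · exact hno e he ⟨y, h, hT⟩

/-- integrand of `T2` -/
def T2i (H : Finset (Sym2 V)) (T : Set V) (L R : Finset V) (η : Finset (Sym2 V)) : ℝ :=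
  T2a H L R + ∑ e ∈ bd H L, ∑ f ∈ dt (off H L), ind (f.2 ∈ R) * (ind (e.2 ∉ R) *
    (ind (f.1 ∉ R) * (ind (f.1 ∈ cl (η ∩ off (off H L) R) e.2) *
      ind (¬ Hit (η ∩ off (off H L) R) e.2 T))))

lemma Ex_T2i (p : ℝ) (H : Finset (Sym2 V)) (T : Set V) (L R : Finset V) :
    Ex p H (fun η => T2i H T L R η) = T2 p H T L R := by
  rw [T2, T2b]
  simp only [T2i]
  rw [Ex_add, Ex_const, Ex_sum]
  congr 1
  refine Finset.sum_congr rfl fun e _ => ?_
  rw [Ex_sum]
  refine Finset.sum_congr rfl fun f _ => ?_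
  rw [Th, Ex_mul_left, Ex_mul_left, Ex_mul_left]
  congr 3
  exact Ex_inter ((off_subset _ _).trans (off_subset _ _))
    (fun ζ => ind (f.1 ∈ cl ζ e.2) * ind (¬ Hit ζ e.2 T))

lemma T2i_nonneg (H : Finset (Sym2 V)) (T : Set V) (L R : Finset V) (η : Finset (Sym2 V)) :
    0 ≤ T2i H T L R η := by
  apply add_nonneg (T2a_nonneg _ _ _)
  refine Finset.sum_nonneg fun e _ => Finset.sum_nonneg fun f _ => ?_
  exact mul_nonneg (ind_nonneg _) (mul_nonneg (ind_nonneg _) (mul_nonneg (ind_nonneg _)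
    (mul_nonneg (ind_nonneg _) (ind_nonneg _))))

lemma T2i_lt_one {L R : Finset V} (h : T2i H T L R η < 1) :
    (∀ e ∈ bd H L, e.2 ∉ R) ∧ ∀ e ∈ bd H L, ∀ f ∈ dt (off H L), f.2 ∈ R → e.2 ∉ R → f.1 ∉ R →
      f.1 ∈ cl (η ∩ off (off H L) R) e.2 → Hit (η ∩ off (off H L) R) e.2 T := by
  have hb : 0 ≤ ∑ e ∈ bd H L, ∑ f ∈ dt (off H L), ind (f.2 ∈ R) * (ind (e.2 ∉ R) *
    (ind (f.1 ∉ R) * (ind (f.1 ∈ cl (η ∩ off (off H L) R) e.2) *
      ind (¬ Hit (η ∩ off (off H L) R) e.2 T)))) := by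
    refine Finset.sum_nonneg fun e _ => Finset.sum_nonneg fun f _ => ?_
    exact mul_nonneg (ind_nonneg _) (mul_nonneg (ind_nonneg _) (mul_nonneg (ind_nonneg _)
      (mul_nonneg (ind_nonneg _) (ind_nonneg _))))
  constructor
  · intro e he hR
    have h1 : ind (e.2 ∈ R) ≤ T2a H L R :=
      Finset.single_le_sum (f := fun e : V × V => ind (e.2 ∈ R)) (fun _ _ => ind_nonneg _) he
    rw [ind_true hR] at h1
    rw [T2i] at h
    linarith
  · intro e he f hf h1 h2 h3 h4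
    by_contra h5
    have h6 : ind (f.2 ∈ R) * (ind (e.2 ∉ R) *
    (ind (f.1 ∉ R) * (ind (f.1 ∈ cl (η ∩ off (off H L) R) e.2) *
      ind (¬ Hit (η ∩ off (off H L) R) e.2 T)))) ≤
      ∑ f ∈ dt (off H L), ind (f.2 ∈ R) * (ind (e.2 ∉ R) *
    (ind (f.1 ∉ R) * (ind (f.1 ∈ cl (η ∩ off (off H L) R) e.2) *
      ind (¬ Hit (η ∩ off (off H L) R) e.2 T)))) :=
      Finset.single_le_sum (f := fun f : V × V => ind (f.2 ∈ R) * (ind (e.2 ∉ R) *
    (ind (f.1 ∉ R) * (ind (f.1 ∈ cl (η ∩ off (off H L) R) e.2) *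
      ind (¬ Hit (η ∩ off (off H L) R) e.2 T))))) (fun f _ =>
      mul_nonneg (ind_nonneg _) (mul_nonneg (ind_nonneg _) (mul_nonneg (ind_nonneg _)
      (mul_nonneg (ind_nonneg _) (ind_nonneg _))))) hf
    have h7 := Finset.single_le_sum (f := fun e : V × V => ∑ f ∈ dt (off H L),
      ind (f.2 ∈ R) * (ind (e.2 ∉ R) *
    (ind (f.1 ∉ R) * (ind (f.1 ∈ cl (η ∩ off (off H L) R) e.2) *
      ind (¬ Hit (η ∩ off (off H L) R) e.2 T))))) (fun e _ => Finset.sum_nonneg fun f _ =>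
      mul_nonneg (ind_nonneg _) (mul_nonneg (ind_nonneg _) (mul_nonneg (ind_nonneg _)
      (mul_nonneg (ind_nonneg _) (ind_nonneg _))))) he
    have h6' : ind (f.2 ∈ R) * (ind (e.2 ∉ R) *
    (ind (f.1 ∉ R) * (ind (f.1 ∈ cl (η ∩ off (off H L) R) e.2) *
      ind (¬ Hit (η ∩ off (off H L) R) e.2 T)))) = 1 := by
      rw [ind_true h1, ind_true h2, ind_true h3, ind_true h4,
        ind_true (P := ¬ Hit _ _ _) h5]
      norm_num
    have h8 := T2a_nonneg H L R
    rw [T2i] at h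
    linarith

/-- a connection from `b ∈ R` to `L` -/
lemma pathA {L R : Finset V} (hη : η ⊆ H) (hbR : b ∈ R) (hbL : b ∉ L) :
    ind (¬ Disjoint (cl η b) L ∧ ¬ Hit η b T) ≤ T2i H T L R η := by
  by_contra hcon
  push Not at hcon
  have hh : ¬ Disjoint (cl η b) L ∧ ¬ Hit η b T := by
    by_contra h
    rw [ind_false h] at hcon
    exact absurd hcon (not_lt.2 (T2i_nonneg _ _ _ _ _))
  rw [ind_true hh] at hcon
  obtain ⟨hd, hno⟩ := T2i_lt_one hcon
  apply hh.1
  rw [Finset.disjoint_left]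
  intro y hy
  have key : ∀ z, Conn η b z → z ∉ L ∧ (z ∈ R ∨ (z ∉ R ∧ ∃ f ∈ dt (off H L), f.2 ∈ R ∧ f.1 ∉ R ∧
      z ∈ cl (η ∩ off (off H L) R) f.1)) := by
    intro z hz
    induction hz with
    | refl => exact ⟨hbL, Or.inl hbR⟩
    | @tail z z' h1 h2 ih =>
      have hz1 : z ∈ cl η b := mem_cl.2 h1
      have h2' : s(z', z) ∈ η := by rw [Sym2.eq_swap]; exact h2
      rcases ih with ⟨hzL, hz | ⟨hzR, f, hf, hf2, hf1, hzf⟩⟩
      · have hz'L : z' ∉ L := fun h => hd (z', z) (mem_bd.2 ⟨h, hzL, hη h2'⟩) hz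
        refine ⟨hz'L, ?_⟩
        by_cases hz'R : z' ∈ R
        · exact Or.inl hz'R
        · refine Or.inr ⟨hz'R, (z', z), mem_dt.2 (mem_off.2 ⟨hη h2', ?_⟩), hz, hz'R,
            self_mem_cl _ _⟩
          intro v hv hve
          rw [Sym2.mem_iff] at hve
          rcases hve with rfl | rfl
          · exact hz'L hv
          · exact hzL hv
      · have hz'L : z' ∉ L := by
          intro h
          have h3 := hno (z', z) (mem_bd.2 ⟨h, hzL, hη h2'⟩) f hf hf2 hzR hf1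
            (mem_cl_comm.1 hzf)
          obtain ⟨y, hy, hT⟩ := h3
          exact hh.2 ⟨y, cl_sub_of_mem inter_subset_left hz1 (self_mem_cl _ _) hy, hT⟩
        refine ⟨hz'L, ?_⟩
        by_cases hz'R : z' ∈ R
        · exact Or.inl hz'R
        · refine Or.inr ⟨hz'R, f, hf, hf2, hf1, ?_⟩
          rw [mem_cl] at hzf ⊢
          refine hzf.tail (mem_inter.2 ⟨h2, mem_off.2 ⟨mem_off.2 ⟨hη h2, ?_⟩, ?_⟩⟩)
          · intro v hv hve
            rw [Sym2.mem_iff] at hve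
            rcases hve with rfl | rfl
            · exact hzL hv
            · exact hz'L hv
          · intro v hv hve
            rw [Sym2.mem_iff] at hve
            rcases hve with rfl | rfl
            · exact hzR hv
            · exact hz'R hv
  exact (key y (mem_cl.1 hy)).1

/-- a connection from a neighbour `b` of `L` to `R` -/
lemma pathB {L R : Finset V} {a : V} (hη : η ⊆ H) (ha : a ∈ L) (hbL : b ∉ L) (hbR : b ∉ R)
    (hab : s(a, b) ∈ H) (hLR : Disjoint L R) :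
    ind (¬ Disjoint (cl η b) R ∧ ¬ Hit η b T) ≤ T2i H T L R η := by
  by_contra hcon
  push Not at hcon
  have hh : ¬ Disjoint (cl η b) R ∧ ¬ Hit η b T := by
    by_contra h
    rw [ind_false h] at hcon
    exact absurd hcon (not_lt.2 (T2i_nonneg _ _ _ _ _))
  rw [ind_true hh] at hcon
  obtain ⟨hd, hno⟩ := T2i_lt_one hcon
  apply hh.1
  rw [Finset.disjoint_left]
  intro y hy
  have key : ∀ z, Conn η b z → z ∉ R ∧ (z ∈ L ∨ (z ∉ L ∧ ∃ e ∈ bd H L, e.2 ∉ R ∧
      z ∈ cl (η ∩ off (off H L) R) e.2)) := by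
    intro z hz
    induction hz with
    | refl => exact ⟨hbR, Or.inr ⟨hbL, (a, b), mem_bd.2 ⟨ha, hbL, hab⟩, hbR, self_mem_cl _ _⟩⟩
    | @tail z z' h1 h2 ih =>
      have hz1 : z ∈ cl η b := mem_cl.2 h1
      rcases ih with ⟨hzR, hz | ⟨hzL, e, he, he2, hze⟩⟩
      · have hz'R : z' ∉ R := by
          intro h
          have h3 : z' ∉ L := fun h' => (Finset.disjoint_left.1 hLR h') h
          exact hd (z, z') (mem_bd.2 ⟨hz, h3, hη h2⟩) h
        refine ⟨hz'R, ?_⟩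
        by_cases hz'L : z' ∈ L
        · exact Or.inl hz'L
        · exact Or.inr ⟨hz'L, (z, z'), mem_bd.2 ⟨hz, hz'L, hη h2⟩, hz'R, self_mem_cl _ _⟩
      · have hz'R : z' ∉ R := by
          intro h
          have h3 : z' ∉ L := fun h' => (Finset.disjoint_left.1 hLR h') h
          have h4 : s(z, z') ∈ off H L := by
            refine mem_off.2 ⟨hη h2, ?_⟩
            intro v hv hve
            rw [Sym2.mem_iff] at hve
            rcases hve with rfl | rfl
            · exact hzL hv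
            · exact h3 hv
          obtain ⟨y, hy, hT⟩ := hno e he (z, z') (mem_dt.2 h4) h he2 hzR hze
          exact hh.2 ⟨y, cl_sub_of_mem inter_subset_left hz1 hze hy, hT⟩
        refine ⟨hz'R, ?_⟩
        by_cases hz'L : z' ∈ L
        · exact Or.inl hz'L
        · refine Or.inr ⟨hz'L, e, he, he2, ?_⟩
          rw [mem_cl] at hze ⊢
          refine hze.tail (mem_inter.2 ⟨h2, mem_off.2 ⟨mem_off.2 ⟨hη h2, ?_⟩, ?_⟩⟩)
          · intro v hv hve
            rw [Sym2.mem_iff] at hve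
            rcases hve with rfl | rfl
            · exact hzL hv
            · exact hz'L hv
          · intro v hv hve
            rw [Sym2.mem_iff] at hve
            rcases hve with rfl | rfl
            · exact hzR hv
            · exact hz'R hv
  exact (key y (mem_cl.1 hy)).1

/-- decomposition of a fresh cluster which does not leave the window. -/
lemma cl_sub_window {C U : Finset V} (hη : η ⊆ H) (hbU : b ∈ U) (hUC : U ⊆ C)
    (hK : ∀ z ∈ cl η b, z ∈ C → z ∈ U) :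
    cl η b ⊆ U ∪ ((bd H C).filter (fun e => e.1 ∈ U ∧ e.2 ∈ cl η b)).biUnion
      (fun e => cl (η ∩ off H C) e.2) := by
  intro y hy
  have key : ∀ z, Conn η b z → z ∈ U ∨ (z ∉ C ∧ ∃ e ∈ bd H C, (e.1 ∈ U ∧ e.2 ∈ cl η b) ∧
      z ∈ cl (η ∩ off H C) e.2) := by
    intro z hz
    induction hz with
    | refl => exact Or.inl hbU
    | @tail z z' h1 h2 ih =>
      have hz1 : z ∈ cl η b := mem_cl.2 h1
      have hz1' : z' ∈ cl η b := mem_cl.2 (h1.tail h2)
      by_cases hzC : z' ∈ C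
      · exact Or.inl (hK z' hz1' hzC)
      by_cases hz : z ∈ C
      · exact Or.inr ⟨hzC, (z, z'), mem_bd.2 ⟨hz, hzC, hη h2⟩, ⟨hK z hz1 hz, hz1'⟩,
          self_mem_cl _ _⟩
      · rcases ih with h | ⟨_, e, he, heU, hze⟩
        · exact absurd (hUC h) hz
        · refine Or.inr ⟨hzC, e, he, heU, ?_⟩
          rw [mem_cl] at hze ⊢
          refine hze.tail (mem_inter.2 ⟨h2, mem_off.2 ⟨hη h2, ?_⟩⟩)
          intro v hv hve
          rw [Sym2.mem_iff] at hve
          rcases hve with rfl | rfl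
          · exact hz hv
          · exact hzC hv
  rw [mem_union, mem_biUnion]
  rcases key y (mem_cl.1 hy) with h | ⟨_, e, he, heU, h⟩
  · exact Or.inl h
  · exact Or.inr ⟨e, mem_filter.2 ⟨he, heU⟩, h⟩

lemma min_sum_le {ι : Type*} (s : Finset ι) (f : ι → ℝ) (t : ℝ) (ht : 0 ≤ t)
    (hf : ∀ i, 0 ≤ f i) : min (∑ i ∈ s, f i) t ≤ ∑ i ∈ s, min (f i) t := by
  induction s using Finset.induction_on with
  | empty => simp
  | insert a s ha ih =>
    rw [sum_insert ha, sum_insert ha]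
    have h1 : 0 ≤ ∑ i ∈ s, f i := Finset.sum_nonneg fun i _ => hf i
    have h2 : min (f a + ∑ i ∈ s, f i) t ≤ min (f a) t + min (∑ i ∈ s, f i) t := by
      rcases le_total (f a) t with h | h
      · rcases le_total (∑ i ∈ s, f i) t with h' | h'
        · rw [min_eq_left h, min_eq_left h']; exact min_le_left _ _
        · rw [min_eq_left h, min_eq_right h']
          exact (min_le_right _ _).trans (by linarith [hf a])
      · rw [min_eq_right h]
        exact (min_le_right _ _).trans (by linarith [le_min h1 ht])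
    linarith

/-- pointwise bound for a fresh cluster which does not leave the window -/
lemma min_cl_le {C U : Finset V} {t : ℝ} (ht : 0 ≤ t) (hη : η ⊆ H) (hbU : b ∈ U) (hUC : U ⊆ C)
    (hK : ∀ z ∈ cl η b, z ∈ C → z ∈ U) (hT : ¬ Hit η b T) :
    min (#(cl η b) : ℝ) t ≤ #U + ∑ e ∈ (bd H C).filter (fun e => e.1 ∈ U),
      min (#(cl (η ∩ off H C) e.2) : ℝ) t * ind (¬ Hit (η ∩ off H C) e.2 T) := by
  have h1 := card_le_card (cl_sub_window hη hbU hUC hK)
  have h2 : (#(cl η b) : ℝ) ≤ #U +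
      ∑ e ∈ (bd H C).filter (fun e => e.1 ∈ U ∧ e.2 ∈ cl η b), (#(cl (η ∩ off H C) e.2) : ℝ) := by
    have h3 := h1.trans ((card_union_le _ _).trans (Nat.add_le_add_left card_biUnion_le _))
    exact_mod_cast h3
  have hU : (0 : ℝ) ≤ #U := Nat.cast_nonneg _
  have h4 : min (#(cl η b) : ℝ) t ≤ #U + min (∑ e ∈ (bd H C).filter
      (fun e => e.1 ∈ U ∧ e.2 ∈ cl η b), (#(cl (η ∩ off H C) e.2) : ℝ)) t := by
    rw [← min_add_add_left]
    exact min_le_min h2 (by linarith)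
  refine h4.trans (add_le_add le_rfl ?_)
  refine (min_sum_le _ _ t ht (fun e => Nat.cast_nonneg _)).trans ?_
  have hsub : (bd H C).filter (fun e => e.1 ∈ U ∧ e.2 ∈ cl η b)
      ⊆ (bd H C).filter (fun e => e.1 ∈ U) := by
    intro e he
    rw [mem_filter] at he ⊢
    exact ⟨he.1, he.2.1⟩
  refine le_trans ?_ (Finset.sum_le_sum_of_subset_of_nonneg hsub ?_)
  · refine Finset.sum_le_sum fun e he => ?_
    rw [mem_filter] at he
    have h5 : ¬ Hit (η ∩ off H C) e.2 T := by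
      rintro ⟨y, hy, hyT⟩
      exact hT ⟨y, cl_sub_of_mem inter_subset_left he.2.2 (self_mem_cl _ _) hy, hyT⟩
    rw [ind_true (P := ¬ Hit (η ∩ off H C) e.2 T) h5, mul_one]
  · intro e _ _
    exact mul_nonneg (le_min (Nat.cast_nonneg _) ht) (ind_nonneg _)

end path

/-- **(A6)** -/
theorem ineqA6 {p : ℝ} (hp0 : 0 ≤ p) (hp1 : p ≤ 1) {H : Finset (Sym2 V)} {T : Set V}
    {C U L1 L2 R1 R2 : Finset V} {a b : V} {t : ℝ} (ht : 0 ≤ t) (hbU : b ∈ U) (hUC : U ⊆ C)
    (hC : C ⊆ L1 ∪ (U ∪ R2)) (hL2T : ∀ y ∈ L2, y ∉ T) (ha : a ∈ L2) (hbL2 : b ∉ L2)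
    (hab : s(a, b) ∈ H) (hbR1 : b ∈ R1) (hbL1 : b ∉ L1) (hbR2 : b ∉ R2) (hLR : Disjoint L2 R2) :
    Ex p H (fun η => min (#(cl η b) : ℝ) t) ≤ #U + RR p H T C U t +
      t * (T2 p H T L1 R1 + T2 p H T L2 R2 + T1 p H T L2) := by
  have e1 : RR p H T C U t = Ex p H (fun η => ∑ e ∈ (bd H C).filter (fun e => e.1 ∈ U),
      min (#(cl (η ∩ off H C) e.2) : ℝ) t * ind (¬ Hit (η ∩ off H C) e.2 T)) := by
    rw [RR, Ex_sum]
    refine Finset.sum_congr rfl fun e _ => ?_
    exact (Ex_inter (off_subset _ _)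
      (fun η => min (#(cl η e.2) : ℝ) t * ind (¬ Hit η e.2 T))).symm
  have e2 : T1 p H T L2 = Ex p H (fun η => ∑ e ∈ bd H L2, ind (Hit (η ∩ off H L2) e.2 T)) := by
    rw [T1, Ex_sum]
    refine Finset.sum_congr rfl fun e _ => ?_
    exact (Ex_inter (off_subset _ _) (fun η => ind (Hit η e.2 T))).symm
  rw [e1, e2, ← Ex_T2i, ← Ex_T2i, ← Ex_add, ← Ex_add, ← Ex_mul_left]
  rw [← Ex_const p H (#U : ℝ), ← Ex_add, ← Ex_add]
  refine Ex_mono hp0 hp1 fun η hη => ?_
  have hA := T2i_nonneg H T L1 R1 η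
  have hB := T2i_nonneg H T L2 R2 η
  have hCn : 0 ≤ ∑ e ∈ bd H L2, ind (Hit (η ∩ off H L2) e.2 T) :=
    Finset.sum_nonneg fun _ _ => ind_nonneg _
  have hRn : 0 ≤ ∑ e ∈ (bd H C).filter (fun e => e.1 ∈ U),
      min (#(cl (η ∩ off H C) e.2) : ℝ) t * ind (¬ Hit (η ∩ off H C) e.2 T) :=
    Finset.sum_nonneg fun _ _ => mul_nonneg (le_min (Nat.cast_nonneg _) ht) (ind_nonneg _)
  have hUn : (0 : ℝ) ≤ #U := Nat.cast_nonneg _
  by_cases h1 : Hit η b T
  · have h2 := pathC (T := T) hη hL2T ha hbL2 hab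
    rw [ind_true h1] at h2
    have h3 : t * 1 ≤ t * (T2i H T L1 R1 η + T2i H T L2 R2 η +
      ∑ e ∈ bd H L2, ind (Hit (η ∩ off H L2) e.2 T)) := mul_le_mul_of_nonneg_left (by linarith) ht
    have h4 := min_le_right (#(cl η b) : ℝ) t
    linarith
  by_cases h2 : Disjoint (cl η b) L1
  swap
  · have h3 := pathA (T := T) (L := L1) (R := R1) hη hbR1 hbL1
    rw [ind_true ⟨h2, h1⟩] at h3
    have h4 : t * 1 ≤ t * (T2i H T L1 R1 η + T2i H T L2 R2 η +
      ∑ e ∈ bd H L2, ind (Hit (η ∩ off H L2) e.2 T)) := mul_le_mul_of_nonneg_left (by linarith) ht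
    have h5 := min_le_right (#(cl η b) : ℝ) t
    linarith
  by_cases h3 : Disjoint (cl η b) R2
  swap
  · have h4 := pathB (T := T) (L := L2) (R := R2) hη ha hbL2 hbR2 hab hLR
    rw [ind_true ⟨h3, h1⟩] at h4
    have h5 : t * 1 ≤ t * (T2i H T L1 R1 η + T2i H T L2 R2 η +
      ∑ e ∈ bd H L2, ind (Hit (η ∩ off H L2) e.2 T)) := mul_le_mul_of_nonneg_left (by linarith) ht
    have h6 := min_le_right (#(cl η b) : ℝ) t
    linarith
  have hK : ∀ z ∈ cl η b, z ∈ C → z ∈ U := by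
    intro z hz hzC
    have := hC hzC
    rw [mem_union, mem_union] at this
    rcases this with h | h | h
    · exact absurd h (Finset.disjoint_left.1 h2 hz)
    · exact h
    · exact absurd h (Finset.disjoint_left.1 h3 hz)
  have h4 := min_cl_le ht hη hbU hUC hK h1
  have h5 : 0 ≤ t * (T2i H T L1 R1 η + T2i H T L2 R2 η +
      ∑ e ∈ bd H L2, ind (Hit (η ∩ off H L2) e.2 T)) := by positivity
  linarith

end

end H97.IIC
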