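import Mathlib

/-!
# Counting lemmas for positions
-/

open Finset
open scoped Classical

namespace H97.IIC

variable {ι : Type*}

lemma count_left (P : Finset ι) (q : ι → ℕ) (m s K : ℕ) (hs : 0 < s)
    (hq : ∀ i ∈ P, q i ≤ m) (hinj : Set.InjOn q (P : Set ι)) :
    #(P.filter fun l => #(P.filter fun i => q i < q l ∧ q l ≤ q i + s) < K) ≤ K * (m / s + 1) := by
  set B := P.filter fun l => #(P.filter fun i => q i < q l ∧ q l ≤ q i + s) < K with hB
  have h1 : #B ≤ K * #(B.image fun l => q l / s) := by
    apply card_le_mul_card_image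
    intro c hc
    set F := B.filter fun l => q l / s = c with hF
    by_cases hne : F = ∅
    · rw [hne]; simp
    obtain ⟨l, hl, hmax⟩ := exists_max_image F q (nonempty_iff_ne_empty.2 hne)
    have hl' := hl
    rw [hF, mem_filter, hB, mem_filter] at hl'
    have hsub : F ⊆ insert l (P.filter fun i => q i < q l ∧ q l ≤ q i + s) := by
      intro i hi
      rw [mem_insert, mem_filter]
      by_cases hil : i = l
      · exact Or.inl hil
      right
      have h2 := hmax i hi
      rw [hF, mem_filter, hB, mem_filter] at hi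
      have h3 : q i ≠ q l := fun h => hil (hinj hi.1.1 hl'.1.1 h)
      refine ⟨hi.1.1, by omega, ?_⟩
      have h4 : q i / s = c := hi.2
      have h5 : q l / s = c := hl'.2
      have h6 := Nat.div_add_mod (q i) s
      have h7 := Nat.div_add_mod (q l) s
      have h8 := Nat.mod_lt (q l) hs
      rw [h4] at h6
      rw [h5] at h7
      omega
    have h2 := card_le_card hsub
    have h3 := card_insert_le l (P.filter fun i => q i < q l ∧ q l ≤ q i + s)
    have h4 := hl'.1.2
    omega
  refine h1.trans (Nat.mul_le_mul_left K ?_)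
  have h2 : B.image (fun l => q l / s) ⊆ range (m / s + 1) := by
    intro c hc
    obtain ⟨l, hl, rfl⟩ := mem_image.1 hc
    rw [mem_range]
    have := Nat.div_le_div_right (c := s) (hq l (mem_filter.1 hl).1)
    omega
  simpa using card_le_card h2

lemma count_right (P : Finset ι) (q : ι → ℕ) (m s K : ℕ) (hs : 0 < s)
    (hq : ∀ i ∈ P, q i ≤ m) (hinj : Set.InjOn q (P : Set ι)) :
    #(P.filter fun l => #(P.filter fun j => q l < q j ∧ q j ≤ q l + s) < K) ≤ K * (m / s + 1) := by
  set B := P.filter fun l => #(P.filter fun j => q l < q j ∧ q j ≤ q l + s) < K with hB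
  have h1 : #B ≤ K * #(B.image fun l => q l / s) := by
    apply card_le_mul_card_image
    intro c hc
    set F := B.filter fun l => q l / s = c with hF
    by_cases hne : F = ∅
    · rw [hne]; simp
    obtain ⟨l, hl, hmin⟩ := exists_min_image F q (nonempty_iff_ne_empty.2 hne)
    have hl' := hl
    rw [hF, mem_filter, hB, mem_filter] at hl'
    have hsub : F ⊆ insert l (P.filter fun j => q l < q j ∧ q j ≤ q l + s) := by
      intro i hi
      rw [mem_insert, mem_filter]
      by_cases hil : i = l
      · exact Or.inl hil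
      right
      have h2 := hmin i hi
      rw [hF, mem_filter, hB, mem_filter] at hi
      have h3 : q i ≠ q l := fun h => hil (hinj hi.1.1 hl'.1.1 h)
      refine ⟨hi.1.1, by omega, ?_⟩
      have h4 : q i / s = c := hi.2
      have h5 : q l / s = c := hl'.2
      have h6 := Nat.div_add_mod (q i) s
      have h7 := Nat.div_add_mod (q l) s
      have h8 := Nat.mod_lt (q i) hs
      rw [h4] at h6
      rw [h5] at h7
      omega
    have h2 := card_le_card hsub
    have h3 := card_insert_le l (P.filter fun j => q l < q j ∧ q j ≤ q l + s)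
    have h4 := hl'.1.2
    omega
  refine h1.trans (Nat.mul_le_mul_left K ?_)
  have h2 : B.image (fun l => q l / s) ⊆ range (m / s + 1) := by
    intro c hc
    obtain ⟨l, hl, rfl⟩ := mem_image.1 hc
    rw [mem_range]
    have := Nat.div_le_div_right (c := s) (hq l (mem_filter.1 hl).1)
    omega
  simpa using card_le_card h2

/-- few elements have fewer than `k` elements after them -/
lemma count_after (P : Finset ι) (q : ι → ℕ) (k : ℕ) (hinj : Set.InjOn q (P : Set ι)) :
    #(P.filter fun l => #(P.filter fun f => q l < q f) < k) ≤ k := by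
  set N := P.filter fun l => #(P.filter fun f => q l < q f) < k with hN
  by_cases hne : N = ∅
  · rw [hne]; simp
  obtain ⟨l, hl, hmin⟩ := exists_min_image N q (nonempty_iff_ne_empty.2 hne)
  have hl' := hl
  rw [hN, mem_filter] at hl'
  have hsub : N ⊆ insert l (P.filter fun f => q l < q f) := by
    intro i hi
    rw [mem_insert, mem_filter]
    by_cases hil : i = l
    · exact Or.inl hil
    right
    have h2 := hmin i hi
    rw [hN, mem_filter] at hi
    have h3 : q i ≠ q l := fun h => hil (hinj hi.1 hl'.1 h)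
    exact ⟨hi.1, by omega⟩
  have h2 := card_le_card hsub
  have h3 := card_insert_le l (P.filter fun f => q l < q f)
  omega

/-- few elements before `l` have fewer than `k` elements between -/
lemma count_near_left (P : Finset ι) (q : ι → ℕ) (k : ℕ) (hinj : Set.InjOn q (P : Set ι)) (l : ι) :
    #(P.filter fun i => q i < q l ∧ #(P.filter fun f => q i < q f ∧ q f < q l) < k) ≤ k := by
  set N := P.filter fun i => q i < q l ∧ #(P.filter fun f => q i < q f ∧ q f < q l) < k with hN
  by_cases hne : N = ∅
  · rw [hne]; simp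
  obtain ⟨i0, hi0, hmin⟩ := exists_min_image N q (nonempty_iff_ne_empty.2 hne)
  have hi0' := hi0
  rw [hN, mem_filter] at hi0'
  have hsub : N ⊆ insert i0 (P.filter fun f => q i0 < q f ∧ q f < q l) := by
    intro i hi
    rw [mem_insert, mem_filter]
    by_cases hil : i = i0
    · exact Or.inl hil
    right
    have h2 := hmin i hi
    rw [hN, mem_filter] at hi
    have h3 : q i ≠ q i0 := fun h => hil (hinj hi.1 hi0'.1 h)
    exact ⟨hi.1, by omega, hi.2.1⟩
  have h2 := card_le_card hsub
  have h3 := card_insert_le i0 (P.filter fun f => q i0 < q f ∧ q f < q l)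
  omega

lemma count_near_right (P : Finset ι) (q : ι → ℕ) (k : ℕ) (hinj : Set.InjOn q (P : Set ι)) (l : ι) :
    #(P.filter fun j => q l < q j ∧ #(P.filter fun f => q l < q f ∧ q f < q j) < k) ≤ k := by
  set N := P.filter fun j => q l < q j ∧ #(P.filter fun f => q l < q f ∧ q f < q j) < k with hN
  by_cases hne : N = ∅
  · rw [hne]; simp
  obtain ⟨i0, hi0, hmax⟩ := exists_max_image N q (nonempty_iff_ne_empty.2 hne)
  have hi0' := hi0
  rw [hN, mem_filter] at hi0'
  have hsub : N ⊆ insert i0 (P.filter fun f => q l < q f ∧ q f < q i0) := by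
    intro i hi
    rw [mem_insert, mem_filter]
    by_cases hil : i = i0
    · exact Or.inl hil
    right
    have h2 := hmax i hi
    rw [hN, mem_filter] at hi
    have h3 : q i ≠ q i0 := fun h => hil (hinj hi.1 hi0'.1 h)
    exact ⟨hi.1, hi.2.1, by omega⟩
  have h2 := card_le_card hsub
  have h3 := card_insert_le i0 (P.filter fun f => q l < q f ∧ q f < q i0)
  omega

/-- candidates on the left -/
lemma card_I_ge (P : Finset ι) (q : ι → ℕ) (k s : ℕ) (hinj : Set.InjOn q (P : Set ι)) (l : ι)
    (h : 2 * k ≤ #(P.filter fun i => q i < q l ∧ q l ≤ q i + s)) :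
    k ≤ #(P.filter fun i => (q i < q l ∧ q l ≤ q i + s) ∧
      k ≤ #(P.filter fun f => q i < q f ∧ q f < q l)) := by
  have h1 := count_near_left P q k hinj l
  have hsub : (P.filter fun i => q i < q l ∧ q l ≤ q i + s) ⊆
      (P.filter fun i => (q i < q l ∧ q l ≤ q i + s) ∧
      k ≤ #(P.filter fun f => q i < q f ∧ q f < q l)) ∪
      (P.filter fun i => q i < q l ∧ #(P.filter fun f => q i < q f ∧ q f < q l) < k) := by
    intro i hi
    rw [mem_union, mem_filter, mem_filter]
    rw [mem_filter] at hi
    by_cases h' : k ≤ #(P.filter fun f => q i < q f ∧ q f < q l)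
    · exact Or.inl ⟨hi.1, hi.2, h'⟩
    · exact Or.inr ⟨hi.1, hi.2.1, by omega⟩
  have h2 := (card_le_card hsub).trans (card_union_le _ _)
  omega

lemma card_J_ge (P : Finset ι) (q : ι → ℕ) (k s : ℕ) (hinj : Set.InjOn q (P : Set ι)) (l : ι)
    (h : 2 * k ≤ #(P.filter fun j => q l < q j ∧ q j ≤ q l + s)) :
    k ≤ #(P.filter fun j => (q l < q j ∧ q j ≤ q l + s) ∧
      k ≤ #(P.filter fun f => q l < q f ∧ q f < q j)) := by
  have h1 := count_near_right P q k hinj l
  have hsub : (P.filter fun j => q l < q j ∧ q j ≤ q l + s) ⊆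
      (P.filter fun j => (q l < q j ∧ q j ≤ q l + s) ∧
      k ≤ #(P.filter fun f => q l < q f ∧ q f < q j)) ∪
      (P.filter fun j => q l < q j ∧ #(P.filter fun f => q l < q f ∧ q f < q j) < k) := by
    intro i hi
    rw [mem_union, mem_filter, mem_filter]
    rw [mem_filter] at hi
    by_cases h' : k ≤ #(P.filter fun f => q l < q f ∧ q f < q i)
    · exact Or.inl ⟨hi.1, hi.2, h'⟩
    · exact Or.inr ⟨hi.1, hi.2.1, by omega⟩
  have h2 := (card_le_card hsub).trans (card_union_le _ _)
  omega

/-- the good elements -/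
def goodSet (P : Finset ι) (q : ι → ℕ) (k s k' : ℕ) : Finset ι :=
  P.filter fun l => 2 * k ≤ #(P.filter fun i => q i < q l ∧ q l ≤ q i + s) ∧
    2 * k ≤ #(P.filter fun j => q l < q j ∧ q j ≤ q l + s) ∧
    k' ≤ #(P.filter fun f => q l < q f)

lemma card_goodSet_ge (P : Finset ι) (q : ι → ℕ) (m k s k' : ℕ) (hs : 0 < s)
    (hq : ∀ i ∈ P, q i ≤ m) (hinj : Set.InjOn q (P : Set ι)) :
    #P ≤ #(goodSet P q k s k') + 2 * (2 * k * (m / s + 1)) + k' := by
  have h1 := count_left P q m s (2 * k) hs hq hinj
  have h2 := count_right P q m s (2 * k) hs hq hinj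
  have h3 := count_after P q k' hinj
  have hsub : P ⊆ (goodSet P q k s k' ∪
      (P.filter fun l => #(P.filter fun i => q i < q l ∧ q l ≤ q i + s) < 2 * k)) ∪
      ((P.filter fun l => #(P.filter fun j => q l < q j ∧ q j ≤ q l + s) < 2 * k) ∪
      (P.filter fun l => #(P.filter fun f => q l < q f) < k')) := by
    intro l hl
    rw [mem_union, mem_union, mem_union, goodSet, mem_filter, mem_filter, mem_filter, mem_filter]
    by_cases a1 : 2 * k ≤ #(P.filter fun i => q i < q l ∧ q l ≤ q i + s)
    · by_cases a2 : 2 * k ≤ #(P.filter fun j => q l < q j ∧ q j ≤ q l + s)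
      · by_cases a3 : k' ≤ #(P.filter fun f => q l < q f)
        · exact Or.inl (Or.inl ⟨hl, a1, a2, a3⟩)
        · exact Or.inr (Or.inr ⟨hl, by omega⟩)
      · exact Or.inr (Or.inl ⟨hl, by omega⟩)
    · exact Or.inl (Or.inr ⟨hl, by omega⟩)
  have h4 := (card_le_card hsub).trans ((card_union_le _ _).trans
    (Nat.add_le_add (card_union_le _ _) (card_union_le _ _)))
  omega

end H97.IIC
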