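import Pool.Agent.H97.IIC.LR
import Pool.Agent.H97.IIC.Count

/-!
# Assembly of Lemma A
-/

open Finset
open scoped Classical

namespace H97.IIC

noncomputable section

variable {V : Type*}

/-! ### far sets -/

lemma pathD {H η : Finset (Sym2 V)} {L : Finset V} {b y : V} (hη : η ⊆ H)
    (hb : b ∈ L ∨ ∃ a ∈ L, s(a, b) ∈ H) (hy : y ∈ cl η b) (hyL : y ∉ L) :
    ∃ e ∈ bd H L, e.2 ∈ cl η b ∧ y ∈ cl (η ∩ off H L) e.2 := by
  have key : ∀ z, Conn η b z → z ∈ L ∨ ∃ e ∈ bd H L, z ∉ L ∧ e.2 ∈ cl η b ∧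
      z ∈ cl (η ∩ off H L) e.2 := by
    intro z hz
    induction hz with
    | refl =>
      by_cases h : b ∈ L
      · exact Or.inl h
      · rcases hb with h' | ⟨a, ha, hab⟩
        · exact absurd h' h
        · exact Or.inr ⟨(a, b), mem_bd.2 ⟨ha, h, hab⟩, h, self_mem_cl _ _, self_mem_cl _ _⟩
    | @tail z z' h1 h2 ih =>
      have hz1' : z' ∈ cl η b := mem_cl.2 (h1.tail h2)
      by_cases hz' : z' ∈ L
      · exact Or.inl hz'
      right
      rcases ih with hz | ⟨e, he, hz, heb, hze⟩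
      · exact ⟨(z, z'), mem_bd.2 ⟨hz, hz', hη h2⟩, hz', hz1', self_mem_cl _ _⟩
      · refine ⟨e, he, hz', heb, ?_⟩
        rw [mem_cl] at hze ⊢
        refine hze.tail (mem_inter.2 ⟨h2, mem_off.2 ⟨hη h2, ?_⟩⟩)
        intro v hv hve
        rw [Sym2.mem_iff] at hve
        rcases hve with rfl | rfl
        · exact hz hv
        · exact hz' hv
  rcases key y (mem_cl.1 hy) with h | ⟨e, he, _, h1, h2⟩
  · exact absurd h hyL
  · exact ⟨e, he, h1, h2⟩

lemma Far.mono {H : Finset (Sym2 V)} {T : Set V} {s : ℕ} {L1 L2 : Finset V} (h : Far H T s L2)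
    (hsub : L1 ⊆ L2) (hT : ∀ y ∈ L2, y ∉ T) : Far H T s L1 := by
  intro e he ζ hζ hh
  obtain ⟨y, hy, hyT⟩ := hh
  have hζH : ζ ⊆ H := hζ.trans (off_subset _ _)
  obtain ⟨a, b⟩ := e
  rw [mem_bd] at he
  obtain ⟨e', he', h1, h2⟩ := pathD (L := L2) hζH (Or.inr ⟨a, hsub he.1, he.2.2⟩) hy
    (fun hyL => hT y hyL hyT)
  have h3 := h e' he' (ζ ∩ off H L2) inter_subset_right ⟨y, h2, hyT⟩
  have h4 : cl (ζ ∩ off H L2) e'.2 ⊆ cl ζ b := by
    refine (cl_mono inter_subset_left _).trans ?_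
    rw [cl_eq_of_mem h1]
  exact h3.trans_le (card_le_card h4)

lemma Ex_superset {p : ℝ} {H ξ : Finset (Sym2 V)} (hξ : ξ ⊆ H) :
    Ex p H (fun ω => ind (ξ ⊆ ω)) = p ^ #ξ := by
  have h1 : Ex p H (fun ω => ind (ξ ⊆ ω)) = Ex p H (fun ω => (fun a => ind (ξ ⊆ a)) (ω ∩ ξ)) := by
    refine Ex_congr fun ω _ => ind_congr ?_
    constructor
    · intro h; exact subset_inter h subset_rfl
    · intro h; exact h.trans inter_subset_left
  rw [h1, Ex_inter hξ (fun a => ind (ξ ⊆ a)), Ex]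
  rw [Finset.sum_eq_single ξ]
  · simp [wt]
  · intro b hb hne
    rw [mem_powerset] at hb
    rw [ind_false (fun h => hne (subset_antisymm hb h)), mul_zero]
  · intro h; exact absurd (mem_powerset.2 subset_rfl) h

lemma T1_ge_of_not_far {p : ℝ} (hp0 : 0 ≤ p) (hp1 : p ≤ 1) {H : Finset (Sym2 V)} {d s : ℕ}
    (hd : Deg H d) {T : Set V} {L : Finset V} (h : ¬ Far H T s L) :
    p ^ (d * s) ≤ T1 p H T L := by
  rw [Far] at h
  push Not at h
  obtain ⟨e, he, ζ, hζ, hh, hcard⟩ := h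
  set ξ := ζ ∩ tch (off H L) (cl ζ e.2) with hξ
  have hξsub : ξ ⊆ off H L := inter_subset_left.trans hζ
  have hcl : cl ξ e.2 = cl ζ e.2 := cl_inter_tch hζ e.2
  have h1 : #ξ ≤ d * s := by
    refine (card_le_card inter_subset_right).trans
      ((card_tch_le (hd.mono (off_subset _ _)) _).trans ?_)
    exact Nat.mul_le_mul_left d hcard
  have h2 : p ^ (d * s) ≤ p ^ #ξ := pow_le_pow_of_le_one hp0 hp1 h1
  have h3 : p ^ #ξ ≤ Ex p (off H L) (fun η => ind (Hit η e.2 T)) := by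
    rw [← Ex_superset hξsub]
    refine Ex_mono hp0 hp1 fun ω _ => ind_mono fun hsub => ?_
    obtain ⟨y, hy, hT⟩ := hh
    exact ⟨y, cl_mono hsub _ (by rw [hcl]; exact hy), hT⟩
  have h4 : Ex p (off H L) (fun η => ind (Hit η e.2 T)) ≤ T1 p H T L :=
    Finset.single_le_sum (f := fun e : V × V => Ex p (off H L) (fun η => ind (Hit η e.2 T)))
      (fun _ _ => Ex_nonneg hp0 hp1 fun _ _ => ind_nonneg _) he
  exact h2.trans (h3.trans h4)

/-! ### bad pairs -/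

/-- indicator of a bad pair of pivots -/
def BPi (p : ℝ) (H : Finset (Sym2 V)) (x : V) (T : Set V) (m s k : ℕ) (t : ℝ)
    (ω : Finset (Sym2 V)) (e f : V × V) : ℝ :=
  ind (#(Ls ω x e) ≤ m ∧ Far H T (2 * s) (Ls ω x e)) *
          (ind (#(Rs (aft H ω x e) f) ≤ m ∧ 1 ≤ t * T2 p H T (Ls ω x e) (Rs (aft H ω x e) f)) *
          (ind (#(cl (bfr (off H (Ls ω x e)) (aft H ω x e) f) e.2) ≤ s) *
            ind (k ≤ npiv (bfr (off H (Ls ω x e)) (aft H ω x e) f) e.2 {f.1})))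

lemma BPi_nonneg (p : ℝ) (H : Finset (Sym2 V)) (x : V) (T : Set V) (m s k : ℕ) (t : ℝ)
    (ω : Finset (Sym2 V)) (e f : V × V) : 0 ≤ BPi p H x T m s k t ω e f :=
  mul_nonneg (ind_nonneg _) (mul_nonneg (ind_nonneg _) (mul_nonneg (ind_nonneg _) (ind_nonneg _)))

/-- a pair of pivots of `ω` which is bad -/
structure Bad (p : ℝ) (H : Finset (Sym2 V)) (x : V) (T : Set V) (s k : ℕ) (t : ℝ)
    (ω : Finset (Sym2 V)) (e f : V × V) : Prop where
  lt : #(Ls ω x e) < #(Ls ω x f)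
  le : #(Ls ω x f) ≤ #(Ls ω x e) + s
  far : Far H T (2 * s) (Ls ω x e)
  npv : k ≤ #((piv ω x T).filter fun g => #(Ls ω x e) < #(Ls ω x g) ∧ #(Ls ω x g) < #(Ls ω x f))
  con : 1 ≤ t * T2 p H T (Ls ω x e) (Rs ω f)

lemma Bad.BPi_eq {p : ℝ} {H : Finset (Sym2 V)} {x : V} {T : Set V} {m s k : ℕ} {t : ℝ}
    {ω : Finset (Sym2 V)} {e f : V × V} (hω : ω ⊆ H) (hm : #(cl ω x) ≤ m)
    (he : e ∈ piv ω x T) (hf : f ∈ piv ω x T) (h : Bad p H x T s k t ω e f) :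
    f ∈ piv (aft H ω x e) e.2 T ∧ BPi p H x T m s k t ω e f = 1 := by
  rw [mem_piv] at he hf
  have hb := he.bef_of_lt hf h.lt
  have hpv := hb.pv_aft hω he hf
  refine ⟨mem_piv.2 hpv, ?_⟩
  have hR : Rs (aft H ω x e) f = Rs ω f := hb.cl_far hω he hf
  have hbf : bfr (off H (Ls ω x e)) (aft H ω x e) f
      = ((aft H ω x e).erase s(f.1, f.2)) ∩ off (off H (Ls ω x e)) (Rs ω f) := by
    rw [bfr, hR]
  have hmid : #(cl (bfr (off H (Ls ω x e)) (aft H ω x e) f) e.2) ≤ s := by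
    rw [cl_bfr aft_subset hpv]
    have h1 := hb.card_mid hω he
    have h2 := h.le
    rw [Ls]
    omega
  have hL : #(Ls ω x e) ≤ m := by
    have := he.card_eq
    omega
  have hRm : #(Rs ω f) ≤ m := by
    have := hf.card_eq
    omega
  have hnp := h.npv.trans (hb.npiv_ge hω he hf)
  rw [BPi, hR, ind_true ⟨hL, h.far⟩, ind_true ⟨hRm, h.con⟩, ind_true hmid, hbf, ind_true hnp]
  norm_num

/-- the good pivots after removal of those with large `T1` or large `RR` -/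
def SS (p : ℝ) (H : Finset (Sym2 V)) (x : V) (T : Set V) (s k k' : ℕ) (t τ ρ : ℝ)
    (ω : Finset (Sym2 V)) : Finset (V × V) :=
  (goodSet (piv ω x T) (fun e => #(Ls ω x e)) k s k').filter fun l =>
    T1 p H T (Ls ω x l) < τ ∧ RR p H T (cl ω x) (Wn ω x T s l) t < ρ

lemma piv_injOn (ω : Finset (Sym2 V)) (x : V) (T : Set V) :
    Set.InjOn (fun e : V × V => #(Ls ω x e)) (piv ω x T : Set (V × V)) := by
  intro e he f hf h
  rw [mem_coe, mem_piv] at he hf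
  exact he.eq_of_card hf h

/-- **Dichotomy**: for `l` in `SS` and candidates `i`, `j`, one of the two pairs is bad. -/
theorem dichotomy {p : ℝ} (hp0 : 0 ≤ p) (hp1 : p ≤ 1) {H : Finset (Sym2 V)} {x : V} {T : Set V}
    {d s k k' : ℕ} {t τ ρ f : ℝ} (hd : Deg H d) (ht : 0 < t) (htτ : t * τ ≤ 1)
    (hτ : τ ≤ p ^ (d * (2 * s))) (hf : 2 * s + ρ + 3 ≤ f)
    (hfr : ∀ a b, s(a, b) ∈ H → a ∉ T → f ≤ Ex p H (fun η => min (#(cl η b) : ℝ) t))
    {ω : Finset (Sym2 V)} (hω : ω ⊆ H) {l i j : V × V}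
    (hl : l ∈ SS p H x T s k k' t τ ρ ω) (hi : i ∈ piv ω x T) (hj : j ∈ piv ω x T)
    (hil : #(Ls ω x i) < #(Ls ω x l)) (hli : #(Ls ω x l) ≤ #(Ls ω x i) + s)
    (hlj : #(Ls ω x l) < #(Ls ω x j)) (hjl : #(Ls ω x j) ≤ #(Ls ω x l) + s) :
    (1 ≤ t * T2 p H T (Ls ω x i) (Rs ω l) ∧ Far H T (2 * s) (Ls ω x i)) ∨
    (1 ≤ t * T2 p H T (Ls ω x l) (Rs ω j) ∧ Far H T (2 * s) (Ls ω x l)) := by
  rw [SS, mem_filter, goodSet, mem_filter] at hl
  obtain ⟨⟨hlp, _⟩, hT1, hRR⟩ := hl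
  have hip := mem_piv.1 hi
  have hjp := mem_piv.1 hj
  have hlp' := mem_piv.1 hlp
  have hfar : Far H T (2 * s) (Ls ω x l) := by
    by_contra h
    have := T1_ge_of_not_far hp0 hp1 hd h
    linarith
  have hLT : ∀ y ∈ Ls ω x l, y ∉ T := fun y hy hT => hlp'.2.2.2.1 ⟨y, hy, hT⟩
  have hbil := hip.bef_of_lt hlp' hil
  have hblj := hlp'.bef_of_lt hjp hlj
  have hfari : Far H T (2 * s) (Ls ω x i) := hfar.mono hbil.sub hLT
  by_contra hcon
  push Not at hcon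
  have hA : t * T2 p H T (Ls ω x i) (Rs ω l) < 1 := by
    by_contra h; push Not at h; exact hcon.1 h hfari
  have hB : t * T2 p H T (Ls ω x l) (Rs ω j) < 1 := by
    by_contra h; push Not at h; exact hcon.2 h hfar
  have hlC : l.2 ∈ cl ω x := by rw [hlp'.cl_eq]; exact mem_union_right _ hlp'.snd_mem
  have hl2i : l.2 ∉ Ls ω x i := fun h => (Finset.disjoint_left.1 hip.disj h) hbil.snd'
  have hl2j : l.2 ∉ Rs ω j := fun h => (Finset.disjoint_left.1 hjp.disj hblj.snd) h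
  have hU : l.2 ∈ Wn ω x T s l := by
    rw [Wn, mem_filter]
    exact ⟨hlC, ⟨i, hi, hil, hli, hl2i⟩, ⟨j, hj, hlj, hjl, hl2j⟩⟩
  have hUC : Wn ω x T s l ⊆ cl ω x := filter_subset _ _
  have hC : cl ω x ⊆ Ls ω x i ∪ (Wn ω x T s l ∪ Rs ω j) := by
    intro u hu
    rw [mem_union, mem_union]
    by_cases h1 : u ∈ Ls ω x i
    · exact Or.inl h1
    · by_cases h2 : u ∈ Rs ω j
      · exact Or.inr (Or.inr h2)
      · right; left
        rw [Wn, mem_filter]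
        exact ⟨hu, ⟨i, hi, hil, hli, h1⟩, ⟨j, hj, hlj, hjl, h2⟩⟩
  have hdis : Disjoint (Ls ω x l) (Rs ω j) := disjoint_of_subset_left hblj.sub hjp.disj
  have key := ineqA6 hp0 hp1 (T := T) (C := cl ω x) (U := Wn ω x T s l) (L1 := Ls ω x i)
    (L2 := Ls ω x l) (R1 := Rs ω l) (R2 := Rs ω j) (a := l.1) (b := l.2) ht.le hU hUC hC hLT
    hlp'.fst_mem hlp'.snd_not_mem (hω hlp'.1) hlp'.snd_mem hl2i hl2j hdis
  have h1 := hfr l.1 l.2 (hω hlp'.1) (hLT _ hlp'.fst_mem)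
  have h2 : (#(Wn ω x T s l) : ℝ) ≤ 2 * s := by
    have := card_Wn_le (ω := ω) (x := x) (T := T) s l
    exact_mod_cast this
  have h3 : t * T1 p H T (Ls ω x l) ≤ t * τ := mul_le_mul_of_nonneg_left hT1.le ht.le
  nlinarith

/-- sum over bad pairs -/
def BPs (p : ℝ) (H : Finset (Sym2 V)) (x : V) (T : Set V) (m s k : ℕ) (t : ℝ)
    (ω : Finset (Sym2 V)) : ℝ :=
  ∑ e ∈ piv ω x T, ∑ f ∈ piv (aft H ω x e) e.2 T, BPi p H x T m s k t ω e f

/-- **Pointwise lower bound** for the number of bad pairs. -/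
theorem BPs_ge {p : ℝ} (hp0 : 0 ≤ p) (hp1 : p ≤ 1) {H : Finset (Sym2 V)} {x : V} {T : Set V}
    {d m s k k' : ℕ} {t τ ρ f : ℝ} (hd : Deg H d) (ht : 0 < t) (htτ : t * τ ≤ 1)
    (hτ : τ ≤ p ^ (d * (2 * s))) (hf : 2 * s + ρ + 3 ≤ f)
    (hfr : ∀ a b, s(a, b) ∈ H → a ∉ T → f ≤ Ex p H (fun η => min (#(cl η b) : ℝ) t))
    {ω : Finset (Sym2 V)} (hω : ω ⊆ H) (hm : #(cl ω x) ≤ m) :
    (k : ℝ) * #(SS p H x T s k k' t τ ρ ω) ≤ 2 * BPs p H x T m s k t ω := by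
  set P := piv ω x T with hP
  set B : V × V → V × V → Prop := fun e f => Bad p H x T s k t ω e f with hB
  -- the pairs
  have h1 : (∑ e ∈ P, ∑ f ∈ P, ind (B e f)) ≤ BPs p H x T m s k t ω := by
    refine Finset.sum_le_sum fun e he => ?_
    rw [sum_ind_eq_card, card_eq_sum_ones, Nat.cast_sum]
    have hsub : P.filter (fun f => B e f) ⊆ piv (aft H ω x e) e.2 T := by
      intro f hf
      rw [mem_filter] at hf
      exact (hf.2.BPi_eq hω hm he hf.1).1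
    refine le_trans ?_ (Finset.sum_le_sum_of_subset_of_nonneg hsub
      (fun f _ _ => BPi_nonneg p H x T m s k t ω e f))
    refine Finset.sum_le_sum fun f hf => ?_
    rw [mem_filter] at hf
    rw [(hf.2.BPi_eq hω hm he hf.1).2]
    simp
  -- each `l` has many bad partners on one side
  have h2 : ∀ l ∈ SS p H x T s k k' t τ ρ ω,
      (k : ℝ) ≤ ∑ i ∈ P, ind (B i l) + ∑ j ∈ P, ind (B l j) := by
    intro l hl
    have hl' := hl
    rw [SS, mem_filter, goodSet, mem_filter] at hl'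
    obtain ⟨⟨hlP, hI, hJ, _⟩, _⟩ := hl'
    have hI' := card_I_ge P (fun e => #(Ls ω x e)) k s (piv_injOn ω x T) l hI
    have hJ' := card_J_ge P (fun e => #(Ls ω x e)) k s (piv_injOn ω x T) l hJ
    by_cases hall : ∀ i ∈ P, (#(Ls ω x i) < #(Ls ω x l) ∧ #(Ls ω x l) ≤ #(Ls ω x i) + s) ∧
        k ≤ #(P.filter fun f => #(Ls ω x i) < #(Ls ω x f) ∧ #(Ls ω x f) < #(Ls ω x l)) → B i l
    · have h3 : (k : ℝ) ≤ ∑ i ∈ P, ind (B i l) := by
        rw [sum_ind_eq_card]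
        refine Nat.cast_le.2 (hI'.trans (card_le_card ?_))
        intro i hi
        rw [mem_filter] at hi ⊢
        exact ⟨hi.1, hall i hi.1 hi.2⟩
      have h4 : 0 ≤ ∑ j ∈ P, ind (B l j) := Finset.sum_nonneg fun _ _ => ind_nonneg _
      linarith
    · push Not at hall
      obtain ⟨i, hi, hi2, hiB⟩ := hall
      have h3 : (k : ℝ) ≤ ∑ j ∈ P, ind (B l j) := by
        rw [sum_ind_eq_card]
        refine Nat.cast_le.2 (hJ'.trans (card_le_card ?_))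
        intro j hj
        rw [mem_filter] at hj ⊢
        refine ⟨hj.1, ?_⟩
        rcases dichotomy hp0 hp1 hd ht htτ hτ hf hfr hω hl hi hj.1 hi2.1.1 hi2.1.2 hj.2.1.1
          hj.2.1.2 with h | h
        · exact absurd (Bad.mk hi2.1.1 hi2.1.2 h.2 hi2.2 h.1) hiB
        · exact Bad.mk hj.2.1.1 hj.2.1.2 h.2 hj.2.2 h.1
      have h4 : 0 ≤ ∑ i ∈ P, ind (B i l) := Finset.sum_nonneg fun _ _ => ind_nonneg _
      linarith
  have hSP : SS p H x T s k k' t τ ρ ω ⊆ P :=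
    (filter_subset _ _).trans (filter_subset _ _)
  calc (k : ℝ) * #(SS p H x T s k k' t τ ρ ω)
      = ∑ l ∈ SS p H x T s k k' t τ ρ ω, (k : ℝ) := by rw [sum_const, nsmul_eq_mul, mul_comm]
    _ ≤ ∑ l ∈ SS p H x T s k k' t τ ρ ω, (∑ i ∈ P, ind (B i l) + ∑ j ∈ P, ind (B l j)) :=
        Finset.sum_le_sum h2
    _ ≤ ∑ l ∈ P, (∑ i ∈ P, ind (B i l) + ∑ j ∈ P, ind (B l j)) :=
        Finset.sum_le_sum_of_subset_of_nonneg hSP fun l _ _ =>
          add_nonneg (Finset.sum_nonneg fun _ _ => ind_nonneg _)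
            (Finset.sum_nonneg fun _ _ => ind_nonneg _)
    _ = 2 * ∑ e ∈ P, ∑ f ∈ P, ind (B e f) := by
        rw [sum_add_distrib, sum_comm]; ring
    _ ≤ _ := by linarith

/-- **Main inequality.** -/
theorem main_ineq {p : ℝ} (hp0 : 0 < p) (hp1 : p < 1) {H : Finset (Sym2 V)} (x : V) (T : Set V)
    {d m s k k' n : ℕ} {t τ ρ f α κs δs κm δm : ℝ} (hd : Deg H d) (hs : 0 < s) (hk : 0 < k)
    (hk' : 0 < k') (ht : 0 < t) (htm : t ≤ m) (hτ0 : 0 < τ) (htτ : t * τ ≤ 1) (hρ : 0 < ρ)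
    (hτ : τ ≤ p ^ (d * (2 * s))) (hf : 2 * s + ρ + 3 ≤ f)
    (hfr : ∀ a b, s(a, b) ∈ H → a ∉ T → f ≤ Ex p H (fun η => min (#(cl η b) : ℝ) t))
    (hn : ∀ ω ⊆ H, Hit ω x T → n ≤ #(cl ω x)) (hα : 0 ≤ α)
    (hκs : 0 ≤ κs) (hδs : 0 ≤ δs) (hκm : 0 ≤ κm) (hδm : 0 ≤ δm)
    (hCs : CProp p H s κs δs) (hCm : CProp p H m κm δm) :
    (k : ℝ) * ((α * n - (4 * k * (m / s + 1 : ℕ) + k')) *
        Ex p H (fun ω => ind (Hit ω x T ∧ #(cl ω x) ≤ m ∧ α * #(cl ω x) ≤ #(piv ω x T)))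
      - 2 * m ^ 2 * (κm + δm * d * m / τ) / k' * PH p H x T
      - (1 - p) / p * (2 * s * (2 * m * (d * (2 * s) + 1 : ℕ))) / ρ * PH p H x T)
      ≤ 2 * ((4 * s ^ 2 * m * κs + 2 * s * δs * t * (d * m) ^ 2 * (m + m * m) / (1 - p)) / k
          * PH p H x T) := by
  have hk0 : (0 : ℝ) < k := by exact_mod_cast hk
  have hk0' : (0 : ℝ) < k' := by exact_mod_cast hk'
  have hO := lemmaO hp0 hp1 hd hκm hδm hτ0 hCm x T k'
  have hP := lemmaP hp0 hp1 hd x T (m := m) (s := s) hκs hδs ht hCs k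
  have hR := lemmaR hp0 hp1 hd x T (m := m) (s := s) (t := t) ht.le htm
  set EO := Ex p H (fun ω => ∑ e ∈ piv ω x T, ind (#(Ls ω x e) ≤ m) *
    (ind (τ ≤ T1 p H T (Ls ω x e)) * (ind (#(Rs ω e) ≤ m) *
      ind (k' ≤ npiv (aft H ω x e) e.2 T)))) with hEO
  set ER := Ex p H (fun ω => ind (#(cl ω x) ≤ m) * ∑ l ∈ piv ω x T,
        RR p H T (cl ω x) (Wn ω x T s l) t) with hER
  -- lower bound for #SS
  have hlow : (α * n - (4 * k * (m / s + 1 : ℕ) + k')) *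
        Ex p H (fun ω => ind (Hit ω x T ∧ #(cl ω x) ≤ m ∧ α * #(cl ω x) ≤ #(piv ω x T)))
      ≤ Ex p H (fun ω => ind (#(cl ω x) ≤ m) * #(SS p H x T s k k' t τ ρ ω)) + EO + ER / ρ := by
    rw [← Ex_mul_left, hEO, hER, div_eq_mul_inv, ← Ex_mul_right, ← Ex_add, ← Ex_add]
    refine Ex_mono hp0.le hp1.le fun ω hω => ?_
    have hRRnn : ∀ l, 0 ≤ RR p H T (cl ω x) (Wn ω x T s l) t := fun l =>
      Finset.sum_nonneg fun _ _ => Ex_nonneg hp0.le hp1.le fun _ _ =>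
        mul_nonneg (le_min (Nat.cast_nonneg _) ht.le) (ind_nonneg _)
    have hOnn : ∀ e, 0 ≤ ind (#(Ls ω x e) ≤ m) *
        (ind (τ ≤ T1 p H T (Ls ω x e)) * (ind (#(Rs ω e) ≤ m) *
        ind (k' ≤ npiv (aft H ω x e) e.2 T))) := fun e =>
      mul_nonneg (ind_nonneg _) (mul_nonneg (ind_nonneg _) (mul_nonneg (ind_nonneg _)
        (ind_nonneg _)))
    have hS1 : 0 ≤ ∑ e ∈ piv ω x T, ind (#(Ls ω x e) ≤ m) *
        (ind (τ ≤ T1 p H T (Ls ω x e)) * (ind (#(Rs ω e) ≤ m) *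
        ind (k' ≤ npiv (aft H ω x e) e.2 T))) := Finset.sum_nonneg fun e _ => hOnn e
    have hS2 : 0 ≤ ∑ l ∈ piv ω x T, RR p H T (cl ω x) (Wn ω x T s l) t :=
      Finset.sum_nonneg fun l _ => hRRnn l
    by_cases hE : Hit ω x T ∧ #(cl ω x) ≤ m ∧ α * #(cl ω x) ≤ #(piv ω x T)
    swap
    · rw [ind_false hE, mul_zero]
      have := ind_nonneg (#(cl ω x) ≤ m)
      positivity
    rw [ind_true hE, ind_true hE.2.1, mul_one, one_mul, one_mul]
    obtain ⟨hh, hm, hα'⟩ := hE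
    set P := piv ω x T with hPdef
    have hq : ∀ i ∈ P, #(Ls ω x i) ≤ m := by
      intro i hi
      have := (mem_piv.1 hi).card_eq
      omega
    have hcount := card_goodSet_ge P (fun e => #(Ls ω x e)) m k s k' hs hq (piv_injOn ω x T)
    set G := goodSet P (fun e => #(Ls ω x e)) k s k' with hG
    have h1 : α * n ≤ #P := by
      refine le_trans ?_ hα'
      exact mul_le_mul_of_nonneg_left (by exact_mod_cast hn ω hω hh) hα
    have h2 : (#P : ℝ) ≤ #G + (4 * k * (m / s + 1 : ℕ) + k') := by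
      have : (#P : ℝ) ≤ (#G + 2 * (2 * k * (m / s + 1)) + k' : ℕ) := Nat.cast_le.2 hcount
      push_cast at this ⊢
      linarith
    have hsub : G ⊆ SS p H x T s k k' t τ ρ ω ∪ (G.filter (fun l => τ ≤ T1 p H T (Ls ω x l)) ∪
        G.filter (fun l => ρ ≤ RR p H T (cl ω x) (Wn ω x T s l) t)) := by
      intro l hl
      rw [mem_union, mem_union, SS, mem_filter, mem_filter, mem_filter]
      by_cases a1 : T1 p H T (Ls ω x l) < τ
      · by_cases a2 : RR p H T (cl ω x) (Wn ω x T s l) t < ρ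
        · exact Or.inl ⟨hl, a1, a2⟩
        · exact Or.inr (Or.inr ⟨hl, not_lt.1 a2⟩)
      · exact Or.inr (Or.inl ⟨hl, not_lt.1 a1⟩)
    have h3 : (#G : ℝ) ≤ #(SS p H x T s k k' t τ ρ ω)
        + (#(G.filter (fun l => τ ≤ T1 p H T (Ls ω x l)))
        + #(G.filter (fun l => ρ ≤ RR p H T (cl ω x) (Wn ω x T s l) t))) := by
      have := (card_le_card hsub).trans ((card_union_le _ _).trans
        (Nat.add_le_add_left (card_union_le _ _) _))
      exact_mod_cast this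
    have hGP : G ⊆ P := filter_subset _ _
    have h4 : (#(G.filter (fun l => τ ≤ T1 p H T (Ls ω x l))) : ℝ)
        ≤ ∑ e ∈ P, ind (#(Ls ω x e) ≤ m) *
        (ind (τ ≤ T1 p H T (Ls ω x e)) * (ind (#(Rs ω e) ≤ m) *
        ind (k' ≤ npiv (aft H ω x e) e.2 T))) := by
      have hsub4 : G.filter (fun l => τ ≤ T1 p H T (Ls ω x l)) ⊆ P := (filter_subset _ _).trans hGP
      rw [card_eq_sum_ones, Nat.cast_sum]
      refine le_trans ?_ (Finset.sum_le_sum_of_subset_of_nonneg hsub4 (fun e _ _ => hOnn e))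
      refine Finset.sum_le_sum fun l hl => ?_
      rw [mem_filter] at hl
      have hlG := hl.1
      rw [hG, goodSet, mem_filter] at hlG
      have hlp := mem_piv.1 hlG.1
      have hR' : #(Rs ω l) ≤ m := by
        have := hlp.card_eq
        omega
      have hnp := hlG.2.2.2.trans (hlp.npiv_ge hω)
      rw [ind_true (hq l hlG.1), ind_true hl.2, ind_true hR', ind_true hnp]
      norm_num
    have h5 : (#(G.filter (fun l => ρ ≤ RR p H T (cl ω x) (Wn ω x T s l) t)) : ℝ)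
        ≤ (∑ l ∈ P, RR p H T (cl ω x) (Wn ω x T s l) t) * ρ⁻¹ := by
      rw [← div_eq_mul_inv, le_div_iff₀ hρ]
      calc (#(G.filter (fun l => ρ ≤ RR p H T (cl ω x) (Wn ω x T s l) t)) : ℝ) * ρ
          = ∑ l ∈ G.filter (fun l => ρ ≤ RR p H T (cl ω x) (Wn ω x T s l) t), ρ := by
            rw [sum_const, nsmul_eq_mul]
        _ ≤ ∑ l ∈ G.filter (fun l => ρ ≤ RR p H T (cl ω x) (Wn ω x T s l) t),
            RR p H T (cl ω x) (Wn ω x T s l) t :=
            Finset.sum_le_sum fun l hl => by rw [mem_filter] at hl; exact hl.2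
        _ ≤ _ := Finset.sum_le_sum_of_subset_of_nonneg ((filter_subset _ _).trans hGP)
            (fun l _ _ => hRRnn l)
    linarith
  have hup : Ex p H (fun ω => (k : ℝ) * (ind (#(cl ω x) ≤ m) * #(SS p H x T s k k' t τ ρ ω)))
      ≤ 2 * Ex p H (fun ω => BPs p H x T m s k t ω) := by
    rw [← Ex_mul_left]
    refine Ex_mono hp0.le hp1.le fun ω hω => ?_
    by_cases h : #(cl ω x) ≤ m
    · rw [ind_true h, one_mul]
      exact BPs_ge hp0.le hp1.le hd ht htτ hτ hf hfr hω h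
    · rw [ind_false h, zero_mul, mul_zero]
      have : 0 ≤ BPs p H x T m s k t ω :=
        Finset.sum_nonneg fun _ _ => Finset.sum_nonneg fun _ _ => BPi_nonneg _ _ _ _ _ _ _ _ _ _ _
      linarith
  rw [Ex_mul_left] at hup
  have h1 : Ex p H (fun ω => BPs p H x T m s k t ω)
      ≤ (4 * s ^ 2 * m * κs + 2 * s * δs * t * (d * m) ^ 2 * (m + m * m) / (1 - p)) / k
          * PH p H x T := by
    rw [div_mul_eq_mul_div, le_div_iff₀ hk0, mul_comm]
    exact hP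
  have h2 : EO ≤ 2 * m ^ 2 * (κm + δm * d * m / τ) / k' * PH p H x T := by
    rw [div_mul_eq_mul_div, le_div_iff₀ hk0', mul_comm]
    exact hO
  have h3 : ER / ρ ≤ (1 - p) / p * (2 * s * (2 * m * (d * (2 * s) + 1 : ℕ))) / ρ * PH p H x T := by
    have h4 : ER ≤ (1 - p) / p * (2 * s * (2 * m * (d * (2 * s) + 1 : ℕ))) * PH p H x T := by
      have h5 : ER = (p * ER) / p := by field_simp
      rw [h5, div_le_iff₀ hp0]
      refine hR.trans (le_of_eq ?_)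
      field_simp
    calc ER / ρ ≤ ((1 - p) / p * (2 * s * (2 * m * (d * (2 * s) + 1 : ℕ))) * PH p H x T) / ρ :=
          div_le_div_of_nonneg_right h4 hρ.le
      _ = _ := by ring
  have h6 : (α * n - (4 * k * (m / s + 1 : ℕ) + k')) *
        Ex p H (fun ω => ind (Hit ω x T ∧ #(cl ω x) ≤ m ∧ α * #(cl ω x) ≤ #(piv ω x T)))
      - 2 * m ^ 2 * (κm + δm * d * m / τ) / k' * PH p H x T
      - (1 - p) / p * (2 * s * (2 * m * (d * (2 * s) + 1 : ℕ))) / ρ * PH p H x T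
      ≤ Ex p H (fun ω => ind (#(cl ω x) ≤ m) * #(SS p H x T s k k' t τ ρ ω)) := by linarith
  exact (mul_le_mul_of_nonneg_left h6 hk0.le).trans (hup.trans
    (mul_le_mul_of_nonneg_left h1 zero_le_two))

end

end H97.IIC
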