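import Mathlib

/-!
# Finite percolation: configurations are finite sets of edges, expectations are finite sums

`Ex p H f` is the expectation of `f ω` when `ω` is a random subset of the finite edge set `H`, each
edge being kept independently with probability `p`.
-/

open Finset
open scoped Classical

namespace H97.IIC

noncomputable section

variable {V : Type*}

/-- weight of the configuration `ω ⊆ H`. -/
def wt (p : ℝ) (H ω : Finset (Sym2 V)) : ℝ := p ^ #ω * (1 - p) ^ #(H \ ω)

/-- expectation over the random subset of `H`. -/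
def Ex (p : ℝ) (H : Finset (Sym2 V)) (f : Finset (Sym2 V) → ℝ) : ℝ :=
  ∑ ω ∈ H.powerset, wt p H ω * f ω

/-- indicator of a proposition. -/
def ind (P : Prop) : ℝ := if P then 1 else 0

lemma ind_nonneg (P : Prop) : 0 ≤ ind P := by unfold ind; split_ifs <;> norm_num
lemma ind_le_one (P : Prop) : ind P ≤ 1 := by unfold ind; split_ifs <;> norm_num
@[simp] lemma ind_true {P : Prop} (h : P) : ind P = 1 := by simp [ind, h]
@[simp] lemma ind_false {P : Prop} (h : ¬ P) : ind P = 0 := by simp [ind, h]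
lemma ind_mono {P Q : Prop} (h : P → Q) : ind P ≤ ind Q := by
  unfold ind; split_ifs <;> first | (exfalso; tauto) | norm_num
lemma ind_congr {P Q : Prop} (h : P ↔ Q) : ind P = ind Q := by
  unfold ind; simp only [h]
lemma ind_and (P Q : Prop) : ind (P ∧ Q) = ind P * ind Q := by
  unfold ind; split_ifs <;> first | (exfalso; tauto) | norm_num

lemma wt_nonneg {p : ℝ} (h0 : 0 ≤ p) (h1 : p ≤ 1) (H ω : Finset (Sym2 V)) : 0 ≤ wt p H ω :=
  mul_nonneg (pow_nonneg h0 _) (pow_nonneg (by linarith) _)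

lemma Ex_congr {p : ℝ} {H : Finset (Sym2 V)} {f g : Finset (Sym2 V) → ℝ}
    (h : ∀ ω, ω ⊆ H → f ω = g ω) : Ex p H f = Ex p H g :=
  Finset.sum_congr rfl fun ω hω => by rw [h ω (mem_powerset.1 hω)]

lemma Ex_mono {p : ℝ} (h0 : 0 ≤ p) (h1 : p ≤ 1) {H : Finset (Sym2 V)}
    {f g : Finset (Sym2 V) → ℝ} (h : ∀ ω, ω ⊆ H → f ω ≤ g ω) : Ex p H f ≤ Ex p H g :=
  Finset.sum_le_sum fun ω hω =>
    mul_le_mul_of_nonneg_left (h ω (mem_powerset.1 hω)) (wt_nonneg h0 h1 _ _)

lemma Ex_nonneg {p : ℝ} (h0 : 0 ≤ p) (h1 : p ≤ 1) {H : Finset (Sym2 V)}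
    {f : Finset (Sym2 V) → ℝ} (h : ∀ ω, ω ⊆ H → 0 ≤ f ω) : 0 ≤ Ex p H f :=
  Finset.sum_nonneg fun ω hω => mul_nonneg (wt_nonneg h0 h1 _ _) (h ω (mem_powerset.1 hω))

lemma Ex_add (p : ℝ) (H : Finset (Sym2 V)) (f g : Finset (Sym2 V) → ℝ) :
    Ex p H (fun ω => f ω + g ω) = Ex p H f + Ex p H g := by
  simp only [Ex, mul_add, Finset.sum_add_distrib]

lemma Ex_sub (p : ℝ) (H : Finset (Sym2 V)) (f g : Finset (Sym2 V) → ℝ) :
    Ex p H (fun ω => f ω - g ω) = Ex p H f - Ex p H g := by
  simp only [Ex, mul_sub, Finset.sum_sub_distrib]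

lemma Ex_mul_left (p : ℝ) (H : Finset (Sym2 V)) (c : ℝ) (f : Finset (Sym2 V) → ℝ) :
    Ex p H (fun ω => c * f ω) = c * Ex p H f := by
  simp only [Ex, Finset.mul_sum]
  exact Finset.sum_congr rfl fun ω _ => by ring

lemma Ex_mul_right (p : ℝ) (H : Finset (Sym2 V)) (c : ℝ) (f : Finset (Sym2 V) → ℝ) :
    Ex p H (fun ω => f ω * c) = Ex p H f * c := by
  simp only [Ex, Finset.sum_mul]
  exact Finset.sum_congr rfl fun ω _ => by ring

lemma Ex_sum {ι : Type*} (p : ℝ) (H : Finset (Sym2 V)) (s : Finset ι)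
    (f : ι → Finset (Sym2 V) → ℝ) :
    Ex p H (fun ω => ∑ i ∈ s, f i ω) = ∑ i ∈ s, Ex p H (f i) := by
  simp only [Ex, Finset.mul_sum]
  exact Finset.sum_comm

lemma Ex_const (p : ℝ) (H : Finset (Sym2 V)) (c : ℝ) : Ex p H (fun _ => c) = c := by
  have h : ∑ ω ∈ H.powerset, wt p H ω = 1 := by
    have := Finset.sum_pow_mul_eq_add_pow p (1 - p) H
    rw [show p + (1 - p) = 1 by ring, one_pow] at this
    rw [← this]
    refine Finset.sum_congr rfl fun ω hω => ?_
    rw [wt, card_sdiff_of_subset (mem_powerset.1 hω)]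
  simp only [Ex, ← Finset.sum_mul, h, one_mul]

lemma Ex_zero (p : ℝ) (H : Finset (Sym2 V)) : Ex p H (fun _ => 0) = 0 := Ex_const p H 0

lemma wt_union {p : ℝ} {H1 H2 a b : Finset (Sym2 V)} (h : Disjoint H1 H2) (ha : a ⊆ H1)
    (hb : b ⊆ H2) : wt p (H1 ∪ H2) (a ∪ b) = wt p H1 a * wt p H2 b := by
  have hab : Disjoint a b := disjoint_of_subset_left ha (disjoint_of_subset_right hb h)
  have e : (H1 ∪ H2) \ (a ∪ b) = (H1 \ a) ∪ (H2 \ b) := by
    ext x
    simp only [mem_sdiff, mem_union, not_or]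
    constructor
    · rintro ⟨h1 | h1, h2, h3⟩
      · exact Or.inl ⟨h1, h2⟩
      · exact Or.inr ⟨h1, h3⟩
    · rintro (⟨h1, h2⟩ | ⟨h1, h2⟩)
      · exact ⟨Or.inl h1, h2, fun hx => (Finset.disjoint_left.1 h h1) (hb hx)⟩
      · exact ⟨Or.inr h1, fun hx => (Finset.disjoint_left.1 h (ha hx)) h1, h2⟩
  have hd : Disjoint (H1 \ a) (H2 \ b) :=
    disjoint_of_subset_left sdiff_subset (disjoint_of_subset_right sdiff_subset h)
  rw [wt, wt, wt, e, card_union_of_disjoint hab, card_union_of_disjoint hd, pow_add, pow_add]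
  ring

lemma Ex_union {p : ℝ} {H1 H2 : Finset (Sym2 V)} (h : Disjoint H1 H2)
    (f : Finset (Sym2 V) → ℝ) :
    Ex p (H1 ∪ H2) f = Ex p H1 (fun a => Ex p H2 (fun b => f (a ∪ b))) := by
  simp only [Ex, Finset.mul_sum]
  rw [← Finset.sum_product' (s := H1.powerset) (t := H2.powerset)
    (f := fun a b => wt p H1 a * (wt p H2 b * f (a ∪ b)))]
  refine Finset.sum_nbij' (fun ω => (ω ∩ H1, ω ∩ H2)) (fun x => x.1 ∪ x.2) ?_ ?_ ?_ ?_ ?_
  · intro ω _
    simp only [mem_product, mem_powerset]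
    exact ⟨inter_subset_right, inter_subset_right⟩
  · rintro ⟨a, b⟩ hx
    simp only [mem_product, mem_powerset] at hx
    rw [mem_powerset]
    exact union_subset_union hx.1 hx.2
  · intro ω hω
    rw [mem_powerset] at hω
    simp only
    rw [← inter_union_distrib_left, inter_eq_left.2 hω]
  · rintro ⟨a, b⟩ hx
    simp only [mem_product, mem_powerset] at hx
    have h1 : b ∩ H1 = ∅ :=
      (disjoint_iff_inter_eq_empty.1 (disjoint_of_subset_left hx.2 h.symm))
    have h2 : a ∩ H2 = ∅ :=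
      (disjoint_iff_inter_eq_empty.1 (disjoint_of_subset_left hx.1 h))
    simp only [union_inter_distrib_right, h1, h2, inter_eq_left.2 hx.1, inter_eq_left.2 hx.2,
      union_empty, empty_union]
  · intro ω hω
    rw [mem_powerset] at hω
    have e : (ω ∩ H1) ∪ (ω ∩ H2) = ω := by
      rw [← inter_union_distrib_left, inter_eq_left.2 hω]
    have := wt_union (p := p) h (inter_subset_right : ω ∩ H1 ⊆ H1)
      (inter_subset_right : ω ∩ H2 ⊆ H2)
    simp only [e] at this ⊢
    rw [this]; ring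

/-- The expectation of a function of `ω ∩ H'`. -/
lemma Ex_inter {p : ℝ} {H H' : Finset (Sym2 V)} (h : H' ⊆ H) (f : Finset (Sym2 V) → ℝ) :
    Ex p H (fun ω => f (ω ∩ H')) = Ex p H' f := by
  have hd : Disjoint H' (H \ H') := disjoint_sdiff
  have e : H' ∪ (H \ H') = H := union_sdiff_of_subset h
  conv_lhs => rw [← e]
  rw [Ex_union hd]
  refine Ex_congr fun a ha => ?_
  rw [← Ex_const p (H \ H') (f a)]
  refine Ex_congr fun b hb => ?_
  congr 1
  rw [union_inter_distrib_right, inter_eq_left.2 ha,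
    disjoint_iff_inter_eq_empty.1 (disjoint_of_subset_left hb hd.symm), union_empty]

lemma Ex_erase {p : ℝ} {H : Finset (Sym2 V)} {e : Sym2 V} (he : e ∈ H)
    (f : Finset (Sym2 V) → ℝ) :
    Ex p H f = p * Ex p (H.erase e) (fun ω => f (insert e ω)) + (1 - p) * Ex p (H.erase e) f := by
  have hd : Disjoint ({e} : Finset (Sym2 V)) (H.erase e) := by simp
  have e1 : {e} ∪ H.erase e = H := by
    rw [← insert_eq, insert_erase he]
  conv_lhs => rw [← e1]
  rw [Ex_union hd]
  have : ({e} : Finset (Sym2 V)).powerset = {∅, {e}} := by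
    ext x; simp [subset_singleton_iff]
  rw [Ex, this, sum_pair (by simp)]
  have h1 : wt p {e} {e} = p := by simp [wt]
  have h2 : wt p {e} ∅ = 1 - p := by simp [wt]
  rw [h1, h2, add_comm]
  simp only [empty_union]
  rfl

/-- the one edge flip identity. -/
lemma Ex_flip {p : ℝ} {H : Finset (Sym2 V)} {e : Sym2 V} (he : e ∈ H)
    (G : Finset (Sym2 V) → ℝ) :
    (1 - p) * Ex p H (fun ω => ind (e ∈ ω) * G ω)
      = p * Ex p H (fun ω => ind (e ∉ ω) * G (insert e ω)) := by
  rw [Ex_erase he, Ex_erase he]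
  have h1 : Ex p (H.erase e) (fun ω => ind (e ∈ insert e ω) * G (insert e ω))
      = Ex p (H.erase e) (fun ω => G (insert e ω)) := Ex_congr fun ω hω => by simp
  have h2 : Ex p (H.erase e) (fun ω => ind (e ∈ ω) * G ω) = 0 := by
    rw [← Ex_zero p (H.erase e)]
    refine Ex_congr fun ω hω => ?_
    rw [ind_false (fun h => (mem_erase.1 (hω h)).1 rfl), zero_mul]
  have h3 : Ex p (H.erase e) (fun ω => ind (e ∉ insert e ω) * G (insert e (insert e ω))) = 0 := by
    rw [← Ex_zero p (H.erase e)]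
    refine Ex_congr fun ω hω => ?_
    rw [ind_false (by simp), zero_mul]
  have h4 : Ex p (H.erase e) (fun ω => ind (e ∉ ω) * G (insert e ω))
      = Ex p (H.erase e) (fun ω => G (insert e ω)) := Ex_congr fun ω hω => by
    rw [ind_true (fun h => (mem_erase.1 (hω h)).1 rfl), one_mul]
  rw [h1, h2, h3, h4]
  ring

/-! ### connectivity and clusters -/

/-- `x` and `y` are joined by edges of `ω`. -/
def Conn (ω : Finset (Sym2 V)) : V → V → Prop := Relation.ReflTransGen (fun a b => s(a, b) ∈ ω)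

lemma Conn.refl (ω : Finset (Sym2 V)) (x : V) : Conn ω x x := Relation.ReflTransGen.refl

lemma Conn.trans {ω : Finset (Sym2 V)} {x y z : V} (h : Conn ω x y) (h' : Conn ω y z) :
    Conn ω x z := Relation.ReflTransGen.trans h h'

lemma Conn.edge {ω : Finset (Sym2 V)} {x y : V} (h : s(x, y) ∈ ω) : Conn ω x y :=
  Relation.ReflTransGen.single h

lemma Conn.tail {ω : Finset (Sym2 V)} {x y z : V} (h : Conn ω x y) (h' : s(y, z) ∈ ω) :
    Conn ω x z := Relation.ReflTransGen.tail h h'

lemma Conn.symm {ω : Finset (Sym2 V)} {x y : V} (h : Conn ω x y) : Conn ω y x := by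
  induction h with
  | refl => exact Conn.refl _ _
  | tail _ h2 ih => exact (Conn.edge (by rwa [Sym2.eq_swap])).trans ih

lemma Conn.mono {ω ω' : Finset (Sym2 V)} (h : ω ⊆ ω') {x y : V} (hc : Conn ω x y) :
    Conn ω' x y := by
  induction hc with
  | refl => exact Conn.refl _ _
  | tail _ h2 ih => exact ih.tail (h h2)

/-- the bridge lemma. -/
lemma Conn.insert_cases {ω : Finset (Sym2 V)} {u v x y : V} (h : Conn (insert s(u, v) ω) x y) :
    Conn ω x y ∨ (Conn ω x u ∧ Conn ω v y) ∨ (Conn ω x v ∧ Conn ω u y) := by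
  induction h with
  | refl => exact Or.inl (Conn.refl _ _)
  | @tail b c _ h2 ih =>
    rcases mem_insert.1 h2 with h3 | h3
    · rw [Sym2.eq_iff] at h3
      rcases h3 with ⟨rfl, rfl⟩ | ⟨rfl, rfl⟩
      · rcases ih with h | ⟨h, h'⟩ | ⟨h, h'⟩
        · exact Or.inr (Or.inl ⟨h, Conn.refl _ _⟩)
        · exact Or.inr (Or.inl ⟨h, Conn.refl _ _⟩)
        · exact Or.inl h
      · rcases ih with h | ⟨h, h'⟩ | ⟨h, h'⟩
        · exact Or.inr (Or.inr ⟨h, Conn.refl _ _⟩)
        · exact Or.inl h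
        · exact Or.inr (Or.inr ⟨h, Conn.refl _ _⟩)
    · rcases ih with h | ⟨h, h'⟩ | ⟨h, h'⟩
      · exact Or.inl (h.tail h3)
      · exact Or.inr (Or.inl ⟨h, h'.tail h3⟩)
      · exact Or.inr (Or.inr ⟨h, h'.tail h3⟩)

lemma Conn.erase_cases {ω : Finset (Sym2 V)} {u v x y : V} (h : Conn ω x y) :
    Conn (ω.erase s(u, v)) x y ∨ (Conn (ω.erase s(u, v)) x u ∧ Conn (ω.erase s(u, v)) v y) ∨
      (Conn (ω.erase s(u, v)) x v ∧ Conn (ω.erase s(u, v)) u y) :=
  Conn.insert_cases (h.mono (fun e he => by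
    by_cases h1 : e = s(u, v)
    · rw [h1]; exact mem_insert_self _ _
    · exact mem_insert_of_mem (mem_erase.2 ⟨h1, he⟩)))

/-- endpoints of the edges of `ω`. -/
def vs (ω : Finset (Sym2 V)) : Finset V := ω.biUnion fun e => e.toFinset

lemma mem_vs {ω : Finset (Sym2 V)} {x : V} : x ∈ vs ω ↔ ∃ e ∈ ω, x ∈ e := by
  simp [vs]

/-- the cluster of `x` -/
def cl (ω : Finset (Sym2 V)) (x : V) : Finset V := (insert x (vs ω)).filter (fun y => Conn ω x y)

@[simp] lemma mem_cl {ω : Finset (Sym2 V)} {x y : V} : y ∈ cl ω x ↔ Conn ω x y := by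
  rw [cl, mem_filter, and_iff_right_iff_imp]
  intro h
  rcases Relation.ReflTransGen.cases_tail h with h | ⟨z, _, h⟩
  · rw [h]; exact mem_insert_self _ _
  · exact mem_insert_of_mem (mem_vs.2 ⟨_, h, Sym2.mem_mk_right _ _⟩)

lemma self_mem_cl (ω : Finset (Sym2 V)) (x : V) : x ∈ cl ω x := mem_cl.2 (Conn.refl _ _)

lemma cl_pos (ω : Finset (Sym2 V)) (x : V) : 0 < #(cl ω x) := card_pos.2 ⟨x, self_mem_cl ω x⟩

lemma cl_mono {ω ω' : Finset (Sym2 V)} (h : ω ⊆ ω') (x : V) : cl ω x ⊆ cl ω' x :=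
  fun _ hy => mem_cl.2 ((mem_cl.1 hy).mono h)

lemma cl_eq_of_mem {ω : Finset (Sym2 V)} {x y : V} (h : y ∈ cl ω x) : cl ω y = cl ω x := by
  ext z
  rw [mem_cl, mem_cl]
  rw [mem_cl] at h
  exact ⟨fun h' => h.trans h', fun h' => h.symm.trans h'⟩

lemma mem_cl_comm {ω : Finset (Sym2 V)} {x y : V} : y ∈ cl ω x ↔ x ∈ cl ω y := by
  rw [mem_cl, mem_cl]; exact ⟨Conn.symm, Conn.symm⟩

/-- edges of `H` touching `S` -/
def tch (H : Finset (Sym2 V)) (S : Finset V) : Finset (Sym2 V) := H.filter fun e => ∃ v ∈ S, v ∈ e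

/-- edges of `H` not touching `S` -/
def off (H : Finset (Sym2 V)) (S : Finset V) : Finset (Sym2 V) := H.filter fun e => ∀ v ∈ S, v ∉ e

lemma mem_tch {H : Finset (Sym2 V)} {S : Finset V} {e : Sym2 V} :
    e ∈ tch H S ↔ e ∈ H ∧ ∃ v ∈ S, v ∈ e := mem_filter
lemma mem_off {H : Finset (Sym2 V)} {S : Finset V} {e : Sym2 V} :
    e ∈ off H S ↔ e ∈ H ∧ ∀ v ∈ S, v ∉ e := mem_filter

lemma tch_subset (H : Finset (Sym2 V)) (S : Finset V) : tch H S ⊆ H := filter_subset _ _
lemma off_subset (H : Finset (Sym2 V)) (S : Finset V) : off H S ⊆ H := filter_subset _ _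

lemma disjoint_tch_off (H : Finset (Sym2 V)) (S : Finset V) : Disjoint (tch H S) (off H S) := by
  rw [Finset.disjoint_left]
  intro e h1 h2
  obtain ⟨v, hv, hve⟩ := (mem_tch.1 h1).2
  exact (mem_off.1 h2).2 v hv hve

lemma tch_union_off (H : Finset (Sym2 V)) (S : Finset V) : tch H S ∪ off H S = H := by
  ext e
  rw [mem_union, mem_tch, mem_off]
  constructor
  · rintro (h | h) <;> exact h.1
  · intro h
    by_cases h' : ∃ v ∈ S, v ∈ e
    · exact Or.inl ⟨h, h'⟩
    · push Not at h'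
      exact Or.inr ⟨h, h'⟩

lemma off_off (H : Finset (Sym2 V)) (S T : Finset V) : off (off H S) T = off H (S ∪ T) := by
  ext e
  simp only [mem_off, mem_union]
  constructor
  · rintro ⟨⟨h1, h2⟩, h3⟩
    exact ⟨h1, fun v hv => hv.elim (h2 v) (h3 v)⟩
  · rintro ⟨h1, h2⟩
    exact ⟨⟨h1, fun v hv => h2 v (Or.inl hv)⟩, fun v hv => h2 v (Or.inr hv)⟩

lemma off_anti (H : Finset (Sym2 V)) {S T : Finset V} (h : S ⊆ T) : off H T ⊆ off H S := by
  intro e he
  rw [mem_off] at he ⊢
  exact ⟨he.1, fun v hv => he.2 v (h hv)⟩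

/-- a set `S` is closed in `a` if no edge of `a` leaves it. Locality of clusters. -/
lemma cl_union_off_iff {H a b : Finset (Sym2 V)} {S : Finset V} {x : V} 
    (hb : b ⊆ off H S) : cl (a ∪ b) x = S ↔ cl a x = S := by
  constructor
  · intro h
    refine subset_antisymm ?_ ?_
    · rw [← h]; exact cl_mono subset_union_left x
    · intro y hy
      rw [← h, mem_cl] at hy
      rw [mem_cl]
      induction hy with
      | refl => exact Conn.refl _ _
      | @tail c d h1 h2 ih =>
        have hc : c ∈ S := by rw [← h, mem_cl]; exact h1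
        rcases mem_union.1 h2 with h3 | h3
        · exact ih.tail h3
        · exact absurd (Sym2.mem_mk_left c d) ((mem_off.1 (hb h3)).2 c hc)
  · intro h
    refine subset_antisymm ?_ ?_
    · intro y hy
      rw [mem_cl] at hy
      induction hy with
      | refl => rw [← h]; exact self_mem_cl _ _
      | @tail c d h1 h2 ih =>
        rcases mem_union.1 h2 with h3 | h3
        · rw [← h, mem_cl] at ih ⊢
          exact ih.tail h3
        · exact absurd (Sym2.mem_mk_left c d) ((mem_off.1 (hb h3)).2 c ih)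
    · rw [← h]; exact cl_mono subset_union_left x

/-- Outside a cluster, only the edges off the cluster matter. -/
lemma cl_union_of_not_mem {H a b : Finset (Sym2 V)} {S : Finset V} {x y : V}
    (ha : a ⊆ tch H S) (h : cl a x = S) (hy : y ∉ S) : cl (a ∪ b) y = cl b y ∨ 
    ∃ e ∈ b, ∃ v ∈ S, v ∈ e := by
  by_cases hb : ∃ e ∈ b, ∃ v ∈ S, v ∈ e
  · exact Or.inr hb
  · left
    push Not at hb
    refine subset_antisymm ?_ (cl_mono subset_union_right y)
    intro z hz
    rw [mem_cl] at hz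
    have key : z ∉ S ∧ z ∈ cl b y := by
      induction hz with
      | refl => exact ⟨hy, self_mem_cl _ _⟩
      | @tail c d h1 h2 ih =>
        rcases mem_union.1 h2 with h3 | h3
        · exfalso
          obtain ⟨v, hv, hve⟩ := (mem_tch.1 (ha h3)).2
          rw [Sym2.mem_iff] at hve
          rcases hve with rfl | rfl
          · exact ih.1 hv
          · apply ih.1
            rw [← h, mem_cl] at hv ⊢
            exact hv.tail (by rwa [Sym2.eq_swap])
        · refine ⟨fun hd => hb _ h3 d hd (Sym2.mem_mk_right _ _), ?_⟩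
          rw [mem_cl] at *
          exact ih.2.tail h3
    exact key.2

/-- restricting to edges off the cluster of `x` does not change the clusters of other vertices -/
lemma cl_off_eq {H ω : Finset (Sym2 V)} (hω : ω ⊆ H) {x y : V} (hy : y ∉ cl ω x) :
    cl (ω ∩ off H (cl ω x)) y = cl ω y := by
  refine subset_antisymm (cl_mono inter_subset_left y) ?_
  intro z hz
  rw [mem_cl] at hz
  have key : z ∉ cl ω x ∧ z ∈ cl (ω ∩ off H (cl ω x)) y := by
    induction hz with
    | refl => exact ⟨hy, self_mem_cl _ _⟩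
    | @tail c d h1 h2 ih =>
      have hd : d ∉ cl ω x := fun hd => ih.1 (by
        rw [mem_cl] at hd ⊢; exact hd.tail (by rwa [Sym2.eq_swap]))
      refine ⟨hd, ?_⟩
      have ih2 := ih.2
      rw [mem_cl] at ih2 ⊢
      refine ih2.tail (mem_inter.2 ⟨h2, mem_off.2 ⟨hω h2, ?_⟩⟩)
      intro v hv hve
      rw [Sym2.mem_iff] at hve
      rcases hve with rfl | rfl
      · exact ih.1 hv
      · exact hd hv
  exact key.2

lemma cl_union_of_not_mem' {H a b : Finset (Sym2 V)} {S : Finset V} {x y : V}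
    (ha : a ⊆ tch H S) (hb : b ⊆ off H S) (h : cl a x = S) (hy : y ∉ S) :
    cl (a ∪ b) y = cl b y := by
  rcases cl_union_of_not_mem (b := b) ha h hy with h | ⟨e, he, v, hv, hve⟩
  · exact h
  · exact absurd hve ((mem_off.1 (hb he)).2 v hv)

lemma cl_inter_tch {H ω : Finset (Sym2 V)} (hω : ω ⊆ H) (x : V) :
    cl (ω ∩ tch H (cl ω x)) x = cl ω x := by
  have e : (ω ∩ tch H (cl ω x)) ∪ (ω ∩ off H (cl ω x)) = ω := by
    rw [← inter_union_distrib_left, tch_union_off, inter_eq_left.2 hω]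
  have := (cl_union_off_iff (H := H) (a := ω ∩ tch H (cl ω x)) (b := ω ∩ off H (cl ω x))
    (S := cl ω x) (x := x) inter_subset_right).1 (by rw [e])
  exact this

lemma cl_mix_self {H ω η : Finset (Sym2 V)} {x : V} (hω : ω ⊆ H) (hη : η ⊆ off H (cl ω x)) :
    cl ((ω ∩ tch H (cl ω x)) ∪ η) x = cl ω x :=
  (cl_union_off_iff hη).2 (cl_inter_tch hω x)

lemma cl_mix_other {H ω η : Finset (Sym2 V)} {x y : V} (hω : ω ⊆ H)
    (hη : η ⊆ off H (cl ω x)) (hy : y ∉ cl ω x) :
    cl ((ω ∩ tch H (cl ω x)) ∪ η) y = cl η y :=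
  cl_union_of_not_mem' inter_subset_right hη (cl_inter_tch hω x) hy

/-- expectation of a function of the cluster of `x` and of the edges touching it. -/
theorem Ex_cluster (p : ℝ) (H : Finset (Sym2 V)) (x : V)
    (Φ : Finset V → Finset (Sym2 V) → ℝ) :
    Ex p H (fun ω => Φ (cl ω x) (ω ∩ tch H (cl ω x)))
      = ∑ S ∈ H.powerset.image (fun ω => cl ω x),
          Ex p (tch H S) (fun a => ind (cl a x = S) * Φ S a) := by
  set I := H.powerset.image (fun ω => cl ω x) with hI
  have split : ∀ F : Finset (Sym2 V) → ℝ,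
      Ex p H F = ∑ S ∈ I, Ex p H (fun ω => ind (cl ω x = S) * F ω) := by
    intro F
    rw [← Ex_sum]
    refine Ex_congr fun ω hω => ?_
    rw [← Finset.sum_mul]
    have : ∑ S ∈ I, ind (cl ω x = S) = 1 := by
      rw [Finset.sum_eq_single (cl ω x)]
      · simp
      · intro S _ hS; exact ind_false (fun h => hS h.symm)
      · intro h; exact absurd (mem_image.2 ⟨ω, mem_powerset.2 hω, rfl⟩) h
    rw [this, one_mul]
  rw [split]
  refine Finset.sum_congr rfl fun S _ => ?_
  have hd := disjoint_tch_off H S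
  have e := tch_union_off H S
  have R1 : Ex p H (fun ω => ind (cl ω x = S) * Φ (cl ω x) (ω ∩ tch H (cl ω x)))
        = Ex p H (fun ω => ind (cl ω x = S) * Φ S (ω ∩ tch H S)) := by
      refine Ex_congr fun ω _ => ?_
      by_cases h : cl ω x = S
      · rw [h]
      · rw [ind_false h, zero_mul, zero_mul]
  rw [R1]
  conv_lhs => rw [← e]
  rw [Ex_union hd]
  refine Ex_congr fun a ha => ?_
  rw [← Ex_const p (off H S) (ind (cl a x = S) * Φ S a)]
  refine Ex_congr fun b hb => ?_
  rw [ind_congr (cl_union_off_iff (a := a) (b := b) (H := H) (S := S) (x := x) hb)]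
  have e2 : tch (tch H S ∪ off H S) S = tch H S := by rw [e]
  rw [e2, union_inter_distrib_right, inter_eq_left.2 ha,
      disjoint_iff_inter_eq_empty.1 (disjoint_of_subset_left hb hd.symm), union_empty]

/-- **Markov property**: given the cluster of `x`, the edges off the cluster are fresh. -/
theorem Ex_markov (p : ℝ) (H : Finset (Sym2 V)) (x : V) (G : Finset (Sym2 V) → ℝ) :
    Ex p H G = Ex p H (fun ω =>
      Ex p (off H (cl ω x)) (fun η => G ((ω ∩ tch H (cl ω x)) ∪ η))) := by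
  set I := H.powerset.image (fun ω => cl ω x) with hI
  have split : ∀ F : Finset (Sym2 V) → ℝ,
      Ex p H F = ∑ S ∈ I, Ex p H (fun ω => ind (cl ω x = S) * F ω) := by
    intro F
    rw [← Ex_sum]
    refine Ex_congr fun ω hω => ?_
    rw [← Finset.sum_mul]
    have : ∑ S ∈ I, ind (cl ω x = S) = 1 := by
      rw [Finset.sum_eq_single (cl ω x)]
      · simp
      · intro S _ hS; exact ind_false (fun h => hS h.symm)
      · intro h; exact absurd (mem_image.2 ⟨ω, mem_powerset.2 hω, rfl⟩) h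
    rw [this, one_mul]
  rw [split G, split (fun ω => Ex p (off H (cl ω x)) (fun η => G ((ω ∩ tch H (cl ω x)) ∪ η)))]
  refine Finset.sum_congr rfl fun S _ => ?_
  have hd := disjoint_tch_off H S
  have e := tch_union_off H S
  have L : Ex p H (fun ω => ind (cl ω x = S) * G ω)
      = Ex p (tch H S) (fun a => ind (cl a x = S) * Ex p (off H S) (fun b => G (a ∪ b))) := by
    conv_lhs => rw [← e]
    rw [Ex_union hd]
    refine Ex_congr fun a ha => ?_
    rw [← Ex_mul_left]
    refine Ex_congr fun b hb => ?_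
    rw [ind_congr (cl_union_off_iff (a := a) (b := b) (H := H) (S := S) (x := x) hb)]
  have R : Ex p H (fun ω => ind (cl ω x = S) *
        Ex p (off H (cl ω x)) (fun η => G ((ω ∩ tch H (cl ω x)) ∪ η)))
      = Ex p (tch H S) (fun a => ind (cl a x = S) * Ex p (off H S) (fun b => G (a ∪ b))) := by
    have R1 : Ex p H (fun ω => ind (cl ω x = S) *
        Ex p (off H (cl ω x)) (fun η => G ((ω ∩ tch H (cl ω x)) ∪ η)))
        = Ex p H (fun ω => ind (cl ω x = S) *
        Ex p (off H S) (fun η => G ((ω ∩ tch H S) ∪ η))) := by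
      refine Ex_congr fun ω _ => ?_
      by_cases h : cl ω x = S
      · rw [h]
      · rw [ind_false h, zero_mul, zero_mul]
    rw [R1]
    conv_lhs => rw [← e]
    rw [Ex_union hd]
    refine Ex_congr fun a ha => ?_
    rw [← Ex_const p (off H S) (ind (cl a x = S) * Ex p (off H S) (fun b => G (a ∪ b)))]
    refine Ex_congr fun b hb => ?_
    rw [ind_congr (cl_union_off_iff (a := a) (b := b) (H := H) (S := S) (x := x) hb)]
    have e2 : tch (tch H S ∪ off H S) S = tch H S := by rw [e]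
    have e3 : off (tch H S ∪ off H S) S = off H S := by rw [e]
    congr 1
    rw [e2, e3]
    refine Ex_congr fun η _ => ?_
    congr 2
    rw [union_inter_distrib_right, inter_eq_left.2 ha,
      disjoint_iff_inter_eq_empty.1 (disjoint_of_subset_left hb hd.symm), union_empty]
  rw [L, R]

end

end H97.IIC
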