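import Pool.Agent.H97.IIC.Asm

/-!
# Lemma A, finite form
-/

open Finset
open scoped Classical

namespace H97.IIC

noncomputable section

variable {V : Type*}

lemma npiv_le_piv {ω : Finset (Sym2 V)} {x : V} {T : Set V} (h : Hit ω x T) :
    npiv ω x T ≤ #(piv ω x T) := by
  have hsub : (ω.filter fun e => ¬ Hit (ω.erase e) x T) ⊆
      (piv ω x T).image (fun e => s(e.1, e.2)) := by
    intro e he
    rw [mem_filter] at he
    obtain ⟨y, hy, hT⟩ := h
    rw [mem_cl] at hy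
    induction e using Sym2.ind with
    | _ a b =>
      rcases hy.erase_cases (u := a) (v := b) with h1 | ⟨h1, h2⟩ | ⟨h1, h2⟩
      · exact absurd ⟨y, mem_cl.2 h1, hT⟩ he.2
      · refine mem_image.2 ⟨(a, b), mem_piv.2 ⟨he.1, mem_cl.2 h1, ?_, he.2,
          ⟨y, mem_cl.2 h2, hT⟩⟩, rfl⟩
        intro hb
        exact he.2 ⟨y, mem_cl.2 ((mem_cl.1 hb).trans h2), hT⟩
      · have e1 : s(b, a) = s(a, b) := Sym2.eq_swap
        refine mem_image.2 ⟨(b, a), mem_piv.2 ?_, e1⟩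
        simp only
        refine ⟨by rw [e1]; exact he.1, by rw [e1]; exact mem_cl.2 h1, ?_, by rw [e1]; exact he.2,
          ⟨y, by rw [e1]; exact mem_cl.2 h2, hT⟩⟩
        rw [e1]
        intro hb
        exact he.2 ⟨y, mem_cl.2 ((mem_cl.1 hb).trans h2), hT⟩
  exact (card_le_card hsub).trans card_image_le

lemma piv_le_cl (ω : Finset (Sym2 V)) (x : V) (T : Set V) : #(piv ω x T) ≤ #(cl ω x) := by
  have h1 : #(piv ω x T) ≤ #(Finset.Icc 1 #(cl ω x)) := by
    apply card_le_card_of_injOn (fun e => #(Ls ω x e))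
    · intro e he
      rw [mem_coe, mem_piv] at he
      rw [mem_coe, Finset.mem_Icc]
      have := he.card_eq
      exact ⟨cl_pos _ _, by simp only; omega⟩
    · exact piv_injOn ω x T
  simpa using h1

lemma exists_theta (lam : ℝ) (hl : 0 ≤ lam) (d : ℕ) {c : ℝ} (hc : 0 < c) :
    ∃ θ : ℝ, 0 < θ ∧ θ ≤ 1/2 ∧ lam * θ ≤ 1/2 ∧ 2 * θ * (1 + lam ^ 2) * d ≤ c := by
  refine ⟨min (1/2) (min (1 / (2 * (lam + 1))) (c / (2 * (1 + lam ^ 2) * (d + 1)))), ?_,
    min_le_left _ _, ?_, ?_⟩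
  · apply lt_min (by norm_num)
    apply lt_min <;> positivity
  · have h1 := (min_le_right (1/2 : ℝ) _).trans (min_le_left (1 / (2 * (lam + 1)))
      (c / (2 * (1 + lam ^ 2) * (d + 1))))
    calc lam * _ ≤ lam * (1 / (2 * (lam + 1))) := mul_le_mul_of_nonneg_left h1 hl
      _ ≤ 1/2 := by
        rw [mul_one_div, div_le_div_iff₀ (by positivity) (by norm_num)]
        linarith
  · have h1 := (min_le_right (1/2 : ℝ) _).trans (min_le_right (1 / (2 * (lam + 1)))
      (c / (2 * (1 + lam ^ 2) * (d + 1))))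
    have hd : (0 : ℝ) ≤ d := Nat.cast_nonneg _
    calc 2 * _ * (1 + lam ^ 2) * d ≤ 2 * (c / (2 * (1 + lam ^ 2) * (d + 1))) * (1 + lam ^ 2) * d := by
          gcongr
      _ = c * (d / (d + 1)) := by field_simp
      _ ≤ c * 1 := by
          apply mul_le_mul_of_nonneg_left _ hc.le
          rw [div_le_one (by positivity)]; linarith
      _ = c := mul_one c

lemma exists_CProp {p : ℝ} (hp0 : 0 < p) (hp1 : p < 1) (d : ℕ) {κ : ℝ} (hκ : 0 < κ) :
    ∃ a : ℝ, 0 < a ∧ ∀ (H : Finset (Sym2 V)) (m : ℕ) (ε : ℝ), Deg H d → 0 < m →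
      (∀ H' ⊆ H, ∀ y, Ex p H' (fun ω => min 1 ((#(cl ω y) : ℝ) / m)) ≤ ε) →
      p / (1 - p) * d * ε ≤ κ / 2 → CProp p H m κ (2 * d * Real.exp (-(a * m))) := by
  have hl : 0 ≤ p / (1 - p) := div_nonneg hp0.le (by linarith)
  obtain ⟨θ, h0, h1, h2, h3⟩ := exists_theta (p / (1 - p)) hl d (show 0 < κ / 4 by positivity)
  refine ⟨θ * (κ / 4), by positivity, ?_⟩
  intro H m ε hd hm hε hle
  have hC := CProp_of hp0 hp1 (c := κ / 4) (ε := ε) hm (by positivity) hd hε h0.le h1 h2 h3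
  intro H' hH' w Y k
  refine (hC H' hH' w Y k).trans ?_
  apply mul_le_mul_of_nonneg_left _ (by positivity)
  apply add_le_add_left
  apply mul_le_mul_of_nonneg_right (by linarith)
  exact Ex_nonneg hp0.le hp1.le fun _ _ => mul_nonneg (ind_nonneg _) (ind_nonneg _)

/-- weight `1/s` on `s > m` -/
def gi (m : ℕ) (s : ℕ) : ℝ := if m < s then 1 / s else 0

lemma exists_size {p : ℝ} (hp0 : 0 < p) (hp1 : p < 1) (d : ℕ) {κ : ℝ} (hκ : 0 < κ) :
    ∃ a : ℝ, 0 < a ∧ ∀ (H : Finset (Sym2 V)) (x : V) (T : Set V) (m : ℕ) (ε : ℝ), Deg H d → 0 < m →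
      (∀ H' ⊆ H, ∀ y, Ex p H' (fun ω => min 1 ((#(cl ω y) : ℝ) / m)) ≤ ε) →
      p / (1 - p) * d * ε ≤ κ / 2 →
      Ex p H (fun ω => ind (Hit ω x T) * gi m #(cl ω x) * npiv ω x T)
        ≤ κ * PH p H x T + 2 * d * Real.exp (-(a * m)) := by
  have hl : 0 ≤ p / (1 - p) := div_nonneg hp0.le (by linarith)
  obtain ⟨θ, h0, h1, h2, h3⟩ := exists_theta (p / (1 - p)) hl d (show 0 < κ / 4 by positivity)
  refine ⟨θ * (κ / 4), by positivity, ?_⟩
  intro H x T m ε hd hm hε hle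
  have hm' : (0 : ℝ) < m := by exact_mod_cast hm
  have hg0 : ∀ s, 0 ≤ gi m s := by
    intro s; rw [gi]; split_ifs
    · positivity
    · exact le_rfl
  have hg1 : ∀ s : ℕ, gi m s * (s + m) ≤ 2 * 1 := by
    intro s
    rw [gi]
    split_ifs with h
    · have h' : (m : ℝ) < s := by exact_mod_cast h
      have hs : (0 : ℝ) < s := hm'.trans h'
      rw [div_mul_eq_mul_div, div_le_iff₀ hs]
      linarith
    · simp
  have hg2 : ∀ s y : ℕ, s * (gi m s - gi m (s + y)) ≤ 1 * min 1 ((y : ℝ) / m) := by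
    intro s y
    have hy : (0 : ℝ) ≤ (y : ℝ) / m := by positivity
    by_cases h : m < s
    · have h' : (m : ℝ) < s := by exact_mod_cast h
      have hs : (0 : ℝ) < s := hm'.trans h'
      have hy0 : (0 : ℝ) ≤ y := Nat.cast_nonneg _
      rw [gi, gi, if_pos h, if_pos (by omega), one_mul]
      have e1 : (s : ℝ) * (1 / s - 1 / ((s + y : ℕ) : ℝ)) = y / (s + y) := by
        push_cast; field_simp; ring
      rw [e1]
      refine le_min ?_ ?_
      · rw [div_le_one (by positivity)]; linarith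
      · exact div_le_div_of_nonneg_left hy0 hm' (by linarith)
    · have e1 : gi m s = 0 := if_neg h
      rw [e1]
      have h4 : s * (0 - gi m (s + y)) ≤ 0 :=
        mul_nonpos_of_nonneg_of_nonpos (Nat.cast_nonneg _) (by linarith [hg0 (s + y)])
      have h5 : (0 : ℝ) ≤ 1 * min 1 ((y : ℝ) / m) := by
        rw [one_mul]; exact le_min zero_le_one hy
      linarith
  have key := lemmaC hp0 hp1 (g := gi m) (Γ := 1) zero_le_one hm' (c := κ / 4) (by positivity)
    hg0 hg1 hg2 hd T x hε h0.le h1 h2 h3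
  refine key.trans ?_
  rw [one_mul]
  apply add_le_add_left
  have h5 : Ex p H (fun ω => ind (Hit ω x T) * ind (0 < gi m #(cl ω x))) ≤ PH p H x T :=
    Ex_mono hp0.le hp1.le fun ω _ => mul_le_of_le_one_right (ind_nonneg _) (ind_le_one _)
  have h6 : 0 ≤ Ex p H (fun ω => ind (Hit ω x T) * ind (0 < gi m #(cl ω x))) :=
    Ex_nonneg hp0.le hp1.le fun _ _ => mul_nonneg (ind_nonneg _) (ind_nonneg _)
  calc (2 * (κ / 4) + p / (1 - p) * d * ε) *
        Ex p H (fun ω => ind (Hit ω x T) * ind (0 < gi m #(cl ω x)))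
      ≤ κ * Ex p H (fun ω => ind (Hit ω x T) * ind (0 < gi m #(cl ω x))) :=
        mul_le_mul_of_nonneg_right (by linarith) h6
    _ ≤ _ := mul_le_mul_of_nonneg_left h5 hκ.le

/-- size control : lower bound for the probability of many pivots in a cluster of size `≤ m`. -/
lemma size_control {p : ℝ} (hp0 : 0 < p) (hp1 : p < 1) {H : Finset (Sym2 V)} (x : V) (T : Set V)
    (m : ℕ) {ε₀ : ℝ} (hε₀ : 0 < ε₀)
    (hbig : ε₀ * PH p H x T < Ex p H (fun ω => ind (Hit ω x T) * (npiv ω x T / #(cl ω x))))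
    (hsz : Ex p H (fun ω => ind (Hit ω x T) * gi m #(cl ω x) * npiv ω x T)
      ≤ ε₀ / 2 * PH p H x T) :
    ε₀ / 4 * PH p H x T ≤ Ex p H (fun ω => ind (Hit ω x T ∧ #(cl ω x) ≤ m ∧
      ε₀ / 4 * #(cl ω x) ≤ #(piv ω x T))) := by
  have h1 : Ex p H (fun ω => ind (Hit ω x T) * (npiv ω x T / #(cl ω x)))
      ≤ Ex p H (fun ω => ind (Hit ω x T) * gi m #(cl ω x) * npiv ω x T
        + (ε₀ / 4 * ind (Hit ω x T) + ind (Hit ω x T ∧ #(cl ω x) ≤ m ∧
      ε₀ / 4 * #(cl ω x) ≤ #(piv ω x T)))) := by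
    refine Ex_mono hp0.le hp1.le fun ω _ => ?_
    have hc : (0 : ℝ) < #(cl ω x) := by exact_mod_cast cl_pos ω x
    by_cases hh : Hit ω x T
    swap
    · rw [ind_false hh, ind_false (P := Hit ω x T ∧ _) (fun h => hh h.1)]
      simp
    rw [ind_true hh, one_mul, one_mul, mul_one]
    have hi := ind_nonneg (Hit ω x T ∧ #(cl ω x) ≤ m ∧ ε₀ / 4 * #(cl ω x) ≤ #(piv ω x T))
    by_cases hm : m < #(cl ω x)
    · rw [gi, if_pos hm]
      have : (npiv ω x T : ℝ) / #(cl ω x) = 1 / #(cl ω x) * npiv ω x T := by ring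
      rw [this]
      linarith
    · have hgi : gi m #(cl ω x) = 0 := if_neg hm
      rw [hgi, zero_mul, zero_add]
      by_cases hp : ε₀ / 4 * #(cl ω x) ≤ #(piv ω x T)
      · rw [ind_true ⟨hh, not_lt.1 hm, hp⟩]
        have h2 : (npiv ω x T : ℝ) / #(cl ω x) ≤ 1 := by
          rw [div_le_one hc]
          exact_mod_cast (npiv_le_piv hh).trans (piv_le_cl ω x T)
        linarith
      · push Not at hp
        have h2 : (npiv ω x T : ℝ) / #(cl ω x) ≤ ε₀ / 4 := by
          rw [div_le_iff₀ hc]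
          have : (npiv ω x T : ℝ) ≤ #(piv ω x T) := by exact_mod_cast npiv_le_piv hh
          linarith
        linarith
  rw [Ex_add, Ex_add, Ex_mul_left] at h1
  have h2 : Ex p H (fun ω => ind (Hit ω x T)) = PH p H x T := rfl
  rw [h2] at h1
  have h3 : 0 ≤ PH p H x T := Ex_nonneg hp0.le hp1.le fun _ _ => ind_nonneg _
  nlinarith

end

end H97.IIC
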