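import Pool.Agent.H97.IIC.OP

/-!
# Lemma P
-/

open Finset
open scoped Classical

namespace H97.IIC

noncomputable section

variable {V : Type*}

/-- direct part of the two-sided connection functional -/
def T2a (H : Finset (Sym2 V)) (L R : Finset V) : ℝ := ∑ e ∈ bd H L, ind (e.2 ∈ R)

/-- summand of the indirect part -/
def Th (p : ℝ) (H : Finset (Sym2 V)) (T : Set V) (L R : Finset V) (e f : V × V) : ℝ :=
  ind (e.2 ∉ R) * (ind (f.1 ∉ R) * Ex p (off (off H L) R) (fun ζ =>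
    ind (f.1 ∈ cl ζ e.2) * ind (¬ Hit ζ e.2 T)))

/-- indirect part -/
def T2b (p : ℝ) (H : Finset (Sym2 V)) (T : Set V) (L R : Finset V) : ℝ :=
  ∑ e ∈ bd H L, ∑ f ∈ dt (off H L), ind (f.2 ∈ R) * Th p H T L R e f

/-- two-sided connection functional -/
def T2 (p : ℝ) (H : Finset (Sym2 V)) (T : Set V) (L R : Finset V) : ℝ :=
  T2a H L R + T2b p H T L R

lemma Th_nonneg {p : ℝ} (hp0 : 0 ≤ p) (hp1 : p ≤ 1) (H : Finset (Sym2 V)) (T : Set V)
    (L R : Finset V) (e f : V × V) : 0 ≤ Th p H T L R e f := by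
  apply mul_nonneg (ind_nonneg _) (mul_nonneg (ind_nonneg _) (Ex_nonneg hp0 hp1 fun ζ _ =>
    mul_nonneg (ind_nonneg _) (ind_nonneg _)))

lemma T2a_nonneg (H : Finset (Sym2 V)) (L R : Finset V) : 0 ≤ T2a H L R :=
  Finset.sum_nonneg fun _ _ => ind_nonneg _

lemma T2b_nonneg {p : ℝ} (hp0 : 0 ≤ p) (hp1 : p ≤ 1) (H : Finset (Sym2 V)) (T : Set V)
    (L R : Finset V) : 0 ≤ T2b p H T L R :=
  Finset.sum_nonneg fun _ _ => Finset.sum_nonneg fun _ _ =>
    mul_nonneg (ind_nonneg _) (Th_nonneg hp0 hp1 _ _ _ _ _ _)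

/-- `T` is far from `L`. -/
def Far (H : Finset (Sym2 V)) (T : Set V) (s : ℕ) (L : Finset V) : Prop :=
  ∀ e ∈ bd H L, ∀ ζ ⊆ off H L, Hit ζ e.2 T → s < #(cl ζ e.2)

lemma card_dt_root_le {E : Finset (Sym2 V)} {d : ℕ} (hd : Deg E d) (R : Finset V) :
    #((dt E).filter fun f => f.2 ∈ R ∧ f.1 ∉ R) ≤ d * #R := by
  refine le_trans ?_ (card_bd_le hd R)
  apply card_le_card_of_injOn (fun f => (f.2, f.1))
  · rintro ⟨a, b⟩ h
    rw [mem_coe, mem_filter, mem_dt] at h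
    rw [mem_coe, mem_bd, Sym2.eq_swap]
    exact ⟨h.2.1, h.2.2, h.1⟩
  · rintro ⟨a, b⟩ _ ⟨a', b'⟩ _ h
    simp only [Prod.mk.injEq] at h ⊢
    exact ⟨h.2, h.1⟩

/-- change of root -/
lemma root_swap {ι : Type*} {E η : Finset (Sym2 V)} {d m : ℕ} (hd : Deg E d) (I : Finset ι)
    (y : ι → V) (P : Finset V → Prop) (hP : ∀ R, P R → #R ≤ m) (Θ : Finset V → ι → ℝ)
    (hΘ : ∀ R i, 0 ≤ Θ R i) :
    ∑ f ∈ dt E, ind (f.1 ∉ cl η f.2) * (ind (P (cl η f.2)) *
        ∑ i ∈ I, ind (y i ∈ cl η f.2) * Θ (cl η f.2) i)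
      ≤ d * m * ∑ i ∈ I, ind (P (cl η (y i))) * Θ (cl η (y i)) i := by
  simp only [mul_sum]
  rw [sum_comm]
  refine Finset.sum_le_sum fun i _ => ?_
  have h1 : ∀ f ∈ dt E, ind (f.1 ∉ cl η f.2) * (ind (P (cl η f.2)) *
        (ind (y i ∈ cl η f.2) * Θ (cl η f.2) i))
      = if (f.2 ∈ cl η (y i) ∧ f.1 ∉ cl η (y i)) then
          ind (P (cl η (y i))) * Θ (cl η (y i)) i else 0 := by
    intro f _
    by_cases hy : y i ∈ cl η f.2
    · have h2 : cl η (y i) = cl η f.2 := cl_eq_of_mem hy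
      rw [h2, ind_true hy]
      have h3 : f.2 ∈ cl η f.2 := self_mem_cl _ _
      by_cases h4 : f.1 ∉ cl η f.2
      · rw [ind_true h4, if_pos ⟨h3, h4⟩]; ring
      · rw [ind_false h4, if_neg (fun hh => h4 hh.2)]; ring
    · rw [ind_false hy, if_neg (fun hh => hy (mem_cl_comm.1 hh.1))]; ring
  rw [Finset.sum_congr rfl h1, ← sum_filter, sum_const, nsmul_eq_mul]
  by_cases hP' : P (cl η (y i))
  · have h2 : #((dt E).filter fun f => f.2 ∈ cl η (y i) ∧ f.1 ∉ cl η (y i)) ≤ d * m :=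
      (card_dt_root_le hd _).trans (Nat.mul_le_mul_left d (hP _ hP'))
    have h3 : (#((dt E).filter fun f => f.2 ∈ cl η (y i) ∧ f.1 ∉ cl η (y i)) : ℝ) ≤ d * m := by
      exact_mod_cast h2
    apply mul_le_mul_of_nonneg_right h3
    exact mul_nonneg (ind_nonneg _) (hΘ _ _)
  · rw [ind_false hP']; simp

lemma sum_ind_eq_card {ι : Type*} (s : Finset ι) (P : ι → Prop) [DecidablePred P] :
    ∑ i ∈ s, ind (P i) = #(s.filter P) := by
  rw [card_filter, Nat.cast_sum]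
  refine Finset.sum_congr rfl fun e _ => ?_
  by_cases h : P e
  · rw [ind_true h, if_pos h]; simp
  · rw [ind_false h, if_neg h]; simp

lemma cl_bfr {E η : Finset (Sym2 V)} {b : V} {T : Set V} {f : V × V} (hη : η ⊆ E)
    (h : Pv η b T f.1 f.2) : cl (bfr E η f) b = Ls η b f := by
  rw [bfr]
  apply cl_off_of_Clo ((erase_subset _ _).trans hη) (Clo_cl _ _)
  intro hh
  exact h.snd_not_mem (mem_cl_comm.1 hh)

/-- counting pairs of pivots with small middle part -/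
lemma Ex_pairs_mid_le {p : ℝ} (hp0 : 0 ≤ p) (hp1 : p ≤ 1) (H : Finset (Sym2 V)) (x : V)
    (T : Set V) (m s : ℕ) :
    Ex p H (fun ω => ∑ e ∈ piv ω x T, ∑ f ∈ piv (aft H ω x e) e.2 T,
        ind (#(Ls ω x e) ≤ m) * ind (#(cl (bfr (off H (Ls ω x e)) (aft H ω x e) f) e.2) ≤ s))
      ≤ m * s * PH p H x T := by
  have h1 : Ex p H (fun ω => ∑ e ∈ piv ω x T, ∑ f ∈ piv (aft H ω x e) e.2 T,
        ind (#(Ls ω x e) ≤ m) * ind (#(cl (bfr (off H (Ls ω x e)) (aft H ω x e) f) e.2) ≤ s))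
      ≤ Ex p H (fun ω => s * ∑ e ∈ piv ω x T, ind (#(Ls ω x e) ≤ m)) := by
    refine Ex_mono hp0 hp1 fun ω hω => ?_
    rw [mul_sum]
    refine Finset.sum_le_sum fun e he => ?_
    rw [← mul_sum, mul_comm (s : ℝ)]
    apply mul_le_mul_of_nonneg_left _ (ind_nonneg _)
    have h2 : ∑ f ∈ piv (aft H ω x e) e.2 T,
        ind (#(cl (bfr (off H (Ls ω x e)) (aft H ω x e) f) e.2) ≤ s)
        = ∑ f ∈ piv (aft H ω x e) e.2 T, ind (#(Ls (aft H ω x e) e.2 f) ≤ s) := by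
      refine Finset.sum_congr rfl fun f hf => ?_
      rw [cl_bfr aft_subset (mem_piv.1 hf)]
    rw [h2, sum_ind_eq_card]
    have h3 := piv_card_L_le (aft H ω x e) e.2 T s
    refine Nat.cast_le.2 ?_
    convert h3
  refine h1.trans ?_
  rw [Ex_mul_left]
  have := mul_le_mul_of_nonneg_left (Ex_piv_L_le hp0 hp1 H x T m) (Nat.cast_nonneg (α := ℝ) s)
  refine this.trans (le_of_eq ?_)
  ring

/-- counting pairs of pivots -/
lemma Ex_pairs_le {p : ℝ} (hp0 : 0 ≤ p) (hp1 : p ≤ 1) (H : Finset (Sym2 V)) (x : V)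
    (T : Set V) (m : ℕ) :
    Ex p H (fun ω => ∑ e ∈ piv ω x T, ∑ f ∈ piv (aft H ω x e) e.2 T,
        ind (#(Ls ω x e) ≤ m) * ind (#(Rs (aft H ω x e) f) ≤ m))
      ≤ m * m * PH p H x T := by
  have h1 : Ex p H (fun ω => ∑ e ∈ piv ω x T, ∑ f ∈ piv (aft H ω x e) e.2 T,
        ind (#(Ls ω x e) ≤ m) * ind (#(Rs (aft H ω x e) f) ≤ m))
      ≤ Ex p H (fun ω => m * ∑ e ∈ piv ω x T, ind (#(Ls ω x e) ≤ m)) := by
    refine Ex_mono hp0 hp1 fun ω hω => ?_
    rw [mul_sum]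
    refine Finset.sum_le_sum fun e he => ?_
    rw [← mul_sum, mul_comm (m : ℝ)]
    apply mul_le_mul_of_nonneg_left _ (ind_nonneg _)
    rw [sum_ind_eq_card]
    have h3 := piv_card_R_le (aft H ω x e) e.2 T m
    refine Nat.cast_le.2 ?_
    convert h3
  refine h1.trans ?_
  rw [Ex_mul_left]
  have := mul_le_mul_of_nonneg_left (Ex_piv_L_le hp0 hp1 H x T m) (Nat.cast_nonneg (α := ℝ) m)
  refine this.trans (le_of_eq ?_)
  ring

/-- first moment of `T2` -/
theorem Ex_T2_le {p : ℝ} (hp0 : 0 < p) (hp1 : p < 1) {H : Finset (Sym2 V)} {d : ℕ}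
    (hd : Deg H d) (x : V) (T : Set V) (m : ℕ) :
    p ^ 2 * Ex p H (fun ω => ind (¬ Hit ω x T) * (ind (#(cl ω x) ≤ m) *
        Ex p (off H (cl ω x)) (fun η => ∑ f ∈ dt (off H (cl ω x)), ind (f.1 ∉ cl η f.2) *
          (ind (Hit η f.2 T ∧ #(cl η f.2) ≤ m) * T2 p H T (cl ω x) (cl η f.2)))))
      ≤ (d * m) * (1 - p) * (m + m * m) * PH p H x T := by
  have hq : 0 < 1 - p := by linarith
  -- pointwise change of root
  have h1 : ∀ L : Finset V, ∀ η ⊆ off H L,
      ∑ f ∈ dt (off H L), ind (f.1 ∉ cl η f.2) *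
          (ind (Hit η f.2 T ∧ #(cl η f.2) ≤ m) * T2 p H T L (cl η f.2))
      ≤ d * m * (∑ e ∈ bd H L, ind (Hit η e.2 T ∧ #(cl η e.2) ≤ m)
        + ∑ e ∈ bd H L, ∑ f ∈ dt (off H L), ind (Hit η f.2 T ∧ #(cl η f.2) ≤ m) *
          Th p H T L (cl η f.2) e f) := by
    intro L η hη
    have hdE : Deg (off H L) d := hd.mono (off_subset _ _)
    set P : Finset V → Prop := fun R => (∃ y ∈ R, y ∈ T) ∧ #R ≤ m with hP
    have hPm : ∀ R, P R → #R ≤ m := fun R h => h.2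
    have ha := root_swap (η := η) hdE (bd H L) (fun e => e.2) P hPm (fun _ _ => 1)
      (fun _ _ => zero_le_one)
    have hb := root_swap (η := η) hdE ((bd H L) ×ˢ (dt (off H L))) (fun i => i.2.2) P hPm
      (fun R i => Th p H T L R i.1 i.2) (fun R i => Th_nonneg hp0.le hp1.le _ _ _ _ _ _)
    have e1 : ∀ f : V × V, ind (f.1 ∉ cl η f.2) *
          (ind (Hit η f.2 T ∧ #(cl η f.2) ≤ m) * T2 p H T L (cl η f.2))
        = ind (f.1 ∉ cl η f.2) * (ind (P (cl η f.2)) *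
            ∑ e ∈ bd H L, ind (e.2 ∈ cl η f.2) * 1)
          + ind (f.1 ∉ cl η f.2) * (ind (P (cl η f.2)) *
            ∑ i ∈ (bd H L) ×ˢ (dt (off H L)), ind (i.2.2 ∈ cl η f.2) *
              Th p H T L (cl η f.2) i.1 i.2) := by
      intro f
      rw [T2, T2a, T2b, sum_product]
      simp only [mul_one, hP, Hit]
      ring
    rw [Finset.sum_congr rfl fun f _ => e1 f, sum_add_distrib]
    refine (add_le_add ha hb).trans (le_of_eq ?_)
    rw [sum_product, mul_add]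
    simp only [mul_one, hP, Hit]
  have h2 : Ex p H (fun ω => ind (¬ Hit ω x T) * (ind (#(cl ω x) ≤ m) *
        Ex p (off H (cl ω x)) (fun η => ∑ f ∈ dt (off H (cl ω x)), ind (f.1 ∉ cl η f.2) *
          (ind (Hit η f.2 T ∧ #(cl η f.2) ≤ m) * T2 p H T (cl ω x) (cl η f.2)))))
      ≤ d * m * (Ex p H (fun ω => ind (¬ Hit ω x T) * ∑ e ∈ bd H (cl ω x),
          Ex p (off H (cl ω x)) (fun η => ind (Hit η e.2 T) * ind (#(cl ω x) ≤ m)))
        + Ex p H (fun ω => ind (¬ Hit ω x T) * ∑ e ∈ bd H (cl ω x),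
          Ex p (off H (cl ω x)) (fun η => ∑ f ∈ dt (off H (cl ω x)),
            ind (f.1 ∉ cl η f.2) * (ind (e.2 ∉ cl η f.2) * (ind (Hit η f.2 T) *
            Ex p (off (off H (cl ω x)) (cl η f.2)) (fun ζ => ind (f.1 ∈ cl ζ e.2) *
              (ind (¬ Hit ζ e.2 T) * (ind (#(cl ω x) ≤ m) * ind (#(cl η f.2) ≤ m))))))))) := by
    rw [← Ex_add, ← Ex_mul_left]
    refine Ex_mono hp0.le hp1.le fun ω _ => ?_
    set L := cl ω x with hL
    rw [← mul_add, mul_left_comm (d * m : ℝ)]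
    apply mul_le_mul_of_nonneg_left _ (ind_nonneg _)
    by_cases hb : #L ≤ m
    swap
    · rw [ind_false hb]
      simp only [zero_mul, mul_zero, Ex_zero, sum_const_zero, le_refl, add_zero]
    rw [ind_true hb, one_mul]
    rw [← Ex_sum, ← Ex_sum, ← Ex_add, ← Ex_mul_left]
    refine Ex_mono hp0.le hp1.le fun η hη => ?_
    refine (h1 L η hη).trans ?_
    apply mul_le_mul_of_nonneg_left _ (by positivity)
    apply add_le_add
    · refine Finset.sum_le_sum fun e _ => ?_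
      rw [mul_one]
      exact ind_mono fun h => h.1
    · refine Finset.sum_le_sum fun e _ => Finset.sum_le_sum fun f _ => ?_
      rw [Th, ind_and]
      apply le_of_eq
      have : Ex p (off (off H L) (cl η f.2)) (fun ζ => ind (f.1 ∈ cl ζ e.2) *
              (ind (¬ Hit ζ e.2 T) * (1 * ind (#(cl η f.2) ≤ m))))
          = Ex p (off (off H L) (cl η f.2)) (fun ζ => ind (f.1 ∈ cl ζ e.2) *
              ind (¬ Hit ζ e.2 T)) * ind (#(cl η f.2) ≤ m) := by
        rw [← Ex_mul_right]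
        refine Ex_congr fun ζ _ => by ring
      rw [this]
      ring
  have h3 := Ex_one_pivot (p := p) H x T (fun L _ _ => ind (#L ≤ m))
  have h4 := Ex_two_pivot (p := p) H x T (fun L _ R _ _ => ind (#L ≤ m) * ind (#R ≤ m))
  have h5 := Ex_piv_L_le hp0.le hp1.le H x T m
  have h6 := Ex_pairs_le hp0.le hp1.le H x T m
  have hPH : 0 ≤ PH p H x T := Ex_nonneg hp0.le hp1.le fun _ _ => ind_nonneg _
  have h7 := mul_le_mul_of_nonneg_left h5 hq.le
  rw [h3] at h7
  have h8 := mul_le_mul_of_nonneg_left h6 (sq_nonneg (1 - p))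
  rw [h4] at h8
  refine (mul_le_mul_of_nonneg_left h2 (sq_nonneg p)).trans ?_
  have h9 := mul_le_mul_of_nonneg_left h7 hp0.le
  have h10 : p * ((1 - p) * (m * PH p H x T)) ≤ (1 - p) * (m * PH p H x T) := by
    have : 0 ≤ (1 - p) * (m * PH p H x T) := by positivity
    nlinarith
  have h11 : (1 - p) ^ 2 * (m * m * PH p H x T) ≤ (1 - p) * (m * m * PH p H x T) := by
    have h12 : (1 - p) ^ 2 ≤ 1 - p := by nlinarith
    exact mul_le_mul_of_nonneg_right h12 (by positivity)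
  have h13 : (0 : ℝ) ≤ d * m := by positivity
  have h14 := mul_le_mul_of_nonneg_left (add_le_add (h9.trans h10) (h8.trans h11)) h13
  refine le_trans (le_of_eq ?_) (h14.trans (le_of_eq ?_))
  · ring
  · ring

/-- **Lemma P.** -/
theorem lemmaP {p : ℝ} (hp0 : 0 < p) (hp1 : p < 1) {H : Finset (Sym2 V)} {d : ℕ}
    (hd : Deg H d) (x : V) (T : Set V) {m s : ℕ} {κ δ t : ℝ} (hκ : 0 ≤ κ) (hδ : 0 ≤ δ)
    (ht : 0 < t) (hC : CProp p H s κ δ) (k : ℕ) :
    k * Ex p H (fun ω => ∑ e ∈ piv ω x T, ∑ f ∈ piv (aft H ω x e) e.2 T,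
        ind (#(Ls ω x e) ≤ m ∧ Far H T (2 * s) (Ls ω x e)) *
          (ind (#(Rs (aft H ω x e) f) ≤ m ∧ 1 ≤ t * T2 p H T (Ls ω x e) (Rs (aft H ω x e) f)) *
          (ind (#(cl (bfr (off H (Ls ω x e)) (aft H ω x e) f) e.2) ≤ s) *
            ind (k ≤ npiv (bfr (off H (Ls ω x e)) (aft H ω x e) f) e.2 {f.1}))))
      ≤ (4 * s ^ 2 * m * κ + 2 * s * δ * t * (d * m) ^ 2 * (m + m * m) / (1 - p)) * PH p H x T := by
  have hq : 0 < 1 - p := by linarith
  have hPH : 0 ≤ PH p H x T := Ex_nonneg hp0.le hp1.le fun _ _ => ind_nonneg _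
  have h0 := Ex_two_pivot (p := p) H x T (fun L e R f ζ =>
    ind (#L ≤ m ∧ Far H T (2 * s) L) * (ind (#R ≤ m ∧ 1 ≤ t * T2 p H T L R) *
      (ind (#(cl ζ e.2) ≤ s) * ind (k ≤ npiv ζ e.2 {f.1}))))
  have hA := Ex_two_pivot (p := p) H x T (fun L e R f ζ =>
    ind (#L ≤ m) * ind (#(cl ζ e.2) ≤ 2 * s))
  have hB := Ex_T2_le hp0 hp1 hd x T m
  have hA2 := Ex_pairs_mid_le hp0.le hp1.le H x T m (2 * s)
  -- main estimate
  have hmain : k * Ex p H (fun ω => ind (¬ Hit ω x T) * ∑ e ∈ bd H (cl ω x),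
          Ex p (off H (cl ω x)) (fun η => ∑ f ∈ dt (off H (cl ω x)),
            ind (f.1 ∉ cl η f.2) * (ind (e.2 ∉ cl η f.2) * (ind (Hit η f.2 T) *
            Ex p (off (off H (cl ω x)) (cl η f.2)) (fun ζ => ind (f.1 ∈ cl ζ e.2) *
              (ind (¬ Hit ζ e.2 T) * (ind (#(cl ω x) ≤ m ∧ Far H T (2 * s) (cl ω x)) *
                (ind (#(cl η f.2) ≤ m ∧ 1 ≤ t * T2 p H T (cl ω x) (cl η f.2)) *
      (ind (#(cl ζ e.2) ≤ s) * ind (k ≤ npiv ζ e.2 {f.1}))))))))))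
      ≤ 2 * s * κ * Ex p H (fun ω => ind (¬ Hit ω x T) * ∑ e ∈ bd H (cl ω x),
          Ex p (off H (cl ω x)) (fun η => ∑ f ∈ dt (off H (cl ω x)),
            ind (f.1 ∉ cl η f.2) * (ind (e.2 ∉ cl η f.2) * (ind (Hit η f.2 T) *
            Ex p (off (off H (cl ω x)) (cl η f.2)) (fun ζ => ind (f.1 ∈ cl ζ e.2) *
              (ind (¬ Hit ζ e.2 T) * (ind (#(cl ω x) ≤ m) * ind (#(cl ζ e.2) ≤ 2 * s))))))))
        + 2 * s * δ * (t * (d * m)) * Ex p H (fun ω => ind (¬ Hit ω x T) * (ind (#(cl ω x) ≤ m) *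
        Ex p (off H (cl ω x)) (fun η => ∑ f ∈ dt (off H (cl ω x)), ind (f.1 ∉ cl η f.2) *
          (ind (Hit η f.2 T ∧ #(cl η f.2) ≤ m) * T2 p H T (cl ω x) (cl η f.2))))) := by
    rw [← Ex_mul_left, ← Ex_mul_left, ← Ex_mul_left, ← Ex_add]
    refine Ex_mono hp0.le hp1.le fun ω _ => ?_
    set L := cl ω x with hL
    rw [mul_left_comm (k : ℝ), mul_left_comm (2 * s * κ), mul_left_comm (2 * s * δ * (t * (d * m))),
      ← mul_add]
    apply mul_le_mul_of_nonneg_left _ (ind_nonneg _)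
    by_cases hLm : #L ≤ m
    swap
    · rw [ind_false hLm, ind_false (P := #L ≤ m ∧ _) (fun hh => hLm hh.1)]
      simp only [zero_mul, mul_zero, Ex_zero, sum_const_zero, le_refl, add_zero]
    by_cases hFar : Far H T (2 * s) L
    swap
    · rw [ind_false (P := #L ≤ m ∧ _) (fun hh => hFar hh.2)]
      simp only [zero_mul, mul_zero, Ex_zero, sum_const_zero]
      apply add_nonneg
      · apply mul_nonneg (by positivity)
        refine Finset.sum_nonneg fun e _ => Ex_nonneg hp0.le hp1.le fun η _ =>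
          Finset.sum_nonneg fun f _ => ?_
        apply mul_nonneg (ind_nonneg _) (mul_nonneg (ind_nonneg _) (mul_nonneg (ind_nonneg _) ?_))
        refine Ex_nonneg hp0.le hp1.le fun ζ _ => ?_
        apply mul_nonneg (ind_nonneg _) (mul_nonneg (ind_nonneg _) (mul_nonneg (ind_nonneg _)
          (ind_nonneg _)))
      · apply mul_nonneg (by positivity) (mul_nonneg (ind_nonneg _) _)
        refine Ex_nonneg hp0.le hp1.le fun η _ => Finset.sum_nonneg fun f _ => ?_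
        apply mul_nonneg (ind_nonneg _) (mul_nonneg (ind_nonneg _) ?_)
        exact add_nonneg (T2a_nonneg _ _ _) (T2b_nonneg hp0.le hp1.le _ _ _ _)
    rw [ind_true hLm, ind_true (P := #L ≤ m ∧ _) ⟨hLm, hFar⟩]
    -- the sum over `e`
    have hbd : (#(bd H L) : ℝ) ≤ d * m := by
      have h5 : #(bd H L) ≤ d * m := (card_bd_le hd L).trans (Nat.mul_le_mul_left d hLm)
      exact_mod_cast h5
    have hW : 0 ≤ Ex p (off H L) (fun η => ∑ f ∈ dt (off H L), ind (f.1 ∉ cl η f.2) *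
          (ind (Hit η f.2 T ∧ #(cl η f.2) ≤ m) * T2 p H T L (cl η f.2))) := by
      refine Ex_nonneg hp0.le hp1.le fun η _ => Finset.sum_nonneg fun f _ => ?_
      apply mul_nonneg (ind_nonneg _) (mul_nonneg (ind_nonneg _) ?_)
      exact add_nonneg (T2a_nonneg _ _ _) (T2b_nonneg hp0.le hp1.le _ _ _ _)
    have hper : ∀ e ∈ bd H L, k * Ex p (off H L) (fun η => ∑ f ∈ dt (off H L),
            ind (f.1 ∉ cl η f.2) * (ind (e.2 ∉ cl η f.2) * (ind (Hit η f.2 T) *
            Ex p (off (off H L) (cl η f.2)) (fun ζ => ind (f.1 ∈ cl ζ e.2) *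
              (ind (¬ Hit ζ e.2 T) * (1 *
                (ind (#(cl η f.2) ≤ m ∧ 1 ≤ t * T2 p H T L (cl η f.2)) *
      (ind (#(cl ζ e.2) ≤ s) * ind (k ≤ npiv ζ e.2 {f.1})))))))))
        ≤ 2 * s * κ * Ex p (off H L) (fun η => ∑ f ∈ dt (off H L),
            ind (f.1 ∉ cl η f.2) * (ind (e.2 ∉ cl η f.2) * (ind (Hit η f.2 T) *
            Ex p (off (off H L) (cl η f.2)) (fun ζ => ind (f.1 ∈ cl ζ e.2) *
              (ind (¬ Hit ζ e.2 T) * (1 * ind (#(cl ζ e.2) ≤ 2 * s)))))))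
          + 2 * s * δ * t * Ex p (off H L) (fun η => ∑ f ∈ dt (off H L), ind (f.1 ∉ cl η f.2) *
          (ind (Hit η f.2 T ∧ #(cl η f.2) ≤ m) * T2 p H T L (cl η f.2))) := by
      intro e he
      rw [← Ex_mul_left, ← Ex_mul_left, ← Ex_mul_left, ← Ex_add]
      refine Ex_mono hp0.le hp1.le fun η _ => ?_
      rw [mul_sum, mul_sum, mul_sum, ← sum_add_distrib]
      refine Finset.sum_le_sum fun f _ => ?_
      set R := cl η f.2 with hR
      rw [mul_left_comm (k : ℝ), mul_left_comm (2 * s * κ), mul_left_comm (2 * s * δ * t),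
        ← mul_add]
      apply mul_le_mul_of_nonneg_left _ (ind_nonneg _)
      have hEnn : 0 ≤ Ex p (off (off H L) R) (fun ζ => ind (f.1 ∈ cl ζ e.2) *
              (ind (¬ Hit ζ e.2 T) * (1 * ind (#(cl ζ e.2) ≤ 2 * s)))) := by
        refine Ex_nonneg hp0.le hp1.le fun ζ _ => ?_
        exact mul_nonneg (ind_nonneg _) (mul_nonneg (ind_nonneg _) (mul_nonneg zero_le_one
          (ind_nonneg _)))
      have hT2nn : 0 ≤ T2 p H T L R := add_nonneg (T2a_nonneg _ _ _) (T2b_nonneg hp0.le hp1.le _ _ _ _)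
      by_cases hh : Hit η f.2 T
      swap
      · rw [ind_false hh, ind_false (P := Hit η f.2 T ∧ _) (fun h => hh h.1)]
        simp
      by_cases hR2 : #R ≤ m ∧ 1 ≤ t * T2 p H T L R
      swap
      · rw [ind_false hR2]
        simp only [zero_mul, mul_zero, Ex_zero]
        have := ind_nonneg (e.2 ∉ R)
        have := ind_nonneg (Hit η f.2 T)
        have := ind_nonneg (Hit η f.2 T ∧ #R ≤ m)
        positivity
      rw [ind_true hh, ind_true hR2, ind_true (P := Hit η f.2 T ∧ _) ⟨hh, hR2.1⟩]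
      simp only [one_mul]
      have hc := hC (off (off H L) R) ((off_subset _ _).trans (off_subset _ _)) e.2 {f.1} k
      have hit_iff : ∀ ζ : Finset (Sym2 V), Hit ζ e.2 {f.1} ↔ f.1 ∈ cl ζ e.2 := by
        intro ζ
        rw [Hit]
        constructor
        · rintro ⟨y, hy, h⟩
          rw [Set.mem_singleton_iff] at h
          exact h ▸ hy
        · intro h; exact ⟨f.1, h, rfl⟩
      have h1 : k * Ex p (off (off H L) R) (fun ζ => ind (f.1 ∈ cl ζ e.2) *
              (ind (¬ Hit ζ e.2 T) * (ind (#(cl ζ e.2) ≤ s) * ind (k ≤ npiv ζ e.2 {f.1}))))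
          ≤ 2 * s * (κ * Ex p (off (off H L) R) (fun ζ => ind (f.1 ∈ cl ζ e.2) *
              (ind (¬ Hit ζ e.2 T) * ind (#(cl ζ e.2) ≤ 2 * s))) + δ) := by
        refine le_trans ?_ (hc.trans ?_)
        · apply mul_le_mul_of_nonneg_left _ (Nat.cast_nonneg _)
          refine Ex_mono hp0.le hp1.le fun ζ _ => ?_
          rw [ind_congr (hit_iff ζ)]
          apply mul_le_mul_of_nonneg_left _ (ind_nonneg _)
          exact mul_le_of_le_one_left (mul_nonneg (ind_nonneg _) (ind_nonneg _)) (ind_le_one _)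
        · apply mul_le_mul_of_nonneg_left _ (by positivity)
          apply add_le_add_left
          apply mul_le_mul_of_nonneg_left _ hκ
          refine Ex_mono hp0.le hp1.le fun ζ hζ => ?_
          rw [ind_congr (hit_iff ζ)]
          apply mul_le_mul_of_nonneg_left _ (ind_nonneg _)
          by_cases h2 : #(cl ζ e.2) ≤ 2 * s
          · rw [ind_true h2]
            have h3 : ¬ Hit ζ e.2 T := by
              intro h3
              have := hFar e he ζ (hζ.trans (off_subset _ _)) h3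
              omega
            rw [ind_true (P := ¬ Hit ζ e.2 T) h3, one_mul]
          · rw [ind_false h2]; simp
      have he2 := ind_nonneg (e.2 ∉ R)
      have he2' := ind_le_one (e.2 ∉ R)
      calc k * (ind (e.2 ∉ R) * Ex p (off (off H L) R) (fun ζ => ind (f.1 ∈ cl ζ e.2) *
              (ind (¬ Hit ζ e.2 T) * (ind (#(cl ζ e.2) ≤ s) * ind (k ≤ npiv ζ e.2 {f.1})))))
          = ind (e.2 ∉ R) * (k * Ex p (off (off H L) R) (fun ζ => ind (f.1 ∈ cl ζ e.2) *
              (ind (¬ Hit ζ e.2 T) * (ind (#(cl ζ e.2) ≤ s) * ind (k ≤ npiv ζ e.2 {f.1}))))) := by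
            ring
        _ ≤ ind (e.2 ∉ R) * (2 * s * (κ * Ex p (off (off H L) R) (fun ζ => ind (f.1 ∈ cl ζ e.2) *
              (ind (¬ Hit ζ e.2 T) * ind (#(cl ζ e.2) ≤ 2 * s))) + δ)) :=
            mul_le_mul_of_nonneg_left h1 he2
        _ = 2 * s * κ * (ind (e.2 ∉ R) * Ex p (off (off H L) R) (fun ζ => ind (f.1 ∈ cl ζ e.2) *
              (ind (¬ Hit ζ e.2 T) * ind (#(cl ζ e.2) ≤ 2 * s)))) + ind (e.2 ∉ R) * (2 * s * δ) := by
            ring
        _ ≤ _ := by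
            apply add_le_add_right
            have h4 : ind (e.2 ∉ R) * (2 * s * δ) ≤ 1 * (2 * s * δ) :=
              mul_le_mul_of_nonneg_right he2' (by positivity)
            have h5 : 2 * s * δ * 1 ≤ 2 * s * δ * (t * T2 p H T L R) :=
              mul_le_mul_of_nonneg_left hR2.2 (by positivity)
            linarith
    rw [mul_sum]
    refine (Finset.sum_le_sum hper).trans ?_
    rw [sum_add_distrib, ← mul_sum, sum_const, nsmul_eq_mul, one_mul]
    apply add_le_add_right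
    calc #(bd H L) * (2 * s * δ * t * Ex p (off H L) (fun η => ∑ f ∈ dt (off H L),
          ind (f.1 ∉ cl η f.2) *
          (ind (Hit η f.2 T ∧ #(cl η f.2) ≤ m) * T2 p H T L (cl η f.2))))
        ≤ (d * m) * (2 * s * δ * t * Ex p (off H L) (fun η => ∑ f ∈ dt (off H L),
          ind (f.1 ∉ cl η f.2) *
          (ind (Hit η f.2 T ∧ #(cl η f.2) ≤ m) * T2 p H T L (cl η f.2)))) :=
          mul_le_mul_of_nonneg_right hbd (by positivity)
      _ = _ := by ring
  -- conclusion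
  have h1 := mul_le_mul_of_nonneg_left hmain (sq_nonneg p)
  have h2 : (1 - p) ^ 2 * (k * Ex p H (fun ω => ∑ e ∈ piv ω x T, ∑ f ∈ piv (aft H ω x e) e.2 T,
        ind (#(Ls ω x e) ≤ m ∧ Far H T (2 * s) (Ls ω x e)) *
          (ind (#(Rs (aft H ω x e) f) ≤ m ∧ 1 ≤ t * T2 p H T (Ls ω x e) (Rs (aft H ω x e) f)) *
          (ind (#(cl (bfr (off H (Ls ω x e)) (aft H ω x e) f) e.2) ≤ s) *
            ind (k ≤ npiv (bfr (off H (Ls ω x e)) (aft H ω x e) f) e.2 {f.1})))))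
      ≤ (1 - p) ^ 2 * ((4 * s ^ 2 * m * κ + 2 * s * δ * t * (d * m) ^ 2 * (m + m * m) / (1 - p))
          * PH p H x T) := by
    rw [mul_left_comm, h0, mul_left_comm]
    refine h1.trans ?_
    rw [mul_add, mul_left_comm (p ^ 2), ← hA]
    have h3 := mul_le_mul_of_nonneg_left hA2 (show 0 ≤ 2 * s * κ * (1 - p) ^ 2 by positivity)
    have h4 := mul_le_mul_of_nonneg_left hB (show 0 ≤ 2 * s * δ * (t * (d * m)) by positivity)
    have h5 : (1 - p) ^ 2 * ((4 * s ^ 2 * m * κ + 2 * s * δ * t * (d * m) ^ 2 * (m + m * m) / (1 - p))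
          * PH p H x T)
        = 2 * s * κ * (1 - p) ^ 2 * (m * (2 * s : ℕ) * PH p H x T)
          + 2 * s * δ * (t * (d * m)) * ((d * m) * (1 - p) * (m + m * m) * PH p H x T) := by
      push_cast
      field_simp
      ring
    rw [h5]
    refine le_trans (le_of_eq ?_) (add_le_add h3 h4)
    ring
  exact le_of_mul_le_mul_left h2 (by positivity)

end

end H97.IIC
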