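import Pool.Agent.H97.IIC.A6

/-!
# Lemma R
-/

open Finset
open scoped Classical

namespace H97.IIC

noncomputable section

variable {V : Type*}

/-! ### windows -/

/-- the window around the pivot `l` -/
def Wn (ω : Finset (Sym2 V)) (x : V) (T : Set V) (s : ℕ) (l : V × V) : Finset V :=
  (cl ω x).filter fun u =>
    (∃ i ∈ piv ω x T, #(Ls ω x i) < #(Ls ω x l) ∧ #(Ls ω x l) ≤ #(Ls ω x i) + s ∧
      u ∉ Ls ω x i) ∧
    (∃ j ∈ piv ω x T, #(Ls ω x l) < #(Ls ω x j) ∧ #(Ls ω x j) ≤ #(Ls ω x l) + s ∧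
      u ∉ Rs ω j)

lemma Pv.Ls_subset_of_le {ω : Finset (Sym2 V)} {x : V} {T : Set V} {e e' : V × V}
    (h : Pv ω x T e.1 e.2) (h' : Pv ω x T e'.1 e'.2) (hle : #(Ls ω x e) ≤ #(Ls ω x e')) :
    Ls ω x e ⊆ Ls ω x e' := by
  rcases hle.lt_or_eq with h1 | h1
  · exact (h.bef_of_lt h' h1).sub
  · rw [h.eq_of_card h' h1]

lemma Pv.mem_Ls_iff {ω : Finset (Sym2 V)} {x : V} {T : Set V} {e : V × V} {u : V}
    (h : Pv ω x T e.1 e.2) (hu : u ∈ cl ω x) : u ∈ Ls ω x e ↔ u ∉ Rs ω e := by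
  constructor
  · intro h1 h2; exact (Finset.disjoint_left.1 h.disj h1) h2
  · intro h1
    rw [h.cl_eq, mem_union] at hu
    exact hu.resolve_right h1

/-- a vertex is in few windows -/
lemma card_windows_le (ω : Finset (Sym2 V)) (x : V) (T : Set V) (s : ℕ) (u : V) :
    #((piv ω x T).filter fun l => u ∈ Wn ω x T s l) ≤ 2 * s := by
  by_cases hne : ((piv ω x T).filter fun l => u ∈ Wn ω x T s l) = ∅
  · rw [hne]; simp
  obtain ⟨l0, hl0⟩ := nonempty_iff_ne_empty.2 hne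
  rw [mem_filter] at hl0
  have hu0 := hl0.2
  rw [Wn, mem_filter] at hu0
  have huC := hu0.1
  -- `π` the least position of a pivot after `u`
  set A := ((piv ω x T).filter fun j => u ∉ Rs ω j).image (fun j => #(Ls ω x j)) with hA
  have hAne : A.Nonempty := by
    obtain ⟨_, j, hj, _, _, h⟩ := hu0.2
    exact ⟨_, mem_image.2 ⟨j, mem_filter.2 ⟨hj, h⟩, rfl⟩⟩
  set π := A.min' hAne with hπ
  have hπmem := A.min'_mem hAne
  rw [← hπ, hA, mem_image] at hπmem
  obtain ⟨j0, hj0, hj0π⟩ := hπmem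
  rw [mem_filter, mem_piv] at hj0
  have huj0 : u ∈ Ls ω x j0 := (hj0.1.mem_Ls_iff huC).2 hj0.2
  have hcard : #((piv ω x T).filter fun l => u ∈ Wn ω x T s l) ≤ #(Finset.Ico (π - s) (π + s)) := by
    apply card_le_card_of_injOn (fun l => #(Ls ω x l))
    · intro l hl
      rw [mem_coe, mem_filter, Wn, mem_filter] at hl
      obtain ⟨hl, _, ⟨i, hi, hil, hli, hui⟩, ⟨j, hj, hlj, hjl, huj⟩⟩ := hl
      rw [mem_coe, Finset.mem_Ico]
      have h1 : π ≤ #(Ls ω x j) := A.min'_le _ (mem_image.2 ⟨j, mem_filter.2 ⟨hj, huj⟩, rfl⟩)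
      have h2 : #(Ls ω x i) < π := by
        by_contra h
        push Not at h
        rw [← hj0π] at h
        exact hui ((hj0.1.Ls_subset_of_le (mem_piv.1 hi) h) huj0)
      simp only
      omega
    · intro l hl l' hl' h
      rw [mem_coe, mem_filter, mem_piv] at hl hl'
      exact hl.1.eq_of_card hl'.1 h
  refine hcard.trans ?_
  rw [Nat.card_Ico]
  omega

/-- windows are small -/
lemma card_Wn_le {ω : Finset (Sym2 V)} {x : V} {T : Set V} (s : ℕ) (l : V × V) :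
    #(Wn ω x T s l) ≤ 2 * s := by
  by_cases hne : Wn ω x T s l = ∅
  · rw [hne]; simp
  obtain ⟨u0, hu0⟩ := nonempty_iff_ne_empty.2 hne
  rw [Wn, mem_filter] at hu0
  obtain ⟨_, ⟨i0, hi0, hi0l, hli0, _⟩, ⟨j0, hj0, hlj0, hj0l, _⟩⟩ := hu0
  -- extreme pivots
  obtain ⟨i, hi, himin⟩ := exists_min_image ((piv ω x T).filter fun i =>
    #(Ls ω x i) < #(Ls ω x l) ∧ #(Ls ω x l) ≤ #(Ls ω x i) + s) (fun i => #(Ls ω x i))
    ⟨i0, mem_filter.2 ⟨hi0, hi0l, hli0⟩⟩
  obtain ⟨j, hj, hjmax⟩ := exists_max_image ((piv ω x T).filter fun j =>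
    #(Ls ω x l) < #(Ls ω x j) ∧ #(Ls ω x j) ≤ #(Ls ω x l) + s) (fun j => #(Ls ω x j))
    ⟨j0, mem_filter.2 ⟨hj0, hlj0, hj0l⟩⟩
  rw [mem_filter, mem_piv] at hi hj
  have hsub : Wn ω x T s l ⊆ Ls ω x j \ Ls ω x i := by
    intro u hu
    rw [Wn, mem_filter] at hu
    obtain ⟨huC, ⟨i', hi', hil, hli, hui⟩, ⟨j', hj', hlj, hjl, huj⟩⟩ := hu
    rw [mem_sdiff]
    constructor
    · have h1 : u ∈ Ls ω x j' := ((mem_piv.1 hj').mem_Ls_iff huC).2 huj
      have h2 := hjmax j' (mem_filter.2 ⟨hj', hlj, hjl⟩)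
      exact ((mem_piv.1 hj').Ls_subset_of_le hj.1 h2) h1
    · intro h1
      have h2 := himin i' (mem_filter.2 ⟨hi', hil, hli⟩)
      exact hui ((hi.1.Ls_subset_of_le (mem_piv.1 hi') h2) h1)
  have hij : Ls ω x i ⊆ Ls ω x j := hi.1.Ls_subset_of_le hj.1 (by omega)
  refine (card_le_card hsub).trans ?_
  rw [card_sdiff_of_subset hij]
  omega

/-! ### locality of pivots -/

lemma cl_erase_local {H ω ω' : Finset (Sym2 V)} {x y : V} (hω : ω ⊆ H)
    (h : ω ∩ tch H (cl ω x) = ω' ∩ tch H (cl ω x))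
    (hy : y ∈ cl ω x) (g : Sym2 V) : cl (ω.erase g) y ⊆ cl (ω'.erase g) y := by
  intro z hz
  rw [mem_cl] at hz
  induction hz with
  | refl => exact self_mem_cl _ _
  | @tail c d h1 h2 ih =>
    rw [mem_cl] at ih ⊢
    rw [mem_erase] at h2
    refine ih.tail (mem_erase.2 ⟨h2.1, ?_⟩)
    have hc : c ∈ cl ω x := by
      rw [mem_cl] at hy ⊢
      exact hy.trans (Conn.mono (erase_subset _ _) h1)
    have : s(c, d) ∈ ω ∩ tch H (cl ω x) :=
      mem_inter.2 ⟨h2.2, mem_tch.2 ⟨hω h2.2, c, hc, Sym2.mem_mk_left _ _⟩⟩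
    rw [h] at this
    exact (mem_inter.1 this).1

/-- agreement near the cluster of `x` -/
structure Agr (H ω ω' : Finset (Sym2 V)) (x : V) : Prop where
  sub : ω ⊆ H
  sub' : ω' ⊆ H
  cl_eq : cl ω x = cl ω' x
  tch_eq : ω ∩ tch H (cl ω x) = ω' ∩ tch H (cl ω x)

section Agr
variable {H ω ω' : Finset (Sym2 V)} {x : V} {T : Set V}

lemma Agr.symm (h : Agr H ω ω' x) : Agr H ω' ω x :=
  ⟨h.sub', h.sub, h.cl_eq.symm, by rw [← h.cl_eq]; exact h.tch_eq.symm⟩

lemma Agr.cl_erase (h : Agr H ω ω' x) {y : V} (hy : y ∈ cl ω x) (g : Sym2 V) :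
    cl (ω.erase g) y = cl (ω'.erase g) y :=
  subset_antisymm (cl_erase_local h.sub h.tch_eq hy g)
    (cl_erase_local h.symm.sub h.symm.tch_eq (h.cl_eq ▸ hy) g)

lemma Agr.pv (h : Agr H ω ω' x) {a b : V} (hp : Pv ω x T a b) : Pv ω' x T a b := by
  have hx : x ∈ cl ω x := self_mem_cl _ _
  have ha : a ∈ cl ω x := cl_mono (erase_subset _ _) x hp.2.1
  have hb : b ∈ cl ω x := Clo_cl ω x a b hp.1 ha
  have e1 := h.cl_erase hx s(a, b)
  have e2 := h.cl_erase hb s(a, b)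
  refine ⟨?_, ?_, ?_, ?_, ?_⟩
  · have : s(a, b) ∈ ω ∩ tch H (cl ω x) :=
      mem_inter.2 ⟨hp.1, mem_tch.2 ⟨h.sub hp.1, a, ha, Sym2.mem_mk_left _ _⟩⟩
    rw [h.tch_eq] at this
    exact (mem_inter.1 this).1
  · rw [← e1]; exact hp.2.1
  · rw [← e1]; exact hp.2.2.1
  · rw [Hit, ← e1]; exact hp.2.2.2.1
  · rw [Hit, ← e2]; exact hp.2.2.2.2

lemma Agr.piv_eq (h : Agr H ω ω' x) : piv ω x T = piv ω' x T := by
  ext e
  rw [mem_piv, mem_piv]
  exact ⟨h.pv, h.symm.pv⟩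

lemma Agr.Ls_eq (h : Agr H ω ω' x) (e : V × V) : Ls ω x e = Ls ω' x e :=
  h.cl_erase (self_mem_cl _ _) _

lemma Agr.Rs_eq (h : Agr H ω ω' x) {e : V × V} (he : e ∈ piv ω x T) : Rs ω e = Rs ω' e := by
  rw [mem_piv] at he
  apply h.cl_erase
  rw [he.cl_eq]
  exact mem_union_right _ he.snd_mem

lemma Agr.Wn_eq (h : Agr H ω ω' x) (s : ℕ) (l : V × V) : Wn ω x T s l = Wn ω' x T s l := by
  rw [Wn, Wn, h.cl_eq]
  apply filter_congr
  intro u _
  apply and_congr
  · constructor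
    · rintro ⟨i, hi, h1⟩
      rw [h.Ls_eq i, h.Ls_eq l] at h1
      exact ⟨i, h.piv_eq (T := T) ▸ hi, h1⟩
    · rintro ⟨i, hi, h1⟩
      rw [← h.Ls_eq i, ← h.Ls_eq l] at h1
      exact ⟨i, h.piv_eq (T := T) ▸ hi, h1⟩
  · constructor
    · rintro ⟨i, hi, h1⟩
      rw [h.Ls_eq i, h.Ls_eq l, h.Rs_eq hi] at h1
      exact ⟨i, h.piv_eq (T := T) ▸ hi, h1⟩
    · rintro ⟨i, hi, h1⟩
      rw [← h.piv_eq (T := T)] at hi
      rw [← h.Ls_eq i, ← h.Ls_eq l, ← h.Rs_eq hi] at h1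
      exact ⟨i, hi, h1⟩

end Agr

lemma Agr_mix {H ω η : Finset (Sym2 V)} {x : V} (hω : ω ⊆ H) (hη : η ⊆ off H (cl ω x)) :
    Agr H ω ((ω ∩ tch H (cl ω x)) ∪ η) x := by
  refine ⟨hω, union_subset (inter_subset_left.trans hω) (hη.trans (off_subset _ _)),
    (cl_mix_self hω hη).symm, ?_⟩
  rw [union_inter_distrib_right, inter_assoc, inter_self,
    disjoint_iff_inter_eq_empty.1 (disjoint_of_subset_left hη (disjoint_tch_off H _).symm),
    union_empty]

/-! ### dangling bridges -/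

/-- exit from a set attached by the edge `s(w, w')` only -/
lemma exit_lemma {ω' ζ : Finset (Sym2 V)} {D : Finset V} {w w' z z' : V}
    (hD : Clo (ω'.erase s(w, w')) D) (hζ : ζ ⊆ ω') (hz : z ∈ D) (hz' : z' ∉ D)
    (h : Conn ζ z z') : Conn ζ z w ∧ Conn ζ z w' := by
  have hstay : ∀ y, Conn (ζ.erase s(w, w')) z y → y ∈ D := by
    intro y hy
    induction hy with
    | refl => exact hz
    | tail _ h2 ih => exact hD _ _ (erase_subset_erase _ hζ h2) ih
  by_cases hf : s(w, w') ∈ ζ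
  · rcases h.erase_cases (u := w) (v := w') with h1 | ⟨h1, _⟩ | ⟨h1, _⟩
    · exact absurd (hstay _ h1) hz'
    · have h2 := h1.mono (erase_subset s(w, w') ζ)
      exact ⟨h2, h2.tail hf⟩
    · have h2 := h1.mono (erase_subset s(w, w') ζ)
      exact ⟨h2.tail (by rwa [Sym2.eq_swap]), h2⟩
  · rw [erase_eq_of_notMem hf] at hstay
    exact absurd (hstay _ h) hz'

section bridges

variable {ω' : Finset (Sym2 V)} {x : V} {T : Set V} {s : ℕ}

/-- `e` is a dangling bridge of `ω'` attached in a small window -/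
structure Dg (ω' : Finset (Sym2 V)) (x : V) (T : Set V) (s : ℕ) (e l : V × V) : Prop where
  mem : s(e.1, e.2) ∈ ω'
  fst : e.1 ∈ Ls ω' x e
  snd : e.2 ∉ Ls ω' x e
  miss : ¬ Hit (ω'.erase s(e.1, e.2)) e.2 T
  pvl : l ∈ piv (ω'.erase s(e.1, e.2)) x T
  win : e.1 ∈ Wn (ω'.erase s(e.1, e.2)) x T s l

lemma Dg.eq_of_edge {e f l l' : V × V} (h : Dg ω' x T s e l) (h' : Dg ω' x T s f l')
    (he : s(e.1, e.2) = s(f.1, f.2)) : e = f := by
  rw [Sym2.eq_iff] at he
  rcases he with ⟨h1, h2⟩ | ⟨h1, h2⟩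
  · exact Prod.ext h1 h2
  · exfalso
    have h3 := h.fst
    have h4 := h'.snd
    rw [Ls] at h3 h4
    rw [← h1, ← h2, Sym2.eq_swap] at h4
    exact h4 h3

lemma Dg.cl_eq {e l : V × V} (h : Dg ω' x T s e l) : cl ω' x = Ls ω' x e ∪ Rs ω' e := by
  have h1 : insert s(e.1, e.2) (ω'.erase s(e.1, e.2)) = ω' := insert_erase h.mem
  have h2 := cl_insert_bd (ω := ω'.erase s(e.1, e.2)) (a := e.1) (b := e.2) (w := x) h.fst
  rw [h1] at h2
  exact h2

lemma Dg.disj {e l : V × V} (h : Dg ω' x T s e l) : Disjoint (Ls ω' x e) (Rs ω' e) :=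
  cl_disjoint h.snd

/-- **key claim**: if `f` is another dangling bridge whose part meets the part of `e` and is
not smaller, then `f.2` is in the window of `e`. -/
theorem Dg.key {e f l l' : V × V} (he : Dg ω' x T s e l) (hf : Dg ω' x T s f l')
    (hne : e ≠ f) (hmeet : ¬ Disjoint (Rs ω' e) (Rs ω' f)) (hle : #(Rs ω' e) ≤ #(Rs ω' f)) :
    f.2 ∈ Wn (ω'.erase s(e.1, e.2)) x T s l := by
  have hne' : s(e.1, e.2) ≠ s(f.1, f.2) := fun hh => hne (he.eq_of_edge hf hh)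
  have hfe : s(f.1, f.2) ∈ ω'.erase s(e.1, e.2) := mem_erase.2 ⟨hne'.symm, hf.mem⟩
  have hef : s(e.1, e.2) ∈ ω'.erase s(f.1, f.2) := mem_erase.2 ⟨hne', he.mem⟩
  have swap : (ω'.erase s(f.1, f.2)).erase s(e.1, e.2)
      = (ω'.erase s(e.1, e.2)).erase s(f.1, f.2) := erase_right_comm
  have hcloE : Clo (ω'.erase s(e.1, e.2)) (Rs ω' e) := Clo_cl _ _
  have hcloF : Clo (ω'.erase s(f.1, f.2)) (Rs ω' f) := Clo_cl _ _
  -- step 1 : `f` is not inside `D_e`
  have h1 : f.1 ∉ Rs ω' e ∧ f.2 ∉ Rs ω' e := by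
    by_contra hcon
    have hin : f.1 ∈ Rs ω' e ∧ f.2 ∈ Rs ω' e := by
      by_cases h : f.1 ∈ Rs ω' e
      · exact ⟨h, hcloE _ _ hfe h⟩
      · by_cases h' : f.2 ∈ Rs ω' e
        · exact ⟨hcloE f.2 f.1 (by rw [show s(f.2, f.1) = s(f.1, f.2) from Sym2.eq_swap]; exact hfe)
            h', h'⟩
        · exact absurd ⟨h, h'⟩ hcon
    have hL : cl ((ω'.erase s(e.1, e.2)).erase s(f.1, f.2)) x = Ls ω' x e := by
      apply cl_erase_of_not_touch
      intro v hv hve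
      rw [Sym2.mem_iff] at hve
      rcases hve with rfl | rfl
      · exact (Finset.disjoint_left.1 he.disj hv) hin.1
      · exact (Finset.disjoint_left.1 he.disj hv) hin.2
    have hsub : Ls ω' x e ⊆ Ls ω' x f := by
      rw [← hL, ← swap]
      exact cl_mono (erase_subset _ _) x
    have he1 : e.1 ∈ Ls ω' x f := hsub he.fst
    have he2 : e.2 ∈ Ls ω' x f := Clo_cl _ _ _ _ hef he1
    have hss : Rs ω' f ⊂ Rs ω' e := by
      rw [ssubset_iff_of_subset]
      · exact ⟨e.2, self_mem_cl _ _, fun h => (Finset.disjoint_left.1 hf.disj he2) h⟩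
      · intro z hz
        have hzC : z ∈ cl ω' x := by rw [hf.cl_eq]; exact mem_union_right _ hz
        rw [he.cl_eq, mem_union] at hzC
        rcases hzC with h | h
        · exact absurd hz (Finset.disjoint_left.1 hf.disj (hsub h))
        · exact h
    exact absurd (card_lt_card hss) (by omega)
  -- step 2 : `D_e ⊆ D_f`
  have h2 : cl ((ω'.erase s(e.1, e.2)).erase s(f.1, f.2)) e.2 = Rs ω' e := by
    apply cl_erase_of_not_touch
    intro v hv hve
    rw [Sym2.mem_iff] at hve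
    rcases hve with rfl | rfl
    · exact h1.1 hv
    · exact h1.2 hv
  have h3 : e.2 ∈ Rs ω' f := by
    rw [Finset.not_disjoint_iff] at hmeet
    obtain ⟨z, hz, hz'⟩ := hmeet
    have h4 : z ∈ cl (ω'.erase s(f.1, f.2)) e.2 := by
      rw [← h2, ← swap] at hz
      exact cl_mono (erase_subset _ _) _ hz
    have h5 : cl (ω'.erase s(f.1, f.2)) z = cl (ω'.erase s(f.1, f.2)) e.2 := cl_eq_of_mem h4
    have h6 : cl (ω'.erase s(f.1, f.2)) z = cl (ω'.erase s(f.1, f.2)) f.2 := cl_eq_of_mem hz'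
    rw [Rs, ← h6, h5]
    exact self_mem_cl _ _
  have h4 : e.1 ∈ Rs ω' f := hcloF e.2 e.1
    (by rw [show s(e.2, e.1) = s(e.1, e.2) from Sym2.eq_swap]; exact hef) h3
  have hxF : x ∉ Rs ω' f := fun h => (Finset.disjoint_left.1 hf.disj (self_mem_cl _ _)) h
  -- `f.2` is joined to `e.1` without `e` and `f`
  have h5 : Conn ((ω'.erase s(e.1, e.2)).erase s(f.1, f.2)) f.2 e.1 := by
    have h6 : Conn (ω'.erase s(f.1, f.2)) f.2 e.1 := mem_cl.1 h4
    rcases h6.erase_cases (u := e.1) (v := e.2) with h | ⟨h, _⟩ | ⟨h, _⟩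
    · rw [swap] at h; exact h
    · rw [swap] at h; exact h
    · exfalso
      apply h1.2
      rw [Rs, mem_cl]
      rw [swap] at h
      exact (h.mono (erase_subset _ _)).symm
  -- pivots of `ω_e` are not inside `D_f`
  have h6 : ∀ i ∈ piv (ω'.erase s(e.1, e.2)) x T, ∀ v ∈ Rs ω' f, v ∉ s(i.1, i.2) := by
    intro i hi
    rw [mem_piv] at hi
    have hsubE : (ω'.erase s(e.1, e.2)).erase s(i.1, i.2) ⊆ ω' :=
      (erase_subset _ _).trans (erase_subset _ _)
    have hif : s(i.1, i.2) ≠ s(f.1, f.2) := by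
      intro heq
      have hL : cl ((ω'.erase s(e.1, e.2)).erase s(f.1, f.2)) x ⊆ Ls ω' x f := by
        rw [← swap]; exact cl_mono (erase_subset _ _) x
      have hi1 := hi.2.1
      have hi5 := hi.2.2.2.2
      rw [heq] at hi1 hi5
      have hi2 : i.2 = f.2 := by
        have : i.2 ∈ s(f.1, f.2) := heq ▸ Sym2.mem_mk_right _ _
        rw [Sym2.mem_iff] at this
        rcases this with h | h
        · have h' : i.1 = f.2 := by
            have h7 : i.1 ∈ s(f.1, f.2) := heq ▸ Sym2.mem_mk_left _ _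
            rw [Sym2.eq_iff] at heq
            rcases heq with ⟨h8, h9⟩ | ⟨h8, h9⟩
            · rw [h9] at h
              exact h8.trans h.symm
            · exact h8
          rw [h'] at hi1
          exact absurd (hL hi1) hf.snd
        · exact h
      rw [hi2] at hi5
      apply hf.miss
      obtain ⟨y, hy, hT⟩ := hi5
      refine ⟨y, ?_, hT⟩
      rw [← swap] at hy
      exact cl_mono (erase_subset _ _) _ hy
    have hi0 : s(i.1, i.2) ∈ ω'.erase s(f.1, f.2) :=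
      mem_erase.2 ⟨hif, (mem_erase.1 hi.1).2⟩
    have hnot : ¬ (i.1 ∈ Rs ω' f ∧ i.2 ∈ Rs ω' f) := by
      rintro ⟨ha, hb⟩
      -- from `i.1` to `x`
      have hax : Conn ((ω'.erase s(e.1, e.2)).erase s(i.1, i.2)) i.1 x :=
        (mem_cl.1 hi.2.1).symm
      have h7 := (exit_lemma hcloF hsubE ha hxF hax).1
      obtain ⟨y, hy, hT⟩ := hi.2.2.2.2
      have hyF : y ∉ Rs ω' f := fun h => hf.miss ⟨y, h, hT⟩
      have h8 := (exit_lemma hcloF hsubE hb hyF (mem_cl.1 hy)).1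
      exact hi.2.2.1 (mem_cl.2 ((hax.symm.trans h7).trans h8.symm))
    intro v hv hve
    rw [Sym2.mem_iff] at hve
    rcases hve with rfl | rfl
    · exact hnot ⟨hv, hcloF _ _ hi0 hv⟩
    · exact hnot ⟨hcloF i.2 i.1
        (by rw [show s(i.2, i.1) = s(i.1, i.2) from Sym2.eq_swap]; exact hi0) hv, hv⟩
  -- the path from `f.2` to `e.1` avoids all pivots
  have h7 : ∀ i ∈ piv (ω'.erase s(e.1, e.2)) x T,
      Conn ((ω'.erase s(e.1, e.2)).erase s(i.1, i.2)) f.2 e.1 := by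
    intro i hi
    have h8 : cl (((ω'.erase s(e.1, e.2)).erase s(f.1, f.2)).erase s(i.1, i.2)) f.2
        = cl ((ω'.erase s(e.1, e.2)).erase s(f.1, f.2)) f.2 := by
      apply cl_erase_of_not_touch
      intro v hv
      apply h6 i hi
      rw [← swap] at hv
      exact cl_mono (erase_subset _ _) _ hv
    have h9 : e.1 ∈ cl (((ω'.erase s(e.1, e.2)).erase s(f.1, f.2)).erase s(i.1, i.2)) f.2 := by
      rw [h8, mem_cl]; exact h5
    have h10 := mem_cl.1 h9
    exact h10.mono (erase_subset_erase _ (erase_subset _ _))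
  -- conclusion
  have hw := he.win
  rw [Wn, mem_filter] at hw ⊢
  obtain ⟨hC, ⟨i, hi, a1, a2, a3⟩, ⟨j, hj, b1, b2, b3⟩⟩ := hw
  refine ⟨?_, ⟨i, hi, a1, a2, ?_⟩, ⟨j, hj, b1, b2, ?_⟩⟩
  · rw [mem_cl] at hC ⊢
    exact hC.trans (h5.mono (erase_subset _ _)).symm
  · intro h
    apply a3
    rw [Ls, mem_cl] at h ⊢
    exact h.trans (h7 i hi)
  · intro h
    apply b3
    rw [Rs, mem_cl] at h ⊢
    exact h.trans (h7 j hj)

/-- the family of dangling bridges with small near side -/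
def Fam (ω' : Finset (Sym2 V)) (x : V) (T : Set V) (s m : ℕ) : Finset (V × V) :=
  (dt ω').filter fun e => (∃ l, Dg ω' x T s e l) ∧ #(Ls ω' x e) ≤ m

lemma Fam_big_le {H : Finset (Sym2 V)} {d m : ℕ} (hd : Deg H d) (hω : ω' ⊆ H) {e0 : V × V}
    (he0 : e0 ∈ Fam ω' x T s m) :
    #((Fam ω' x T s m).filter fun f => ¬ Disjoint (Rs ω' e0) (Rs ω' f) ∧
      #(Rs ω' e0) ≤ #(Rs ω' f)) ≤ d * (2 * s) + 1 := by
  rw [Fam, mem_filter] at he0
  obtain ⟨_, ⟨l0, hl0⟩, _⟩ := he0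
  set W := Wn (ω'.erase s(e0.1, e0.2)) x T s l0 with hW
  have hsub : ((Fam ω' x T s m).filter fun f => ¬ Disjoint (Rs ω' e0) (Rs ω' f) ∧
      #(Rs ω' e0) ≤ #(Rs ω' f)) ⊆ insert e0 (((Fam ω' x T s m)).filter fun f =>
        s(f.1, f.2) ∈ tch H W) := by
    intro f hf
    rw [mem_filter] at hf
    rw [mem_insert, mem_filter]
    by_cases hfe : f = e0
    · exact Or.inl hfe
    · right
      refine ⟨hf.1, ?_⟩
      have hf1 := hf.1
      rw [Fam, mem_filter] at hf1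
      obtain ⟨_, ⟨l, hl⟩, _⟩ := hf1
      have := hl0.key hl (fun h => hfe h.symm) hf.2.1 hf.2.2
      exact mem_tch.2 ⟨hω hl.mem, f.2, this, Sym2.mem_mk_right _ _⟩
  refine (card_le_card hsub).trans ((card_insert_le _ _).trans ?_)
  apply Nat.add_le_add_right
  have h1 : #(((Fam ω' x T s m)).filter fun f => s(f.1, f.2) ∈ tch H W) ≤ #(tch H W) := by
    apply card_le_card_of_injOn (fun f => s(f.1, f.2))
    · intro f hf
      rw [mem_coe, mem_filter] at hf
      exact hf.2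
    · intro f hf g hg h
      rw [mem_coe, mem_filter, Fam, mem_filter] at hf hg
      obtain ⟨l, hl⟩ := hf.1.2.1
      obtain ⟨l', hl'⟩ := hg.1.2.1
      exact hl.eq_of_edge hl' h
  refine h1.trans ((card_tch_le hd W).trans ?_)
  exact Nat.mul_le_mul_left d (card_Wn_le s l0)

theorem sum_Fam_le {H : Finset (Sym2 V)} {d m : ℕ} (hd : Deg H d) (hω : ω' ⊆ H) {t : ℝ}
    (ht0 : 0 ≤ t) (ht : t ≤ m) :
    ∑ e ∈ Fam ω' x T s m, min (#(Rs ω' e) : ℝ) t ≤ 2 * m * (d * (2 * s) + 1 : ℕ) := by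
  set K := d * (2 * s) + 1 with hK
  by_cases hbig : #(cl ω' x) ≤ 2 * m
  · have h1 : ∑ e ∈ Fam ω' x T s m, min (#(Rs ω' e) : ℝ) t
        ≤ ∑ e ∈ Fam ω' x T s m, ∑ v ∈ cl ω' x, ind (v ∈ Rs ω' e) := by
      refine Finset.sum_le_sum fun e he => (min_le_left _ _).trans ?_
      rw [sum_ind_eq_card]
      refine Nat.cast_le.2 (card_le_card ?_)
      intro v hv
      rw [mem_filter]
      rw [Fam, mem_filter] at he
      obtain ⟨_, ⟨l, hl⟩, _⟩ := he
      exact ⟨by rw [hl.cl_eq]; exact mem_union_right _ hv, hv⟩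
    refine h1.trans ?_
    rw [sum_comm]
    have h2 : ∀ v ∈ cl ω' x, ∑ e ∈ Fam ω' x T s m, ind (v ∈ Rs ω' e) ≤ (K : ℝ) := by
      intro v _
      rw [sum_ind_eq_card]
      refine Nat.cast_le.2 ?_
      by_cases hne : (Fam ω' x T s m).filter (fun e => v ∈ Rs ω' e) = ∅
      · rw [hne]; simp
      obtain ⟨e0, he0, hmin⟩ := exists_min_image _ (fun e => #(Rs ω' e))
        (nonempty_iff_ne_empty.2 hne)
      rw [mem_filter] at he0
      refine le_trans (card_le_card ?_) (Fam_big_le hd hω he0.1)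
      intro f hf
      have h3 := hmin f hf
      rw [mem_filter] at hf ⊢
      refine ⟨hf.1, ?_, h3⟩
      rw [Finset.not_disjoint_iff]
      exact ⟨v, he0.2, hf.2⟩
    refine (Finset.sum_le_sum h2).trans ?_
    rw [sum_const, nsmul_eq_mul]
    apply mul_le_mul_of_nonneg_right _ (Nat.cast_nonneg _)
    exact_mod_cast hbig
  · push Not at hbig
    by_cases hne : Fam ω' x T s m = ∅
    · rw [hne, sum_empty]; positivity
    obtain ⟨e0, he0, hmin⟩ := exists_min_image _ (fun e => #(Rs ω' e))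
      (nonempty_iff_ne_empty.2 hne)
    have hR : ∀ e ∈ Fam ω' x T s m, m < #(Rs ω' e) ∧ #(Ls ω' x e) ≤ m := by
      intro e he
      rw [Fam, mem_filter] at he
      obtain ⟨_, ⟨l, hl⟩, h3⟩ := he
      have h4 : #(cl ω' x) = #(Ls ω' x e) + #(Rs ω' e) := by
        rw [hl.cl_eq, card_union_of_disjoint hl.disj]
      exact ⟨by omega, h3⟩
    have hall : Fam ω' x T s m ⊆ (Fam ω' x T s m).filter fun f =>
        ¬ Disjoint (Rs ω' e0) (Rs ω' f) ∧ #(Rs ω' e0) ≤ #(Rs ω' f) := by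
      intro f hf
      rw [mem_filter]
      refine ⟨hf, ?_, hmin f hf⟩
      intro hdis
      have h5 : Rs ω' f ⊆ Ls ω' x e0 := by
        intro v hv
        have he0' := he0
        rw [Fam, mem_filter] at he0' hf
        obtain ⟨_, ⟨l, hl⟩, _⟩ := he0'
        obtain ⟨_, ⟨l', hl'⟩, _⟩ := hf
        have h6 : v ∈ cl ω' x := by rw [hl'.cl_eq]; exact mem_union_right _ hv
        rw [hl.cl_eq, mem_union] at h6
        exact h6.resolve_right (fun h => (Finset.disjoint_left.1 hdis h) hv)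
      have h6 := card_le_card h5
      have h7 := (hR f hf).1
      have h8 := (hR e0 he0).2
      omega
    have hcard : #(Fam ω' x T s m) ≤ K := (card_le_card hall).trans (Fam_big_le hd hω he0)
    calc ∑ e ∈ Fam ω' x T s m, min (#(Rs ω' e) : ℝ) t
        ≤ ∑ e ∈ Fam ω' x T s m, t := Finset.sum_le_sum fun e _ => min_le_right _ _
      _ = #(Fam ω' x T s m) * t := by rw [sum_const, nsmul_eq_mul]
      _ ≤ K * m := mul_le_mul (by exact_mod_cast hcard) ht ht0 (Nat.cast_nonneg _)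
      _ ≤ _ := by
        have : (0 : ℝ) ≤ K * m := by positivity
        nlinarith

end bridges

/-- integrand of Lemma R -/
def GR (x : V) (T : Set V) (s m : ℕ) (t : ℝ) (ω : Finset (Sym2 V)) (e : V × V) : ℝ :=
  ind (#(cl ω x) ≤ m) * (ind (e.1 ∈ cl ω x) * (ind (e.2 ∉ cl ω x) *
    ((∑ l ∈ piv ω x T, ind (e.1 ∈ Wn ω x T s l)) *
      (min (#(cl ω e.2) : ℝ) t * ind (¬ Hit ω e.2 T)))))

lemma sum_GR_le {H ω' : Finset (Sym2 V)} {x : V} {T : Set V} {s m d : ℕ} (hd : Deg H d)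
    (hω : ω' ⊆ H) {t : ℝ} (ht0 : 0 ≤ t) (ht : t ≤ m) :
    ∑ e ∈ dt H, ind (s(e.1, e.2) ∈ ω') * GR x T s m t (ω'.erase s(e.1, e.2)) e
      ≤ 2 * s * (2 * m * (d * (2 * s) + 1 : ℕ)) * ind (Hit ω' x T) := by
  by_cases hh : Hit ω' x T
  swap
  · rw [ind_false hh, mul_zero]
    apply le_of_eq
    apply Finset.sum_eq_zero
    intro e _
    have : piv (ω'.erase s(e.1, e.2)) x T = ∅ := by
      rw [eq_empty_iff_forall_notMem]
      intro l hl
      exact hh ((mem_piv.1 hl).hit.mono (erase_subset _ _))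
    rw [GR, this]; simp
  rw [ind_true hh, mul_one]
  have h1 : ∑ e ∈ dt H, ind (s(e.1, e.2) ∈ ω') * GR x T s m t (ω'.erase s(e.1, e.2)) e
      ≤ ∑ e ∈ Fam ω' x T s m, 2 * s * min (#(Rs ω' e) : ℝ) t := by
    have hsub : Fam ω' x T s m ⊆ dt H := by
      rintro ⟨a, b⟩ he
      rw [Fam, mem_filter, mem_dt] at he
      exact mem_dt.2 (hω he.1)
    rw [← Finset.sum_subset hsub]
    · refine Finset.sum_le_sum fun e _ => ?_
      rw [GR]
      set A : ℝ := ∑ l ∈ piv (ω'.erase s(e.1, e.2)) x T,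
        ind (e.1 ∈ Wn (ω'.erase s(e.1, e.2)) x T s l) with hA
      have hA0 : 0 ≤ A := Finset.sum_nonneg fun _ _ => ind_nonneg _
      have hA1 : A ≤ 2 * s := by
        rw [hA, sum_ind_eq_card]
        have h2 := card_windows_le (ω'.erase s(e.1, e.2)) x T s e.1
        have h3 : (#((piv (ω'.erase s(e.1, e.2)) x T).filter fun l =>
          e.1 ∈ Wn (ω'.erase s(e.1, e.2)) x T s l) : ℝ) ≤ (2 * s : ℕ) := Nat.cast_le.2 h2
        push_cast at h3
        exact h3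
      have hm0 : 0 ≤ min (#(cl (ω'.erase s(e.1, e.2)) e.2) : ℝ) t :=
        le_min (Nat.cast_nonneg _) ht0
      have h5 : A * (min (#(cl (ω'.erase s(e.1, e.2)) e.2) : ℝ) t *
          ind (¬ Hit (ω'.erase s(e.1, e.2)) e.2 T))
          ≤ 2 * s * min (#(Rs ω' e) : ℝ) t := by
        calc _ ≤ A * (min (#(cl (ω'.erase s(e.1, e.2)) e.2) : ℝ) t * 1) := by
              apply mul_le_mul_of_nonneg_left _ hA0
              exact mul_le_mul_of_nonneg_left (ind_le_one _) hm0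
          _ ≤ 2 * s * (min (#(cl (ω'.erase s(e.1, e.2)) e.2) : ℝ) t * 1) := by
              apply mul_le_mul_of_nonneg_right hA1
              rw [mul_one]; exact hm0
          _ = _ := by rw [mul_one, Rs]
      have h6 : 0 ≤ A * (min (#(cl (ω'.erase s(e.1, e.2)) e.2) : ℝ) t *
          ind (¬ Hit (ω'.erase s(e.1, e.2)) e.2 T)) :=
        mul_nonneg hA0 (mul_nonneg hm0 (ind_nonneg _))
      have aux : ∀ (P : Prop) (y : ℝ), 0 ≤ y → ind P * y ≤ y := fun P y hy =>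
        mul_le_of_le_one_left hy (ind_le_one _)
      have aux2 : ∀ (P : Prop) (y : ℝ), 0 ≤ y → 0 ≤ ind P * y := fun P y hy =>
        mul_nonneg (ind_nonneg _) hy
      refine (aux _ _ (aux2 _ _ (aux2 _ _ (aux2 _ _ h6)))).trans ?_
      refine (aux _ _ (aux2 _ _ (aux2 _ _ h6))).trans ?_
      refine (aux _ _ (aux2 _ _ h6)).trans ?_
      exact (aux _ _ h6).trans h5
    · intro e he hn
      by_contra hne
      apply hn
      have hmem : s(e.1, e.2) ∈ ω' := by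
        by_contra h; rw [ind_false h, zero_mul] at hne; exact hne rfl
      rw [GR] at hne
      have h2 : #(cl (ω'.erase s(e.1, e.2)) x) ≤ m := by
        by_contra h; rw [ind_false h] at hne; simp at hne
      have h3 : e.1 ∈ cl (ω'.erase s(e.1, e.2)) x := by
        by_contra h; rw [ind_false h] at hne; simp at hne
      have h4 : e.2 ∉ cl (ω'.erase s(e.1, e.2)) x := by
        intro h
        rw [ind_false (P := e.2 ∉ cl (ω'.erase s(e.1, e.2)) x) (by simpa using h)] at hne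
        simp at hne
      have h5 : ¬ Hit (ω'.erase s(e.1, e.2)) e.2 T := by
        intro h
        rw [ind_false (P := ¬ Hit (ω'.erase s(e.1, e.2)) e.2 T) (by simpa using h)] at hne
        simp at hne
      have h6 : ∃ l ∈ piv (ω'.erase s(e.1, e.2)) x T,
          e.1 ∈ Wn (ω'.erase s(e.1, e.2)) x T s l := by
        by_contra hcon
        push Not at hcon
        have h7 : ∑ l ∈ piv (ω'.erase s(e.1, e.2)) x T,
          ind (e.1 ∈ Wn (ω'.erase s(e.1, e.2)) x T s l) = 0 :=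
          Finset.sum_eq_zero fun l hl => ind_false (hcon l hl)
        rw [h7] at hne
        simp at hne
      obtain ⟨l, hl, hlw⟩ := h6
      rw [Fam, mem_filter]
      exact ⟨mem_dt.2 hmem, ⟨l, hmem, h3, h4, h5, hl, hlw⟩, h2⟩
  refine h1.trans ?_
  rw [← mul_sum]
  exact mul_le_mul_of_nonneg_left (sum_Fam_le hd hω ht0 ht) (by positivity)

/-- **Lemma R.** -/
theorem lemmaR {p : ℝ} (hp0 : 0 < p) (hp1 : p < 1) {H : Finset (Sym2 V)} {d : ℕ}
    (hd : Deg H d) (x : V) (T : Set V) {m s : ℕ} {t : ℝ} (ht0 : 0 ≤ t) (ht : t ≤ m) :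
    p * Ex p H (fun ω => ind (#(cl ω x) ≤ m) * ∑ l ∈ piv ω x T,
        RR p H T (cl ω x) (Wn ω x T s l) t)
      ≤ (1 - p) * (2 * s * (2 * m * (d * (2 * s) + 1 : ℕ)) * PH p H x T) := by
  have hq : 0 < 1 - p := by linarith
  -- Markov
  have h1 : Ex p H (fun ω => ind (#(cl ω x) ≤ m) * ∑ l ∈ piv ω x T,
        RR p H T (cl ω x) (Wn ω x T s l) t)
      = Ex p H (fun ω => ∑ e ∈ dt H, GR x T s m t ω e) := by
    rw [Ex_markov p H x (fun ω => ∑ e ∈ dt H, GR x T s m t ω e)]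
    refine Ex_congr fun ω hω => ?_
    have h2 : ∑ l ∈ piv ω x T, RR p H T (cl ω x) (Wn ω x T s l) t
        = ∑ e ∈ bd H (cl ω x), (∑ l ∈ piv ω x T, ind (e.1 ∈ Wn ω x T s l)) *
          Ex p (off H (cl ω x)) (fun η => min (#(cl η e.2) : ℝ) t * ind (¬ Hit η e.2 T)) := by
      simp only [RR, sum_mul]
      rw [sum_comm]
      refine Finset.sum_congr rfl fun l _ => ?_
      rw [sum_filter]
      refine Finset.sum_congr rfl fun e _ => ?_
      by_cases h : e.1 ∈ Wn ω x T s l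
      · rw [if_pos h, ind_true h, one_mul]
      · rw [if_neg h, ind_false h, zero_mul]
    rw [h2]
    have h3 : ∀ e : V × V, (∑ l ∈ piv ω x T, ind (e.1 ∈ Wn ω x T s l)) *
          Ex p (off H (cl ω x)) (fun η => min (#(cl η e.2) : ℝ) t * ind (¬ Hit η e.2 T))
        = Ex p (off H (cl ω x)) (fun η => (∑ l ∈ piv ω x T, ind (e.1 ∈ Wn ω x T s l)) *
          (min (#(cl η e.2) : ℝ) t * ind (¬ Hit η e.2 T))) := fun e => (Ex_mul_left _ _ _ _).symm
    simp only [h3]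
    rw [← Ex_sum, ← Ex_mul_left]
    refine Ex_congr fun η hη => ?_
    have hA := Agr_mix (x := x) hω hη
    rw [← Finset.sum_subset (bd_subset_dt (cl ω x))]
    · rw [mul_sum]
      refine Finset.sum_congr rfl fun e he => ?_
      obtain ⟨a, b⟩ := e
      rw [mem_bd] at he
      rw [GR, ← hA.cl_eq, ← hA.piv_eq, ind_true (P := (a, b).1 ∈ cl ω x) he.1,
        ind_true (P := (a, b).2 ∉ cl ω x) he.2.1, one_mul, one_mul, Hit, Hit,
        cl_mix_other hω hη he.2.1]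
      congr 2
      refine Finset.sum_congr rfl fun l _ => ?_
      rw [← hA.Wn_eq]
    · rintro ⟨a, b⟩ he hn
      rw [mem_bd] at hn
      rw [mem_dt] at he
      rw [GR, ← hA.cl_eq]
      by_cases h4 : a ∈ cl ω x
      · by_cases h5 : b ∈ cl ω x
        · rw [ind_false (P := (a, b).2 ∉ cl ω x) (by simpa using h5)]; simp
        · exact absurd ⟨h4, h5, he⟩ hn
      · rw [ind_false (P := (a, b).1 ∈ cl ω x) h4]; simp
  -- flip
  have h2 : Ex p H (fun ω => ∑ e ∈ dt H, GR x T s m t ω e)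
      = Ex p H (fun ω => ∑ e ∈ dt H, ind (s(e.1, e.2) ∉ ω) * GR x T s m t ω e) := by
    refine Ex_congr fun ω _ => Finset.sum_congr rfl fun e _ => ?_
    by_cases h : s(e.1, e.2) ∈ ω
    · rw [ind_false (P := s(e.1, e.2) ∉ ω) (by simpa using h), zero_mul, GR]
      by_cases h4 : e.1 ∈ cl ω x
      · have h5 : e.2 ∈ cl ω x := Clo_cl _ _ _ _ h h4
        rw [ind_false (P := e.2 ∉ cl ω x) (by simpa using h5)]; simp
      · rw [ind_false h4]; simp
    · rw [ind_true (P := s(e.1, e.2) ∉ ω) h, one_mul]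
  rw [h1, h2, ← Ex_dt_flip]
  apply mul_le_mul_of_nonneg_left _ hq.le
  rw [PH, ← Ex_mul_left]
  exact Ex_mono hp0.le hp1.le fun ω hω => sum_GR_le hd hω ht0 ht

end

end H97.IIC
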