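import Pool.Agent.H97.IIC.Basic

/-!
# Lemma C: few pivotal edges in a cluster of given size
-/

open Finset
open scoped Classical

namespace H97.IIC

noncomputable section

variable {V : Type*}

/-- the cluster of `w` meets `Y` -/
def Hit (ω : Finset (Sym2 V)) (w : V) (Y : Set V) : Prop := ∃ y ∈ cl ω w, y ∈ Y

lemma Hit.mono {ω ω' : Finset (Sym2 V)} (h : ω ⊆ ω') {w : V} {Y : Set V} (hh : Hit ω w Y) :
    Hit ω' w Y := by
  obtain ⟨y, hy, hY⟩ := hh
  exact ⟨y, cl_mono h w hy, hY⟩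

/-- number of open pivotal edges (when `Hit ω w Y`). -/
def npiv (ω : Finset (Sym2 V)) (w : V) (Y : Set V) : ℕ :=
  #(ω.filter fun e => ¬ Hit (ω.erase e) w Y)

/-- boundary darts of `S` in `H` -/
def bd (H : Finset (Sym2 V)) (S : Finset V) : Finset (V × V) :=
  (S ×ˢ vs H).filter fun x => x.2 ∉ S ∧ s(x.1, x.2) ∈ H

lemma mem_bd {H : Finset (Sym2 V)} {S : Finset V} {a b : V} :
    (a, b) ∈ bd H S ↔ a ∈ S ∧ b ∉ S ∧ s(a, b) ∈ H := by
  rw [bd, mem_filter, mem_product]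
  constructor
  · rintro ⟨⟨h1, _⟩, h2, h3⟩; exact ⟨h1, h2, h3⟩
  · rintro ⟨h1, h2, h3⟩
    exact ⟨⟨h1, mem_vs.2 ⟨_, h3, Sym2.mem_mk_right _ _⟩⟩, h2, h3⟩

/-- degree bound -/
def Deg (H : Finset (Sym2 V)) (d : ℕ) : Prop := ∀ v, #(H.filter fun e => v ∈ e) ≤ d

lemma Deg.mono {H H' : Finset (Sym2 V)} {d : ℕ} (h : H' ⊆ H) (hd : Deg H d) : Deg H' d :=
  fun v => (card_le_card (filter_subset_filter _ h)).trans (hd v)

lemma card_tch_le {H : Finset (Sym2 V)} {d : ℕ} (hd : Deg H d) (S : Finset V) :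
    #(tch H S) ≤ d * #S := by
  have : tch H S ⊆ S.biUnion fun v => H.filter fun e => v ∈ e := by
    intro e he
    obtain ⟨h1, v, hv, hve⟩ := mem_tch.1 he
    exact mem_biUnion.2 ⟨v, hv, mem_filter.2 ⟨h1, hve⟩⟩
  refine (card_le_card this).trans ?_
  rw [mul_comm]
  exact card_biUnion_le_card_mul _ _ _ fun v _ => hd v

lemma bd_injOn (H : Finset (Sym2 V)) (S : Finset V) :
    Set.InjOn (fun x : V × V => s(x.1, x.2)) (bd H S : Set (V × V)) := by
  rintro ⟨a, b⟩ h1 ⟨a', b'⟩ h2 h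
  rw [mem_coe, mem_bd] at h1 h2
  simp only [Sym2.eq_iff] at h
  rcases h with ⟨rfl, rfl⟩ | ⟨rfl, rfl⟩
  · rfl
  · exact absurd h1.1 h2.2.1

lemma card_bd_le {H : Finset (Sym2 V)} {d : ℕ} (hd : Deg H d) (S : Finset V) :
    #(bd H S) ≤ d * #S := by
  rw [← card_image_of_injOn (bd_injOn H S)]
  refine (card_le_card ?_).trans (card_tch_le hd S)
  intro e he
  obtain ⟨⟨a, b⟩, h, rfl⟩ := mem_image.1 he
  rw [mem_bd] at h
  exact mem_tch.2 ⟨h.2.2, a, h.1, Sym2.mem_mk_left _ _⟩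

/-- adding an edge which does not touch the cluster. -/
lemma cl_insert_of_not_touch {ω : Finset (Sym2 V)} {e : Sym2 V} {w : V}
    (h : ∀ v ∈ cl ω w, v ∉ e) : cl (insert e ω) w = cl ω w := by
  have := (cl_union_off_iff (H := {e}) (a := ω) (b := {e}) (S := cl ω w) (x := w) (by
    intro f hf
    rw [mem_singleton] at hf
    subst hf
    exact mem_off.2 ⟨mem_singleton_self _, h⟩)).2 rfl
  rwa [union_comm, ← insert_eq] at this

lemma touch_insert_iff {ω : Finset (Sym2 V)} {e : Sym2 V} {w : V} :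
    (∃ v ∈ cl (insert e ω) w, v ∈ e) ↔ ∃ v ∈ cl ω w, v ∈ e := by
  constructor
  · intro h
    by_contra h'
    push Not at h'
    obtain ⟨v, hv, hve⟩ := h
    rw [cl_insert_of_not_touch h'] at hv
    exact h' v hv hve
  · rintro ⟨v, hv, hve⟩
    exact ⟨v, cl_mono (subset_insert _ _) w hv, hve⟩

/-- adding a boundary edge -/
lemma cl_insert_bd {ω : Finset (Sym2 V)} {a b w : V} (ha : a ∈ cl ω w) :
    cl (insert s(a, b) ω) w = cl ω w ∪ cl ω b := by
  ext y
  rw [mem_union, mem_cl, mem_cl, mem_cl]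
  rw [mem_cl] at ha
  constructor
  · intro h
    rcases h.insert_cases with h | ⟨_, h⟩ | ⟨_, h⟩
    · exact Or.inl h
    · exact Or.inr h
    · exact Or.inl (ha.trans h)
  · have hm : ω ⊆ insert s(a, b) ω := subset_insert _ _
    rintro (h | h)
    · exact h.mono hm
    · exact ((ha.mono hm).tail (mem_insert_self _ _)).trans (h.mono hm)

lemma cl_insert_inside {ω : Finset (Sym2 V)} {a b w : V} (ha : a ∈ cl ω w) (hb : b ∈ cl ω w) :
    cl (insert s(a, b) ω) w = cl ω w := by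
  rw [cl_insert_bd ha, cl_eq_of_mem hb, union_self]

lemma cl_disjoint {ω : Finset (Sym2 V)} {x y : V} (h : y ∉ cl ω x) :
    Disjoint (cl ω x) (cl ω y) := by
  rw [Finset.disjoint_left]
  intro z hz hz'
  rw [mem_cl] at *
  exact h (hz.trans hz'.symm)

/-! ### exponential moments -/

lemma one_add_ge_exp {x : ℝ} (h1 : -(1/2) ≤ x) (h2 : x ≤ 1/2) :
    Real.exp (x - 2 * x ^ 2) ≤ 1 + x := by
  have h3 : 0 < 1 - x + 2 * x ^ 2 := by nlinarith [sq_nonneg x]
  have h4 : 1 - x + 2 * x ^ 2 ≤ Real.exp (-(x - 2 * x ^ 2)) := by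
    have := Real.add_one_le_exp (-(x - 2 * x ^ 2)); linarith
  have h5 : Real.exp (x - 2 * x ^ 2) * Real.exp (-(x - 2 * x ^ 2)) = 1 := by
    rw [← Real.exp_add]; simp
  have h6 : 0 < Real.exp (x - 2 * x ^ 2) := Real.exp_pos _
  have h7 : Real.exp (x - 2 * x ^ 2) * (1 - x + 2 * x ^ 2) ≤ 1 :=
    (mul_le_mul_of_nonneg_left h4 h6.le).trans h5.le
  have h8 : 1 ≤ (1 + x) * (1 - x + 2 * x ^ 2) := by nlinarith [sq_nonneg x]
  by_contra h
  push Not at h
  nlinarith [mul_lt_mul_of_pos_right h h3]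

/-- `O - λ Q` : open minus `λ` times closed edges touching the cluster. -/
def Xs (p : ℝ) (H ω : Finset (Sym2 V)) (w : V) : ℝ :=
  ∑ e ∈ tch H (cl ω w), (ind (e ∈ ω) - p / (1 - p) * ind (e ∉ ω))

lemma Xs_eq (p : ℝ) (H ω : Finset (Sym2 V)) (w : V) :
    Xs p H ω w = #(ω ∩ tch H (cl ω w)) - p / (1 - p) * #(tch H (cl ω w) \ (ω ∩ tch H (cl ω w))) := by
  rw [Xs, sum_sub_distrib, ← mul_sum]
  have h1 : ∀ (P : Sym2 V → Prop) (s : Finset (Sym2 V)), ∑ e ∈ s, ind (P e) = #(s.filter P) := by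
    intro P s
    rw [card_filter, Nat.cast_sum]
    refine Finset.sum_congr rfl fun e _ => ?_
    unfold ind; split_ifs <;> simp
  rw [h1, h1]
  congr 1
  · congr 2
    ext e; simp only [mem_filter, mem_inter]; tauto
  · congr 3
    ext e; simp only [mem_filter, mem_sdiff, mem_inter]; tauto

/-- change of measure -/
theorem Ex_tilt {p θ : ℝ} (hp1 : p < 1) (H : Finset (Sym2 V)) (w : V) :
    Ex p H (fun ω => (1 + θ) ^ #(ω ∩ tch H (cl ω w)) *
      (1 - p / (1 - p) * θ) ^ #(tch H (cl ω w) \ (ω ∩ tch H (cl ω w)))) = 1 := by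
  have hq : (1 - p) ≠ 0 := by linarith
  have h1 := Ex_cluster p H w (fun S a => (1 + θ) ^ #a * (1 - p / (1 - p) * θ) ^ #(tch H S \ a))
  have h2 := Ex_cluster (p * (1 + θ)) H w (fun _ _ => 1)
  rw [Ex_const] at h2
  refine h1.trans (Eq.trans ?_ h2.symm)
  refine Finset.sum_congr rfl fun S _ => ?_
  simp only [Ex]
  refine Finset.sum_congr rfl fun a _ => ?_
  have e : 1 - p * (1 + θ) = (1 - p) * (1 - p / (1 - p) * θ) := by field_simp; ring
  rw [wt, wt, e, mul_pow, mul_pow]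
  ring

theorem Ex_exp_le {p θ : ℝ} (hp0 : 0 < p) (hp1 : p < 1) (hθ0 : 0 ≤ θ) (hθ1 : θ ≤ 1/2)
    (hθ2 : p / (1 - p) * θ ≤ 1/2) {H : Finset (Sym2 V)} {d : ℕ} (hd : Deg H d) (w : V) :
    Ex p H (fun ω => Real.exp (θ * Xs p H ω w
      - 2 * θ ^ 2 * (1 + (p / (1 - p)) ^ 2) * (d * #(cl ω w)))) ≤ 1 := by
  set lam := p / (1 - p) with hl
  have hl0 : 0 ≤ lam := div_nonneg hp0.le (by linarith)
  refine le_trans (Ex_mono hp0.le hp1.le fun ω _ => ?_) (Ex_tilt (θ := θ) hp1 H w).le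
  rw [Xs_eq, ← hl]
  set O := #(ω ∩ tch H (cl ω w)) with hO
  set Q := #(tch H (cl ω w) \ (ω ∩ tch H (cl ω w))) with hQ
  have hcard : (O : ℝ) + Q ≤ d * #(cl ω w) := by
    have h1 := card_tch_le hd (cl ω w)
    have h2 : O + Q = #(tch H (cl ω w)) := by
      rw [hO, hQ, add_comm]
      exact card_sdiff_add_card_eq_card inter_subset_right
    rw [← h2] at h1
    exact_mod_cast h1
  have e1 : Real.exp (θ - 2 * θ ^ 2) ≤ 1 + θ := one_add_ge_exp (by linarith) hθ1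
  have e2 : Real.exp (-(lam * θ) - 2 * (lam * θ) ^ 2) ≤ 1 - lam * θ := by
    have := one_add_ge_exp (x := -(lam * θ)) (by linarith) (by nlinarith [mul_nonneg hl0 hθ0])
    rw [neg_sq] at this
    linarith
  calc Real.exp (θ * (O - lam * Q) - 2 * θ ^ 2 * (1 + lam ^ 2) * (d * #(cl ω w)))
      ≤ Real.exp (O * (θ - 2 * θ ^ 2) + Q * (-(lam * θ) - 2 * (lam * θ) ^ 2)) := by
        apply Real.exp_le_exp.2
        have hO0 : (0 : ℝ) ≤ O := Nat.cast_nonneg _
        have hQ0 : (0 : ℝ) ≤ Q := Nat.cast_nonneg _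
        have h3 : 2 * θ ^ 2 * (1 + lam ^ 2) * (O + Q) ≤ 2 * θ ^ 2 * (1 + lam ^ 2) * (d * #(cl ω w)) :=
          mul_le_mul_of_nonneg_left hcard (by positivity)
        have h4 : 0 ≤ 2 * θ ^ 2 * lam ^ 2 * O := by positivity
        have h5 : 0 ≤ 2 * θ ^ 2 * Q := by positivity
        nlinarith
    _ = Real.exp (θ - 2 * θ ^ 2) ^ O * Real.exp (-(lam * θ) - 2 * (lam * θ) ^ 2) ^ Q := by
        rw [Real.exp_add, Real.exp_nat_mul, Real.exp_nat_mul]
    _ ≤ (1 + θ) ^ O * (1 - lam * θ) ^ Q :=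
        mul_le_mul (pow_le_pow_left₀ (Real.exp_pos _).le e1 _)
          (pow_le_pow_left₀ (Real.exp_pos _).le e2 _) (by positivity) (by positivity)

/-- Large deviations of `Xs`. -/
theorem Ex_dev {p θ c m : ℝ} (hp0 : 0 < p) (hp1 : p < 1) (hθ0 : 0 ≤ θ) (hθ1 : θ ≤ 1/2)
    (hθ2 : p / (1 - p) * θ ≤ 1/2) {H : Finset (Sym2 V)} {d : ℕ} (hd : Deg H d) (w : V)
    (hθ3 : 2 * θ * (1 + (p / (1 - p)) ^ 2) * d ≤ c) :
    Ex p H (fun ω => ind (c * (#(cl ω w) + m) < Xs p H ω w)) ≤ Real.exp (-(θ * c * m)) := by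
  have h := Ex_exp_le hp0 hp1 hθ0 hθ1 hθ2 hd w
  have h1 : Ex p H (fun ω => Real.exp (θ * c * m) * ind (c * (#(cl ω w) + m) < Xs p H ω w)) ≤ 1 := by
    refine le_trans (Ex_mono hp0.le hp1.le fun ω _ => ?_) h
    by_cases hX : c * (#(cl ω w) + m) < Xs p H ω w
    · rw [ind_true hX, mul_one]
      apply Real.exp_le_exp.2
      have hc : (0 : ℝ) ≤ #(cl ω w) := Nat.cast_nonneg _
      have h2 : θ * (c * (#(cl ω w) + m)) ≤ θ * Xs p H ω w := mul_le_mul_of_nonneg_left hX.le hθ0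
      have h3 : θ * #(cl ω w) * (2 * θ * (1 + (p / (1 - p)) ^ 2) * d) ≤ θ * #(cl ω w) * c :=
        mul_le_mul_of_nonneg_left hθ3 (by positivity)
      nlinarith
    · rw [ind_false hX, mul_zero]; exact (Real.exp_pos _).le
  rw [Ex_mul_left] at h1
  rw [Real.exp_neg]
  have hpos := Real.exp_pos (θ * c * m)
  rw [inv_eq_one_div, le_div_iff₀ hpos, mul_comm]
  exact h1

/-! ### Russo's formula -/

theorem Ex_russo {p : ℝ} (hp1 : p < 1) (H : Finset (Sym2 V)) (w : V)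
    (F : Finset (Sym2 V) → ℝ)
    (hF : ∀ ω e, (∀ v ∈ cl ω w, v ∉ e) → F (insert e ω) = F ω) :
    Ex p H (fun ω => F ω * Xs p H ω w)
      = Ex p H (fun ω => ∑ e ∈ ω, (F ω - F (ω.erase e))) := by
  have hq : (1 - p) ≠ 0 := by linarith
  have hL : Ex p H (fun ω => F ω * Xs p H ω w)
      = ∑ e ∈ H, Ex p H (fun ω => F ω * (ind (∃ v ∈ cl ω w, v ∈ e) *
          (ind (e ∈ ω) - p / (1 - p) * ind (e ∉ ω)))) := by
    rw [← Ex_sum]
    refine Ex_congr fun ω _ => ?_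
    rw [← mul_sum]
    congr 1
    rw [Xs, tch, sum_filter]
    refine Finset.sum_congr rfl fun e _ => ?_
    by_cases h : ∃ v ∈ cl ω w, v ∈ e
    · rw [if_pos h, ind_true h, one_mul]
    · rw [if_neg h, ind_false h, zero_mul]
  have hR : Ex p H (fun ω => ∑ e ∈ ω, (F ω - F (ω.erase e)))
      = ∑ e ∈ H, Ex p H (fun ω => ind (e ∈ ω) * (F ω - F (ω.erase e))) := by
    rw [← Ex_sum]
    refine Ex_congr fun ω hω => ?_
    have e1 : ω = H.filter (fun e => e ∈ ω) := by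
      ext e; simp only [mem_filter]; exact ⟨fun h => ⟨hω h, h⟩, fun h => h.2⟩
    conv_lhs => rw [e1, sum_filter]
    rw [← e1]
    refine Finset.sum_congr rfl fun e _ => ?_
    by_cases h : e ∈ ω
    · rw [if_pos h, ind_true h, one_mul]
    · rw [if_neg h, ind_false h, zero_mul]
  rw [hL, hR]
  refine Finset.sum_congr rfl fun e he => ?_
  rw [Ex_erase he, Ex_erase he]
  have l1 : Ex p (H.erase e) (fun ω => F (insert e ω) * (ind (∃ v ∈ cl (insert e ω) w, v ∈ e) *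
      (ind (e ∈ insert e ω) - p / (1 - p) * ind (e ∉ insert e ω))))
      = Ex p (H.erase e) (fun ω => F (insert e ω) * ind (∃ v ∈ cl ω w, v ∈ e)) :=
    Ex_congr fun ω _ => by
      rw [ind_congr touch_insert_iff, ind_true (mem_insert_self e ω),
        ind_false (P := e ∉ insert e ω) (by simp)]
      ring
  have l2 : Ex p (H.erase e) (fun ω => F ω * (ind (∃ v ∈ cl ω w, v ∈ e) *
      (ind (e ∈ ω) - p / (1 - p) * ind (e ∉ ω))))
      = -(p / (1 - p)) * Ex p (H.erase e) (fun ω => F ω * ind (∃ v ∈ cl ω w, v ∈ e)) := by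
    rw [← Ex_mul_left]
    refine Ex_congr fun ω hω => ?_
    have hn : e ∉ ω := fun h => (mem_erase.1 (hω h)).1 rfl
    rw [ind_false hn, ind_true (P := e ∉ ω) hn]
    ring
  have l3 : Ex p (H.erase e) (fun ω => ind (e ∈ insert e ω) *
      (F (insert e ω) - F ((insert e ω).erase e)))
      = Ex p (H.erase e) (fun ω => F (insert e ω) - F ω) :=
    Ex_congr fun ω hω => by
      have hn : e ∉ ω := fun h => (mem_erase.1 (hω h)).1 rfl
      rw [ind_true (mem_insert_self e ω), one_mul, erase_insert hn]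
  have l4 : Ex p (H.erase e) (fun ω => ind (e ∈ ω) * (F ω - F (ω.erase e))) = 0 := by
    rw [← Ex_zero p (H.erase e)]
    refine Ex_congr fun ω hω => ?_
    have hn : e ∉ ω := fun h => (mem_erase.1 (hω h)).1 rfl
    rw [ind_false hn, zero_mul]
  rw [l1, l2, l3, l4]
  have l5 : (1 - p) * (-(p / (1 - p)) * Ex p (H.erase e) (fun ω => F ω * ind (∃ v ∈ cl ω w, v ∈ e)))
      = -(p * Ex p (H.erase e) (fun ω => F ω * ind (∃ v ∈ cl ω w, v ∈ e))) := by
    field_simp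
  rw [l5, mul_zero, add_zero, ← sub_eq_add_neg, ← mul_sub, ← Ex_sub]
  congr 1
  refine Ex_congr fun ω _ => ?_
  by_cases h : ∃ v ∈ cl ω w, v ∈ e
  · rw [ind_true h]; ring
  · rw [ind_false h]
    push Not at h
    rw [hF ω e h]; ring

lemma Ex_sum_flip {p : ℝ} (H : Finset (Sym2 V)) (G : Finset (Sym2 V) → Sym2 V → ℝ) :
    (1 - p) * Ex p H (fun ω => ∑ e ∈ ω, G (ω.erase e) e)
      = p * Ex p H (fun ω => ∑ e ∈ H, ind (e ∉ ω) * G ω e) := by
  have hR : Ex p H (fun ω => ∑ e ∈ ω, G (ω.erase e) e)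
      = ∑ e ∈ H, Ex p H (fun ω => ind (e ∈ ω) * G (ω.erase e) e) := by
    rw [← Ex_sum]
    refine Ex_congr fun ω hω => ?_
    have e1 : ω = H.filter (fun e => e ∈ ω) := by
      ext e; simp only [mem_filter]; exact ⟨fun h => ⟨hω h, h⟩, fun h => h.2⟩
    conv_lhs => rw [e1, sum_filter]
    rw [← e1]
    refine Finset.sum_congr rfl fun e _ => ?_
    by_cases h : e ∈ ω
    · rw [if_pos h, ind_true h, one_mul]
    · rw [if_neg h, ind_false h, zero_mul]
  rw [hR, Ex_sum, mul_sum, mul_sum]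
  refine Finset.sum_congr rfl fun e he => ?_
  rw [Ex_flip he (fun ω => G (ω.erase e) e)]
  congr 1
  refine Ex_congr fun ω _ => ?_
  by_cases h : e ∈ ω
  · rw [ind_false (P := e ∉ ω) (by simpa using h)]; ring
  · rw [erase_insert h]

/-! ### Lemma C -/

/-- the error term of Lemma C -/
def Er (g : ℕ → ℝ) (Y : Set V) (w : V) (ω : Finset (Sym2 V)) (e : Sym2 V) : ℝ :=
  ind (Hit ω w Y) * max 0 (g #(cl ω w) - g #(cl (insert e ω) w))

lemma Er_nonneg (g : ℕ → ℝ) (Y : Set V) (w : V) (ω : Finset (Sym2 V)) (e : Sym2 V) :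
    0 ≤ Er g Y w ω e := mul_nonneg (ind_nonneg _) (le_max_left _ _)

lemma Er_eq_zero {g : ℕ → ℝ} {Y : Set V} {w : V} {ω : Finset (Sym2 V)} {e : Sym2 V}
    (h : cl (insert e ω) w = cl ω w) : Er g Y w ω e = 0 := by
  rw [Er, h]; simp

lemma card_insert_bd {ω : Finset (Sym2 V)} {a b w : V} (ha : a ∈ cl ω w) (hb : b ∉ cl ω w) :
    #(cl (insert s(a, b) ω) w) = #(cl ω w) + #(cl ω b) := by
  rw [cl_insert_bd ha, card_union_of_disjoint (cl_disjoint hb)]

lemma sum_Er_le {g : ℕ → ℝ} {Γ m : ℝ} (hΓ : 0 ≤ Γ) (hm : 0 < m) (hg0 : ∀ s, 0 ≤ g s)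
    (hg2 : ∀ s x : ℕ, s * (g s - g (s + x)) ≤ Γ * min 1 (x / m))
    (Y : Set V) (w : V) {H ω : Finset (Sym2 V)} :
    ∑ e ∈ H, ind (e ∉ ω) * Er g Y w ω e ≤
      ind (Hit ω w Y) * ind (0 < g #(cl ω w)) * (Γ / #(cl ω w)) *
        ∑ x ∈ bd H (cl ω w), min 1 ((#(cl ω x.2) : ℝ) / m) := by
  have h1 : ∑ e ∈ H, ind (e ∉ ω) * Er g Y w ω e
      ≤ ∑ e ∈ (bd H (cl ω w)).image (fun x : V × V => s(x.1, x.2)), Er g Y w ω e := by
    have hsub : (bd H (cl ω w)).image (fun x : V × V => s(x.1, x.2)) ⊆ H := by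
      intro e he
      obtain ⟨⟨a, b⟩, h, rfl⟩ := mem_image.1 he
      exact (mem_bd.1 h).2.2
    rw [← Finset.sum_subset (f := fun e => ind (e ∉ ω) * Er g Y w ω e) hsub]
    · refine Finset.sum_le_sum fun e _ => ?_
      calc ind (e ∉ ω) * Er g Y w ω e ≤ 1 * Er g Y w ω e :=
            mul_le_mul_of_nonneg_right (ind_le_one _) (Er_nonneg _ _ _ _ _)
        _ = _ := one_mul _
    · intro e he hn
      rw [Er_eq_zero, mul_zero]
      induction e using Sym2.ind with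
      | _ a b =>
        by_cases ha : a ∈ cl ω w
        · by_cases hb : b ∈ cl ω w
          · exact cl_insert_inside ha hb
          · exact absurd (mem_image.2 ⟨(a, b), mem_bd.2 ⟨ha, hb, he⟩, rfl⟩) hn
        · by_cases hb : b ∈ cl ω w
          · refine absurd (mem_image.2 ⟨(b, a), mem_bd.2 ⟨hb, ha, by rwa [Sym2.eq_swap]⟩, ?_⟩) hn
            exact Sym2.eq_swap
          · apply cl_insert_of_not_touch
            intro v hv hve
            rw [Sym2.mem_iff] at hve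
            rcases hve with rfl | rfl
            · exact ha hv
            · exact hb hv
  refine h1.trans ?_
  rw [sum_image (bd_injOn H _), mul_sum]
  refine Finset.sum_le_sum fun x hx => ?_
  obtain ⟨a, b⟩ := x
  rw [mem_bd] at hx
  simp only
  rw [Er, card_insert_bd hx.1 hx.2.1]
  have hs : (0 : ℝ) < #(cl ω w) := by exact_mod_cast cl_pos ω w
  have key : max 0 (g #(cl ω w) - g (#(cl ω w) + #(cl ω b)))
      ≤ ind (0 < g #(cl ω w)) * (Γ / #(cl ω w)) * min 1 ((#(cl ω b) : ℝ) / m) := by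
    by_cases h0 : 0 < g #(cl ω w)
    · rw [ind_true h0, one_mul]
      have h2 := hg2 #(cl ω w) #(cl ω b)
      have h3 : g #(cl ω w) - g (#(cl ω w) + #(cl ω b))
          ≤ Γ / #(cl ω w) * min 1 ((#(cl ω b) : ℝ) / m) := by
        rw [div_mul_eq_mul_div, le_div_iff₀ hs, mul_comm]; exact h2
      exact max_le (by positivity) h3
    · rw [ind_false h0, zero_mul, zero_mul]
      have h5 : g #(cl ω w) = 0 := le_antisymm (not_lt.1 h0) (hg0 _)
      rw [h5]
      exact max_le le_rfl (by linarith [hg0 (#(cl ω w) + #(cl ω b))])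
  calc ind (Hit ω w Y) * max 0 (g #(cl ω w) - g (#(cl ω w) + #(cl ω b)))
      ≤ ind (Hit ω w Y) * (ind (0 < g #(cl ω w)) * (Γ / #(cl ω w)) *
          min 1 ((#(cl ω b) : ℝ) / m)) := mul_le_mul_of_nonneg_left key (ind_nonneg _)
    _ = _ := by ring

lemma Ex_sum_Er_le {p : ℝ} (hp0 : 0 < p) (hp1 : p < 1) {g : ℕ → ℝ} {Γ m ε : ℝ} (hΓ : 0 ≤ Γ)
    (hm : 0 < m) (hg0 : ∀ s, 0 ≤ g s)
    (hg2 : ∀ s x : ℕ, s * (g s - g (s + x)) ≤ Γ * min 1 (x / m))
    {H : Finset (Sym2 V)} {d : ℕ} (hd : Deg H d) (Y : Set V) (w : V)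
    (hε : ∀ H' ⊆ H, ∀ y, Ex p H' (fun ω => min 1 ((#(cl ω y) : ℝ) / m)) ≤ ε) :
    Ex p H (fun ω => ∑ e ∈ H, ind (e ∉ ω) * Er g Y w ω e)
      ≤ Γ * d * ε * Ex p H (fun ω => ind (Hit ω w Y) * ind (0 < g #(cl ω w))) := by
  have hε0 : 0 ≤ ε := by
    refine le_trans ?_ (hε H subset_rfl w)
    exact Ex_nonneg hp0.le hp1.le fun ω _ => by positivity
  refine (Ex_mono hp0.le hp1.le fun ω _ => sum_Er_le hΓ hm hg0 hg2 Y w).trans ?_
  rw [Ex_markov p H w]
  rw [← Ex_mul_left]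
  refine Ex_mono hp0.le hp1.le fun ω hω => ?_
  have h1 : ∀ η ⊆ off H (cl ω w),
      ind (Hit ((ω ∩ tch H (cl ω w)) ∪ η) w Y) = ind (Hit ω w Y) := by
    intro η hη
    rw [Hit, Hit, cl_mix_self hω hη]
  have h2 : Ex p (off H (cl ω w)) (fun η =>
      ind (Hit ((ω ∩ tch H (cl ω w)) ∪ η) w Y) *
        ind (0 < g #(cl ((ω ∩ tch H (cl ω w)) ∪ η) w)) *
        (Γ / #(cl ((ω ∩ tch H (cl ω w)) ∪ η) w)) *
        ∑ x ∈ bd H (cl ((ω ∩ tch H (cl ω w)) ∪ η) w),
          min 1 ((#(cl ((ω ∩ tch H (cl ω w)) ∪ η) x.2) : ℝ) / m))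
      = ind (Hit ω w Y) * ind (0 < g #(cl ω w)) * (Γ / #(cl ω w)) *
        ∑ x ∈ bd H (cl ω w), Ex p (off H (cl ω w)) (fun η => min 1 ((#(cl η x.2) : ℝ) / m)) := by
    rw [← Ex_sum, ← Ex_mul_left]
    refine Ex_congr fun η hη => ?_
    rw [h1 η hη, cl_mix_self hω hη]
    congr 1
    refine Finset.sum_congr rfl fun x hx => ?_
    obtain ⟨a, b⟩ := x
    rw [mem_bd] at hx
    rw [cl_mix_other hω hη hx.2.1]
  rw [h2]
  have hs : (0 : ℝ) < #(cl ω w) := by exact_mod_cast cl_pos ω w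
  have h3 : ∑ x ∈ bd H (cl ω w), Ex p (off H (cl ω w)) (fun η => min 1 ((#(cl η x.2) : ℝ) / m))
      ≤ d * #(cl ω w) * ε := by
    calc _ ≤ ∑ x ∈ bd H (cl ω w), ε :=
          Finset.sum_le_sum fun x _ => hε _ (off_subset _ _) _
      _ = #(bd H (cl ω w)) * ε := by rw [sum_const, nsmul_eq_mul]
      _ ≤ d * #(cl ω w) * ε := by
          apply mul_le_mul_of_nonneg_right _ hε0
          exact_mod_cast card_bd_le hd (cl ω w)
  calc _ ≤ ind (Hit ω w Y) * ind (0 < g #(cl ω w)) * (Γ / #(cl ω w)) * (d * #(cl ω w) * ε) := by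
        apply mul_le_mul_of_nonneg_left h3
        have := ind_nonneg (Hit ω w Y)
        have := ind_nonneg (0 < g #(cl ω w))
        positivity
    _ = Γ * d * ε * (ind (Hit ω w Y) * ind (0 < g #(cl ω w))) := by
        field_simp

/-- pointwise lower bound in Russo's formula -/
lemma sum_diff_ge {g : ℕ → ℝ} (Y : Set V) (w : V) (ω : Finset (Sym2 V)) :
    ind (Hit ω w Y) * g #(cl ω w) * npiv ω w Y - ∑ e ∈ ω, Er g Y w (ω.erase e) e
      ≤ ∑ e ∈ ω, (ind (Hit ω w Y) * g #(cl ω w)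
          - ind (Hit (ω.erase e) w Y) * g #(cl (ω.erase e) w)) := by
  have h1 : ind (Hit ω w Y) * g #(cl ω w) * npiv ω w Y
      = ∑ e ∈ ω, (if ¬ Hit (ω.erase e) w Y then ind (Hit ω w Y) * g #(cl ω w) else 0) := by
    rw [← sum_filter, sum_const, nsmul_eq_mul, npiv, mul_comm]
  rw [h1, ← sum_sub_distrib]
  refine Finset.sum_le_sum fun e he => ?_
  have h2 : insert e (ω.erase e) = ω := insert_erase he
  rw [Er, h2]
  by_cases hh : Hit (ω.erase e) w Y
  · have h3 : Hit ω w Y := hh.mono (erase_subset _ _)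
    rw [if_neg (by simpa using hh), ind_true hh, ind_true h3]
    have := le_max_right 0 (g #(cl (ω.erase e) w) - g #(cl ω w))
    linarith
  · rw [if_pos hh, ind_false hh]
    linarith

/-- **Lemma C.** -/
theorem lemmaC {p : ℝ} (hp0 : 0 < p) (hp1 : p < 1) {g : ℕ → ℝ} {Γ m ε c θ : ℝ} (hΓ : 0 ≤ Γ)
    (hm : 0 < m) (hc : 0 ≤ c) (hg0 : ∀ s, 0 ≤ g s) (hg1 : ∀ s : ℕ, g s * (s + m) ≤ 2 * Γ)
    (hg2 : ∀ s x : ℕ, s * (g s - g (s + x)) ≤ Γ * min 1 (x / m))
    {H : Finset (Sym2 V)} {d : ℕ} (hd : Deg H d) (Y : Set V) (w : V)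
    (hε : ∀ H' ⊆ H, ∀ y, Ex p H' (fun ω => min 1 ((#(cl ω y) : ℝ) / m)) ≤ ε)
    (hθ0 : 0 ≤ θ) (hθ1 : θ ≤ 1/2) (hθ2 : p / (1 - p) * θ ≤ 1/2)
    (hθ3 : 2 * θ * (1 + (p / (1 - p)) ^ 2) * d ≤ c) :
    Ex p H (fun ω => ind (Hit ω w Y) * g #(cl ω w) * npiv ω w Y)
      ≤ Γ * ((2 * c + p / (1 - p) * d * ε) *
            Ex p H (fun ω => ind (Hit ω w Y) * ind (0 < g #(cl ω w)))
          + 2 * d * Real.exp (-(θ * c * m))) := by
  set lam := p / (1 - p) with hl
  have hq : 0 < 1 - p := by linarith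
  have hl0 : 0 ≤ lam := div_nonneg hp0.le hq.le
  set F : Finset (Sym2 V) → ℝ := fun ω => ind (Hit ω w Y) * g #(cl ω w) with hF
  have hFi : ∀ ω e, (∀ v ∈ cl ω w, v ∉ e) → F (insert e ω) = F ω := by
    intro ω e h
    simp only [hF]
    rw [Hit, Hit, cl_insert_of_not_touch h]
  have hrus := Ex_russo hp1 H w F hFi
  -- lower bound
  have hlow : Ex p H (fun ω => ind (Hit ω w Y) * g #(cl ω w) * npiv ω w Y)
      ≤ Ex p H (fun ω => F ω * Xs p H ω w)
        + Ex p H (fun ω => ∑ e ∈ ω, Er g Y w (ω.erase e) e) := by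
    rw [hrus, ← Ex_add]
    refine Ex_mono hp0.le hp1.le fun ω _ => ?_
    have := sum_diff_ge (g := g) Y w ω
    simp only [hF]
    linarith
  -- the error
  have herr : Ex p H (fun ω => ∑ e ∈ ω, Er g Y w (ω.erase e) e)
      ≤ lam * (Γ * d * ε * Ex p H (fun ω => ind (Hit ω w Y) * ind (0 < g #(cl ω w)))) := by
    have h1 := Ex_sum_flip (p := p) H (Er g Y w)
    have h2 := Ex_sum_Er_le hp0 hp1 hΓ hm hg0 hg2 hd Y w hε
    have h3 : Ex p H (fun ω => ∑ e ∈ ω, Er g Y w (ω.erase e) e)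
        = lam * Ex p H (fun ω => ∑ e ∈ H, ind (e ∉ ω) * Er g Y w ω e) := by
      rw [hl, div_mul_eq_mul_div, eq_div_iff hq.ne', mul_comm]
      exact h1
    rw [h3]
    exact mul_le_mul_of_nonneg_left h2 hl0
  -- the main term
  have hXb : ∀ ω ⊆ H, Xs p H ω w ≤ d * #(cl ω w) := by
    intro ω hω
    rw [Xs_eq]
    have h1 : #(ω ∩ tch H (cl ω w)) ≤ d * #(cl ω w) :=
      (card_le_card inter_subset_right).trans (card_tch_le hd _)
    have h2 : (#(ω ∩ tch H (cl ω w)) : ℝ) ≤ d * #(cl ω w) := by exact_mod_cast h1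
    have h3 : 0 ≤ p / (1 - p) * #(tch H (cl ω w) \ (ω ∩ tch H (cl ω w))) := by positivity
    linarith
  have hmain : Ex p H (fun ω => F ω * Xs p H ω w)
      ≤ 2 * c * Γ * Ex p H (fun ω => ind (Hit ω w Y) * ind (0 < g #(cl ω w)))
        + 2 * Γ * d * Real.exp (-(θ * c * m)) := by
    have h1 : Ex p H (fun ω => F ω * Xs p H ω w)
        ≤ Ex p H (fun ω => 2 * c * Γ * (ind (Hit ω w Y) * ind (0 < g #(cl ω w)))
          + 2 * Γ * d * ind (c * (#(cl ω w) + m) < Xs p H ω w)) := by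
      refine Ex_mono hp0.le hp1.le fun ω hω => ?_
      simp only [hF]
      by_cases hh : Hit ω w Y
      · by_cases h0 : 0 < g #(cl ω w)
        · rw [ind_true hh, ind_true h0, one_mul, mul_one, mul_one]
          by_cases hX : c * (#(cl ω w) + m) < Xs p H ω w
          · rw [ind_true hX]
            have h2 : g #(cl ω w) * Xs p H ω w ≤ g #(cl ω w) * (d * #(cl ω w)) :=
              mul_le_mul_of_nonneg_left (hXb ω hω) h0.le
            have h3 : g #(cl ω w) * #(cl ω w) ≤ 2 * Γ := by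
              have := hg1 #(cl ω w)
              nlinarith [mul_pos h0 hm]
            have h4 : d * (g #(cl ω w) * #(cl ω w)) ≤ d * (2 * Γ) :=
              mul_le_mul_of_nonneg_left h3 (Nat.cast_nonneg _)
            have h5 : 0 ≤ 2 * c * Γ := by positivity
            nlinarith
          · rw [ind_false hX, mul_zero, add_zero]
            push Not at hX
            have h2 : g #(cl ω w) * Xs p H ω w ≤ g #(cl ω w) * (c * (#(cl ω w) + m)) :=
              mul_le_mul_of_nonneg_left hX h0.le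
            have h3 := mul_le_mul_of_nonneg_left (hg1 #(cl ω w)) hc
            nlinarith
        · have h5 : g #(cl ω w) = 0 := le_antisymm (not_lt.1 h0) (hg0 _)
          rw [h5]
          have := ind_nonneg (c * (#(cl ω w) + m) < Xs p H ω w)
          simp only [lt_self_iff_false, not_false_eq_true, ind_false, mul_zero, zero_mul, zero_add]
          positivity
      · rw [ind_false hh]
        have := ind_nonneg (c * (#(cl ω w) + m) < Xs p H ω w)
        simp only [zero_mul, mul_zero, zero_add]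
        positivity
    refine h1.trans ?_
    rw [Ex_add, Ex_mul_left, Ex_mul_left]
    have h2 := Ex_dev (m := m) hp0 hp1 hθ0 hθ1 hθ2 hd w hθ3
    have h3 : 0 ≤ 2 * Γ * d := by positivity
    have := mul_le_mul_of_nonneg_left h2 h3
    linarith
  refine hlow.trans ((add_le_add hmain herr).trans (le_of_eq ?_))
  ring

end

end H97.IIC
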