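import Pool.Agent.H97.IIC.TwoPiv

/-!
# Lemmas O and P
-/

open Finset
open scoped Classical

namespace H97.IIC

noncomputable section

variable {V : Type*}

/-- conclusion of Lemma C at scale `m` in all sub-environments of `Λ`. -/
def CProp (p : ℝ) (Λ : Finset (Sym2 V)) (m : ℕ) (κ δ : ℝ) : Prop :=
  ∀ H ⊆ Λ, ∀ (w : V) (Y : Set V) (k : ℕ),
    k * Ex p H (fun ω => ind (Hit ω w Y) * (ind (#(cl ω w) ≤ m) * ind (k ≤ npiv ω w Y)))
      ≤ 2 * m * (κ * Ex p H (fun ω => ind (Hit ω w Y) * ind (#(cl ω w) ≤ 2 * m)) + δ)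

/-- the linear cut-off -/
def gl (m : ℕ) (s : ℕ) : ℝ := max 0 (min 1 (2 - s / m))

theorem CProp_of {p : ℝ} (hp0 : 0 < p) (hp1 : p < 1) {Λ : Finset (Sym2 V)} {m : ℕ} {ε c θ : ℝ}
    (hm : 0 < m) (hc : 0 ≤ c) {d : ℕ} (hd : Deg Λ d)
    (hε : ∀ H' ⊆ Λ, ∀ y, Ex p H' (fun ω => min 1 ((#(cl ω y) : ℝ) / m)) ≤ ε)
    (hθ0 : 0 ≤ θ) (hθ1 : θ ≤ 1/2) (hθ2 : p / (1 - p) * θ ≤ 1/2)
    (hθ3 : 2 * θ * (1 + (p / (1 - p)) ^ 2) * d ≤ c) :
    CProp p Λ m (2 * c + p / (1 - p) * d * ε) (2 * d * Real.exp (-(θ * c * m))) := by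
  intro H hH w Y k
  have hm' : (0 : ℝ) < m := by exact_mod_cast hm
  have hg0 : ∀ s, 0 ≤ gl m s := fun s => le_max_left _ _
  have hgle : ∀ s, gl m s ≤ 1 := fun s => max_le zero_le_one (min_le_left _ _)
  have hgz : ∀ s : ℕ, 2 * m ≤ s → gl m s = 0 := by
    intro s hs
    have h1 : (2 : ℝ) * m ≤ s := by exact_mod_cast hs
    have h2 : (2 : ℝ) ≤ s / m := by rw [le_div_iff₀ hm']; exact h1
    exact max_eq_left ((min_le_right _ _).trans (by linarith))
  have hg1 : ∀ s : ℕ, gl m s * (s + m) ≤ 2 * (2 * m) := by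
    intro s
    by_cases hs : 2 * m ≤ s
    · rw [hgz s hs]; simp
    · push Not at hs
      have h1 : (s : ℝ) < 2 * m := by exact_mod_cast hs
      calc gl m s * (s + m) ≤ 1 * (s + m) :=
            mul_le_mul_of_nonneg_right (hgle s) (by positivity)
        _ ≤ _ := by linarith
  have hg2 : ∀ s x : ℕ, s * (gl m s - gl m (s + x)) ≤ (2 * m) * min 1 ((x : ℝ) / m) := by
    intro s x
    have hx : (0 : ℝ) ≤ (x : ℝ) / m := by positivity
    have hmin : (0 : ℝ) ≤ min 1 ((x : ℝ) / m) := le_min zero_le_one hx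
    by_cases hs : 2 * m ≤ s
    · rw [hgz s hs]
      have h2 : s * (0 - gl m (s + x)) ≤ 0 :=
        mul_nonpos_of_nonneg_of_nonpos (Nat.cast_nonneg _) (by linarith [hg0 (s + x)])
      have h3 : 0 ≤ (2 * (m : ℝ)) * min 1 ((x : ℝ) / m) := by positivity
      linarith
    · push Not at hs
      have h1 : (s : ℝ) ≤ 2 * m := by exact_mod_cast hs.le
      have h2 : gl m s - gl m (s + x) ≤ min 1 ((x : ℝ) / m) := by
        refine le_min (by linarith [hg0 (s + x), hgle s]) ?_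
        have h3 : gl m s ≤ gl m (s + x) + x / m := by
          refine max_le (by linarith [hg0 (s + x)]) ?_
          have h4 : min 1 (2 - (s : ℝ) / m) ≤ min 1 (2 - ((s + x : ℕ) : ℝ) / m) + x / m := by
            rw [← min_add_add_right]
            refine le_min ((min_le_left _ _).trans (by linarith)) ((min_le_right _ _).trans ?_)
            push_cast
            rw [add_div]; linarith
          have h5 : min 1 (2 - ((s + x : ℕ) : ℝ) / m) ≤ gl m (s + x) := le_max_right _ _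
          linarith
        linarith
      calc s * (gl m s - gl m (s + x)) ≤ s * min 1 ((x : ℝ) / m) :=
            mul_le_mul_of_nonneg_left h2 (Nat.cast_nonneg _)
        _ ≤ _ := mul_le_mul_of_nonneg_right h1 hmin
  have key := lemmaC hp0 hp1 (g := gl m) (Γ := 2 * m) (by positivity) hm' hc hg0 hg1 hg2
    (hd.mono hH) Y w (fun H' h y => hε H' (h.trans hH) y) hθ0 hθ1 hθ2 hθ3
  have h1 : k * Ex p H (fun ω => ind (Hit ω w Y) * (ind (#(cl ω w) ≤ m) * ind (k ≤ npiv ω w Y)))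
      ≤ Ex p H (fun ω => ind (Hit ω w Y) * gl m #(cl ω w) * npiv ω w Y) := by
    rw [← Ex_mul_left]
    refine Ex_mono hp0.le hp1.le fun ω _ => ?_
    by_cases ha : #(cl ω w) ≤ m
    · by_cases hb : k ≤ npiv ω w Y
      · rw [ind_true ha, ind_true hb]
        have h2 : gl m #(cl ω w) = 1 := by
          have h3 : (#(cl ω w) : ℝ) / m ≤ 1 := by
            rw [div_le_one hm']; exact_mod_cast ha
          rw [gl, min_eq_left (by linarith)]
          exact max_eq_right zero_le_one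
        rw [h2]
        have h3 : (k : ℝ) ≤ npiv ω w Y := by exact_mod_cast hb
        have := ind_nonneg (Hit ω w Y)
        nlinarith
      · rw [ind_false hb]
        have := ind_nonneg (Hit ω w Y)
        have := hg0 #(cl ω w)
        simp only [mul_zero]
        positivity
    · rw [ind_false ha]
      have := ind_nonneg (Hit ω w Y)
      have := hg0 #(cl ω w)
      simp only [mul_zero, zero_mul]
      positivity
  refine h1.trans (key.trans ?_)
  have hκ : 0 ≤ 2 * c + p / (1 - p) * d * ε := by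
    have hε0 : 0 ≤ ε := by
      refine le_trans ?_ (hε H hH w)
      exact Ex_nonneg hp0.le hp1.le fun ω _ => by positivity
    have : 0 ≤ p / (1 - p) := div_nonneg hp0.le (by linarith)
    positivity
  have h2 : Ex p H (fun ω => ind (Hit ω w Y) * ind (0 < gl m #(cl ω w)))
      ≤ Ex p H (fun ω => ind (Hit ω w Y) * ind (#(cl ω w) ≤ 2 * m)) := by
    refine Ex_mono hp0.le hp1.le fun ω _ => ?_
    refine mul_le_mul_of_nonneg_left (ind_mono fun h => ?_) (ind_nonneg _)
    by_contra h'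
    push Not at h'
    rw [hgz _ h'.le] at h
    exact lt_irrefl _ h
  have h3 := mul_le_mul_of_nonneg_left h2 hκ
  apply mul_le_mul_of_nonneg_left _ (by positivity)
  linarith

/-- one-sided connection functional -/
def T1 (p : ℝ) (H : Finset (Sym2 V)) (T : Set V) (L : Finset V) : ℝ :=
  ∑ e ∈ bd H L, Ex p (off H L) (fun η => ind (Hit η e.2 T))

/-- probability of the target -/
def PH (p : ℝ) (H : Finset (Sym2 V)) (x : V) (T : Set V) : ℝ := Ex p H (fun ω => ind (Hit ω x T))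

lemma cl_aft {H ω : Finset (Sym2 V)} {x : V} {T : Set V} {e : V × V} (hω : ω ⊆ H)
    (h : Pv ω x T e.1 e.2) : cl (aft H ω x e) e.2 = Rs ω e := by
  rw [aft]
  exact cl_off_of_Clo ((erase_subset _ _).trans hω) (Clo_cl _ _) h.snd_not_mem

lemma Ex_piv_L_le {p : ℝ} (hp0 : 0 ≤ p) (hp1 : p ≤ 1) (H : Finset (Sym2 V)) (x : V) (T : Set V)
    (m : ℕ) : Ex p H (fun ω => ∑ e ∈ piv ω x T, ind (#(Ls ω x e) ≤ m)) ≤ m * PH p H x T := by
  rw [PH, ← Ex_mul_left]
  refine Ex_mono hp0 hp1 fun ω _ => ?_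
  have h1 : ∑ e ∈ piv ω x T, ind (#(Ls ω x e) ≤ m)
      = #((piv ω x T).filter fun e => #(Ls ω x e) ≤ m) := by
    rw [card_filter, Nat.cast_sum]
    refine Finset.sum_congr rfl fun e _ => ?_
    unfold ind; split_ifs <;> simp
  rw [h1]
  by_cases hh : Hit ω x T
  · rw [ind_true hh, mul_one]
    exact_mod_cast piv_card_L_le ω x T m
  · have : piv ω x T = ∅ := by
      rw [eq_empty_iff_forall_notMem]
      intro e he
      exact hh (mem_piv.1 he).hit
    rw [this, ind_false hh]; simp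

/-- first moment identity for `T1` -/
lemma Ex_T1_le {p : ℝ} (hp0 : 0 < p) (hp1 : p < 1) (H : Finset (Sym2 V)) (x : V) (T : Set V)
    (m : ℕ) :
    p * Ex p H (fun ω => ind (¬ Hit ω x T) * (ind (#(cl ω x) ≤ m) * T1 p H T (cl ω x)))
      ≤ (1 - p) * (m * PH p H x T) := by
  have h1 := Ex_one_pivot (p := p) H x T (fun L _ _ => ind (#L ≤ m))
  have h2 := Ex_piv_L_le hp0.le hp1.le H x T m
  have h3 : p * Ex p H (fun ω => ind (¬ Hit ω x T) * (ind (#(cl ω x) ≤ m) * T1 p H T (cl ω x)))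
      = (1 - p) * Ex p H (fun ω => ∑ e ∈ piv ω x T, ind (#(Ls ω x e) ≤ m)) := by
    rw [h1]
    congr 1
    refine Ex_congr fun ω _ => ?_
    congr 1
    rw [T1, mul_sum]
    refine Finset.sum_congr rfl fun e _ => ?_
    rw [Ex_mul_right, mul_comm]
  rw [h3]
  exact mul_le_mul_of_nonneg_left h2 (by linarith)

/-- **Lemma O.** -/
theorem lemmaO {p : ℝ} (hp0 : 0 < p) (hp1 : p < 1) {H : Finset (Sym2 V)} {d : ℕ} (hd : Deg H d)
    {m : ℕ} {κ δ τ : ℝ} (hκ : 0 ≤ κ) (hδ : 0 ≤ δ) (hτ : 0 < τ) (hC : CProp p H m κ δ) (x : V)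
    (T : Set V) (k : ℕ) :
    k * Ex p H (fun ω => ∑ e ∈ piv ω x T, ind (#(Ls ω x e) ≤ m) * (ind (τ ≤ T1 p H T (Ls ω x e)) *
        (ind (#(Rs ω e) ≤ m) * ind (k ≤ npiv (aft H ω x e) e.2 T))))
      ≤ 2 * m ^ 2 * (κ + δ * d * m / τ) * PH p H x T := by
  have hq : 0 < 1 - p := by linarith
  have e1 : Ex p H (fun ω => ∑ e ∈ piv ω x T, ind (#(Ls ω x e) ≤ m) *
        (ind (τ ≤ T1 p H T (Ls ω x e)) *
        (ind (#(Rs ω e) ≤ m) * ind (k ≤ npiv (aft H ω x e) e.2 T))))
      = Ex p H (fun ω => ∑ e ∈ piv ω x T,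
        (fun L (e : V × V) (η : Finset (Sym2 V)) => ind (#L ≤ m) * (ind (τ ≤ T1 p H T L) *
        (ind (#(cl η e.2) ≤ m) * ind (k ≤ npiv η e.2 T)))) (Ls ω x e) e (aft H ω x e)) := by
    refine Ex_congr fun ω hω => ?_
    refine Finset.sum_congr rfl fun e he => ?_
    simp only
    rw [cl_aft hω (mem_piv.1 he)]
  have h1 := Ex_one_pivot (p := p) H x T
    (fun L (e : V × V) (η : Finset (Sym2 V)) => ind (#L ≤ m) * (ind (τ ≤ T1 p H T L) *
        (ind (#(cl η e.2) ≤ m) * ind (k ≤ npiv η e.2 T))))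
  rw [e1]
  have h2 : k * (p * Ex p H (fun ω => ind (¬ Hit ω x T) * ∑ e ∈ bd H (cl ω x),
          Ex p (off H (cl ω x)) (fun η => ind (Hit η e.2 T) *
            (ind (#(cl ω x) ≤ m) * (ind (τ ≤ T1 p H T (cl ω x)) *
        (ind (#(cl η e.2) ≤ m) * ind (k ≤ npiv η e.2 T)))))))
      ≤ 2 * m * (κ + δ * d * m / τ) * (p * Ex p H (fun ω => ind (¬ Hit ω x T) *
        (ind (#(cl ω x) ≤ m) * T1 p H T (cl ω x)))) := by
    rw [← Ex_mul_left, ← Ex_mul_left, ← Ex_mul_left, ← Ex_mul_left]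
    refine Ex_mono hp0.le hp1.le fun ω hω => ?_
    set L := cl ω x with hL
    by_cases ha : Hit ω x T
    · rw [ind_false (P := ¬ Hit ω x T) (by simpa using ha)]; simp
    rw [ind_true (P := ¬ Hit ω x T) ha, one_mul, one_mul]
    by_cases hb : #L ≤ m
    swap
    · rw [ind_false hb]
      simp only [zero_mul, mul_zero, Ex_zero, sum_const_zero, le_refl]
    rw [ind_true hb]
    have hT1 : 0 ≤ T1 p H T L :=
      Finset.sum_nonneg fun e _ => Ex_nonneg hp0.le hp1.le fun η _ => ind_nonneg _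
    by_cases hc : τ ≤ T1 p H T L
    swap
    · rw [ind_false hc]
      simp only [zero_mul, mul_zero, Ex_zero, sum_const_zero, one_mul]
      positivity
    rw [ind_true hc]
    simp only [one_mul]
    have h3 : k * ∑ e ∈ bd H L, Ex p (off H L) (fun η => ind (Hit η e.2 T) *
        (ind (#(cl η e.2) ≤ m) * ind (k ≤ npiv η e.2 T)))
        ≤ 2 * m * (κ * T1 p H T L + #(bd H L) * δ) := by
      rw [mul_sum]
      calc _ ≤ ∑ e ∈ bd H L, 2 * m * (κ * Ex p (off H L) (fun η => ind (Hit η e.2 T)) + δ) := by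
            refine Finset.sum_le_sum fun e _ => ?_
            refine (hC (off H L) (off_subset _ _) e.2 T k).trans ?_
            apply mul_le_mul_of_nonneg_left _ (by positivity)
            apply add_le_add_left
            apply mul_le_mul_of_nonneg_left _ hκ
            refine Ex_mono hp0.le hp1.le fun η _ => ?_
            exact mul_le_of_le_one_right (ind_nonneg _) (ind_le_one _)
        _ = _ := by
            rw [← mul_sum, sum_add_distrib, ← mul_sum, T1, sum_const, nsmul_eq_mul]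
    have h4 : (#(bd H L) : ℝ) ≤ d * m := by
      have h5 : #(bd H L) ≤ d * m := (card_bd_le hd L).trans (Nat.mul_le_mul_left d hb)
      exact_mod_cast h5
    have h5 : #(bd H L) * δ ≤ δ * d * m / τ * T1 p H T L := by
      rw [div_mul_eq_mul_div, le_div_iff₀ hτ]
      calc #(bd H L) * δ * τ ≤ (d * m) * δ * T1 p H T L :=
            mul_le_mul (mul_le_mul_of_nonneg_right h4 hδ) hc hτ.le (by positivity)
        _ = _ := by ring
    calc k * (p * ∑ e ∈ bd H L, Ex p (off H L) (fun η => ind (Hit η e.2 T) *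
        (ind (#(cl η e.2) ≤ m) * ind (k ≤ npiv η e.2 T))))
        = p * (k * ∑ e ∈ bd H L, Ex p (off H L) (fun η => ind (Hit η e.2 T) *
        (ind (#(cl η e.2) ≤ m) * ind (k ≤ npiv η e.2 T)))) := by ring
      _ ≤ p * (2 * m * (κ * T1 p H T L + #(bd H L) * δ)) :=
          mul_le_mul_of_nonneg_left h3 hp0.le
      _ ≤ p * (2 * m * (κ * T1 p H T L + δ * d * m / τ * T1 p H T L)) := by
          apply mul_le_mul_of_nonneg_left _ hp0.le
          apply mul_le_mul_of_nonneg_left _ (by positivity)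
          linarith
      _ = _ := by ring
  have h3 := Ex_T1_le hp0 hp1 H x T m
  have hcoef : 0 ≤ 2 * m * (κ + δ * d * m / τ) := by positivity
  have h4 := h2.trans (mul_le_mul_of_nonneg_left h3 hcoef)
  have h5 : (1 - p) * (k * Ex p H (fun ω => ∑ e ∈ piv ω x T,
        (fun L (e : V × V) (η : Finset (Sym2 V)) => ind (#L ≤ m) * (ind (τ ≤ T1 p H T L) *
        (ind (#(cl η e.2) ≤ m) * ind (k ≤ npiv η e.2 T)))) (Ls ω x e) e (aft H ω x e)))
      ≤ (1 - p) * (2 * m ^ 2 * (κ + δ * d * m / τ) * PH p H x T) := by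
    calc _ = k * ((1 - p) * Ex p H (fun ω => ∑ e ∈ piv ω x T,
        (fun L (e : V × V) (η : Finset (Sym2 V)) => ind (#L ≤ m) * (ind (τ ≤ T1 p H T L) *
        (ind (#(cl η e.2) ≤ m) * ind (k ≤ npiv η e.2 T)))) (Ls ω x e) e (aft H ω x e))) := by ring
      _ ≤ _ := by rw [h1]; refine h4.trans (le_of_eq ?_); ring
  exact le_of_mul_le_mul_left h5 hq

end

end H97.IIC
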