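import Mathlib

/-!
# The two differential inequalities give `f_t(p_c) ≥ c √t`
-/

open Set Filter Topology

namespace Pool.Agent.H97.Ode

/-- from `θ' ≥ 4 (1 - θ)` on `(a, 1)` -/
lemma theta_lower {a : ℝ} {θ θ' : ℝ → ℝ}
    (hθ : ∀ q ∈ Ioo a 1, HasDerivAt θ (θ' q) q)
    (hθ' : ∀ q ∈ Ioo a 1, 4 * (1 - θ q) ≤ θ' q)
    (hθ0 : ∀ q ∈ Ioo a 1, 0 ≤ θ q) {q : ℝ} (hq : q ∈ Ioo a 1) :
    1 - Real.exp (-(4 * (q - a))) ≤ θ q := by
  have hder : ∀ x ∈ Ioo a 1, HasDerivAt (fun x => (1 - θ x) * Real.exp (4 * x))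
      ((-θ' x) * Real.exp (4 * x) + (1 - θ x) * (Real.exp (4 * x) * 4)) x := by
    intro x hx
    have h1 : HasDerivAt (fun x => 1 - θ x) (-θ' x) x := by
      simpa using (hθ x hx).const_sub 1
    have h2 : HasDerivAt (fun x : ℝ => Real.exp (4 * x)) (Real.exp (4 * x) * 4) x := by
      have := ((hasDerivAt_id x).const_mul 4).exp
      simpa using this
    exact h1.mul h2
  have hanti : AntitoneOn (fun x => (1 - θ x) * Real.exp (4 * x)) (Ioo a 1) := by
    apply antitoneOn_of_deriv_nonpos (convex_Ioo a 1)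
    · intro x hx
      exact (hder x hx).continuousAt.continuousWithinAt
    · intro x hx
      rw [interior_Ioo] at hx
      exact (hder x hx).differentiableAt.differentiableWithinAt
    · intro x hx
      rw [interior_Ioo] at hx
      rw [(hder x hx).deriv]
      have := hθ' x hx
      have he := Real.exp_pos (4 * x)
      nlinarith
  have hle : ∀ x ∈ Ioo a q, (1 - θ q) * Real.exp (4 * q) ≤ Real.exp (4 * x) := by
    intro x hx
    have hx1 : x ∈ Ioo a 1 := ⟨hx.1, hx.2.trans hq.2⟩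
    have h1 := hanti hx1 hq hx.2.le
    have h2 := hθ0 x hx1
    have he := Real.exp_pos (4 * x)
    simp only at h1
    nlinarith
  have hlim : (1 - θ q) * Real.exp (4 * q) ≤ Real.exp (4 * a) := by
    have hc : Tendsto (fun x : ℝ => Real.exp (4 * x)) (𝓝[>] a) (𝓝 (Real.exp (4 * a))) := by
      have : Continuous (fun x : ℝ => Real.exp (4 * x)) := by fun_prop
      exact (this.tendsto a).mono_left nhdsWithin_le_nhds
    refine ge_of_tendsto hc ?_
    filter_upwards [Ioo_mem_nhdsGT hq.1] with x hx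
    exact hle x hx
  have h3 : 1 - θ q ≤ Real.exp (-(4 * (q - a))) := by
    have he := Real.exp_pos (4 * q)
    have h4 : Real.exp (-(4 * (q - a))) * Real.exp (4 * q) = Real.exp (4 * a) := by
      rw [← Real.exp_add]; congr 1; ring
    rw [← h4] at hlim
    exact le_of_mul_le_mul_right hlim he
  linarith

lemma one_sub_exp_lower {u : ℝ} (h0 : 0 ≤ u) (h2 : u ≤ 2) : u / 3 ≤ 1 - Real.exp (-u) := by
  have h1 : Real.exp (-u) * (1 + u) ≤ 1 := by
    have := Real.add_one_le_exp u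
    calc Real.exp (-u) * (1 + u) ≤ Real.exp (-u) * Real.exp u := by
          apply mul_le_mul_of_nonneg_left _ (Real.exp_pos _).le
          linarith
      _ = 1 := by rw [← Real.exp_add]; simp
  have h3 : 0 < 1 + u := by linarith
  have h4 : Real.exp (-u) ≤ 1 / (1 + u) := by rw [le_div_iff₀ h3]; exact h1
  have h5 : 1 / (1 + u) ≤ 1 - u / 3 := by
    rw [div_le_iff₀ h3]; nlinarith
  linarith

/-- from `f' ≤ K f²` on `(a, q)` -/
lemma inv_upper {a q K : ℝ} (haq : a < q) {f f' : ℝ → ℝ}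
    (hf : ∀ x ∈ Icc a q, ContinuousAt f x)
    (hd : ∀ x ∈ Ioo a q, HasDerivAt f (f' x) x)
    (hf' : ∀ x ∈ Ioo a q, f' x ≤ K * f x ^ 2) (hpos : ∀ x ∈ Icc a q, 0 < f x) :
    (f a)⁻¹ ≤ (f q)⁻¹ + K * (q - a) := by
  have hcont : ContinuousOn (fun x => (f x)⁻¹ + K * x) (Icc a q) := by
    intro x hx
    exact ((hf x hx).inv₀ (hpos x hx).ne').continuousWithinAt.add
      (continuousWithinAt_const.mul continuousWithinAt_id)
  have hder : ∀ x ∈ Ioo a q, HasDerivAt (fun x => (f x)⁻¹ + K * x)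
      (-(f' x) / f x ^ 2 + K) x := by
    intro x hx
    have h1 := (hd x hx).inv (hpos x (Ioo_subset_Icc_self hx)).ne'
    have h2 : HasDerivAt (fun x : ℝ => K * x) K x := by
      simpa using (hasDerivAt_id x).const_mul K
    exact h1.add h2
  have hmono : MonotoneOn (fun x => (f x)⁻¹ + K * x) (Icc a q) := by
    apply monotoneOn_of_deriv_nonneg (convex_Icc a q) hcont
    · intro x hx
      rw [interior_Icc] at hx
      exact (hder x hx).differentiableAt.differentiableWithinAt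
    · intro x hx
      rw [interior_Icc] at hx
      rw [(hder x hx).deriv]
      have h1 := hf' x hx
      have h2 : 0 < f x ^ 2 := pow_pos (hpos x (Ioo_subset_Icc_self hx)) 2
      have h3 : f' x / f x ^ 2 ≤ K := by rw [div_le_iff₀ h2]; exact h1
      rw [neg_div]
      linarith
  have := hmono (left_mem_Icc.2 haq.le) (right_mem_Icc.2 haq.le) haq.le
  simp only at this
  linarith

/-- **Conclusion of the two differential inequalities.** -/
theorem sqrt_lower {a D : ℝ} (ha0 : 0 ≤ a) (ha1 : a < 1) (hD : 0 ≤ D)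
    {θ θ' f f' : ℕ → ℝ → ℝ}
    (hθ : ∀ t, ∀ q ∈ Ioo a 1, HasDerivAt (θ t) (θ' t q) q)
    (hθ' : ∀ t, ∀ q ∈ Ioo a 1, 4 * (1 - θ t q) ≤ θ' t q)
    (hθ0 : ∀ t, ∀ q ∈ Ioo a 1, 0 ≤ θ t q)
    (hf : ∀ t, ∀ q ∈ Ico a 1, ContinuousAt (f t) q)
    (hfd : ∀ t, ∀ q ∈ Ioo a 1, HasDerivAt (f t) (f' t q) q)
    (hf' : ∀ t, ∀ q ∈ Ioo a 1, f' t q ≤ D / (1 - q) * f t q ^ 2)
    (hpos : ∀ t, 1 ≤ t → ∀ q ∈ Ico a 1, 0 < f t q) (hpos0 : ∀ t, 0 ≤ f t a)
    (hfθ : ∀ t, ∀ q ∈ Ioo a 1, t * θ t q ≤ f t q) :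
    ∃ c : ℝ, 0 < c ∧ ∀ t : ℕ, c * Real.sqrt t ≤ f t a := by
  obtain ⟨δ, hδ⟩ : ∃ δ, δ = (1 - a) / 2 := ⟨_, rfl⟩
  have hδ0 : 0 < δ := by rw [hδ]; linarith
  have hδ1 : δ ≤ 1 / 2 := by rw [hδ]; linarith
  obtain ⟨K, hK⟩ : ∃ K, K = D / δ := ⟨_, rfl⟩
  have hK0 : 0 ≤ K := by rw [hK]; positivity
  obtain ⟨C, hC⟩ : ∃ C, C = 3 / (4 * δ) + K * δ := ⟨_, rfl⟩
  have hC0 : 0 < C := by rw [hC]; positivity
  refine ⟨1 / C, by positivity, fun t => ?_⟩
  rcases Nat.eq_zero_or_pos t with rfl | ht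
  · simpa using hpos0 0
  have htr : (1 : ℝ) ≤ t := by exact_mod_cast ht
  obtain ⟨s, hs⟩ : ∃ s, s = Real.sqrt t := ⟨_, rfl⟩
  have hs1 : 1 ≤ s := by rw [hs]; exact Real.one_le_sqrt.2 htr
  have hs0 : 0 < s := by linarith
  have hss : s * s = t := by rw [hs]; exact Real.mul_self_sqrt (by linarith)
  obtain ⟨q, hq⟩ : ∃ q, q = a + δ / s := ⟨_, rfl⟩
  have hds : δ / s ≤ δ := div_le_self hδ0.le hs1
  have hds0 : 0 < δ / s := by positivity
  have haq : a < q := by rw [hq]; linarith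
  have hq1 : q ≤ a + δ := by rw [hq]; linarith
  have hqI : q ∈ Ioo a 1 := ⟨haq, by rw [hδ] at hq1; linarith⟩
  -- lower bound at `q`
  have h1 := theta_lower (hθ t) (hθ' t) (hθ0 t) hqI
  have hu : 4 * (q - a) = 4 * (δ / s) := by rw [hq]; ring
  rw [hu] at h1
  have h2 := one_sub_exp_lower (u := 4 * (δ / s)) (by positivity) (by linarith)
  have h3 : 4 * δ * s / 3 ≤ f t q := by
    have e1 : (t : ℝ) * (4 * (δ / s) / 3) ≤ f t q := by
      refine le_trans ?_ (hfθ t q hqI)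
      exact mul_le_mul_of_nonneg_left (h2.trans h1) (by linarith)
    have e2 : (t : ℝ) * (4 * (δ / s) / 3) = 4 * δ * s / 3 := by
      rw [← hss]; field_simp
    linarith
  -- transport to `a`
  have h4 : (f t a)⁻¹ ≤ (f t q)⁻¹ + K * (q - a) := by
    refine inv_upper haq (f' := f' t) ?_ ?_ ?_ ?_
    · intro x hx
      exact hf t x ⟨hx.1, lt_of_le_of_lt hx.2 hqI.2⟩
    · intro x hx
      exact hfd t x ⟨hx.1, hx.2.trans hqI.2⟩
    · intro x hx
      have hx1 : x ∈ Ioo a 1 := ⟨hx.1, hx.2.trans hqI.2⟩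
      refine (hf' t x hx1).trans ?_
      apply mul_le_mul_of_nonneg_right _ (sq_nonneg _)
      rw [hK]
      apply div_le_div_of_nonneg_left hD hδ0
      have := hx.2
      rw [hδ] at hq1 ⊢
      linarith
    · intro x hx
      exact hpos t ht x ⟨hx.1, lt_of_le_of_lt hx.2 hqI.2⟩
  have hfa : 0 < f t a := hpos t ht a ⟨le_refl a, ha1⟩
  have h5 : (f t q)⁻¹ ≤ 3 / (4 * δ) / s := by
    have hp : 0 < 4 * δ * s / 3 := by positivity
    calc (f t q)⁻¹ ≤ (4 * δ * s / 3)⁻¹ := inv_anti₀ hp h3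
      _ = 3 / (4 * δ) / s := by field_simp
  have h6 : (f t a)⁻¹ ≤ C / s := by
    have : K * (q - a) = K * δ / s := by rw [hq]; ring
    rw [hC, add_div]
    linarith
  rw [← hs]
  have h7 : s / C ≤ f t a := by
    have e1 : (C / s)⁻¹ ≤ f t a := by
      rw [inv_le_comm₀ (by positivity) hfa]
      exact h6
    have e2 : (C / s)⁻¹ = s / C := by rw [inv_div]
    rwa [e2] at e1
  calc 1 / C * s = s / C := by ring
    _ ≤ f t a := h7

end Pool.Agent.H97.Ode
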