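import Pool.Agent.H97.IIC.LemmaC

/-!
# Pivotal darts
-/

open Finset
open scoped Classical

namespace H97.IIC

noncomputable section

variable {V : Type*}

/-- darts of `H` -/
def dt (H : Finset (Sym2 V)) : Finset (V × V) := (vs H ×ˢ vs H).filter fun x => s(x.1, x.2) ∈ H

lemma mem_dt {H : Finset (Sym2 V)} {a b : V} : (a, b) ∈ dt H ↔ s(a, b) ∈ H := by
  rw [dt, mem_filter, mem_product]
  constructor
  · rintro ⟨_, h⟩; exact h
  · intro h
    exact ⟨⟨mem_vs.2 ⟨_, h, Sym2.mem_mk_left _ _⟩, mem_vs.2 ⟨_, h, Sym2.mem_mk_right _ _⟩⟩, h⟩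

/-- `(a,b)` is a pivotal dart for `x ↔ T` in `ω`, `a` on the side of `x`. -/
def Pv (ω : Finset (Sym2 V)) (x : V) (T : Set V) (a b : V) : Prop :=
  s(a, b) ∈ ω ∧ a ∈ cl (ω.erase s(a, b)) x ∧ b ∉ cl (ω.erase s(a, b)) x ∧
    ¬ Hit (ω.erase s(a, b)) x T ∧ Hit (ω.erase s(a, b)) b T

/-- near side -/
def Ls (ω : Finset (Sym2 V)) (x : V) (e : V × V) : Finset V := cl (ω.erase s(e.1, e.2)) x
/-- far side -/
def Rs (ω : Finset (Sym2 V)) (e : V × V) : Finset V := cl (ω.erase s(e.1, e.2)) e.2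

/-- A set of vertices closed under the edges of `ζ`. -/
def Clo (ζ : Finset (Sym2 V)) (S : Finset V) : Prop := ∀ u v, s(u, v) ∈ ζ → u ∈ S → v ∈ S

lemma Clo_cl (ω : Finset (Sym2 V)) (x : V) : Clo ω (cl ω x) := by
  intro u v h hu
  rw [mem_cl] at *
  exact hu.tail h

lemma Clo.mono {ζ ζ' : Finset (Sym2 V)} {S : Finset V} (h : Clo ζ S) (hs : ζ' ⊆ ζ) : Clo ζ' S :=
  fun u v he hu => h u v (hs he) hu

lemma Clo.union {ζ : Finset (Sym2 V)} {S S' : Finset V} (h : Clo ζ S) (h' : Clo ζ S') :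
    Clo ζ (S ∪ S') := by
  intro u v he hu
  rw [mem_union] at *
  exact hu.imp (h u v he) (h' u v he)

/-- locality -/
lemma cl_off_of_Clo {ζ H : Finset (Sym2 V)} {S : Finset V} (hζ : ζ ⊆ H) (hS : Clo ζ S) {y : V}
    (hy : y ∉ S) : cl (ζ ∩ off H S) y = cl ζ y := by
  refine subset_antisymm (cl_mono inter_subset_left y) ?_
  intro z hz
  rw [mem_cl] at hz
  have key : z ∉ S ∧ z ∈ cl (ζ ∩ off H S) y := by
    induction hz with
    | refl => exact ⟨hy, self_mem_cl _ _⟩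
    | @tail c d h1 h2 ih =>
      have hd : d ∉ S := fun hd => ih.1 (hS d c (by rwa [Sym2.eq_swap]) hd)
      refine ⟨hd, ?_⟩
      have ih2 := ih.2
      rw [mem_cl] at ih2 ⊢
      refine ih2.tail (mem_inter.2 ⟨h2, mem_off.2 ⟨hζ h2, ?_⟩⟩)
      intro v hv hve
      rw [Sym2.mem_iff] at hve
      rcases hve with rfl | rfl
      · exact ih.1 hv
      · exact hd hv
  exact key.2

/-- removing an edge which has no endpoint in the cluster -/
lemma cl_erase_of_not_touch {ω : Finset (Sym2 V)} {e : Sym2 V} {w : V}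
    (h : ∀ v ∈ cl ω w, v ∉ e) : cl (ω.erase e) w = cl ω w := by
  refine subset_antisymm (cl_mono (erase_subset _ _) w) ?_
  intro y hy
  rw [mem_cl] at hy
  induction hy with
  | refl => exact self_mem_cl _ _
  | @tail c d h1 h2 ih =>
    rw [mem_cl] at ih ⊢
    refine ih.tail (mem_erase.2 ⟨?_, h2⟩)
    rintro rfl
    exact h c (mem_cl.2 h1) (Sym2.mem_mk_left _ _)

section basic

variable {ω : Finset (Sym2 V)} {x : V} {T : Set V} {e e' : V × V}

lemma Pv.cl_eq (h : Pv ω x T e.1 e.2) : cl ω x = Ls ω x e ∪ Rs ω e := by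
  have h1 : insert s(e.1, e.2) (ω.erase s(e.1, e.2)) = ω := insert_erase h.1
  have h2 := cl_insert_bd (ω := ω.erase s(e.1, e.2)) (a := e.1) (b := e.2) (w := x) h.2.1
  rw [h1] at h2
  exact h2

lemma Pv.disj (h : Pv ω x T e.1 e.2) : Disjoint (Ls ω x e) (Rs ω e) := cl_disjoint h.2.2.1

lemma Pv.card_eq (h : Pv ω x T e.1 e.2) : #(cl ω x) = #(Ls ω x e) + #(Rs ω e) := by
  rw [h.cl_eq, card_union_of_disjoint h.disj]

lemma Pv.hit (h : Pv ω x T e.1 e.2) : Hit ω x T := by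
  obtain ⟨y, hy, hT⟩ := h.2.2.2.2
  exact ⟨y, by rw [h.cl_eq]; exact mem_union_right _ hy, hT⟩

lemma Pv.fst_mem (h : Pv ω x T e.1 e.2) : e.1 ∈ Ls ω x e := h.2.1
lemma Pv.snd_mem (_ : Pv ω x T e.1 e.2) : e.2 ∈ Rs ω e := self_mem_cl _ _
lemma Pv.snd_not_mem (h : Pv ω x T e.1 e.2) : e.2 ∉ Ls ω x e := h.2.2.1

/-- two pivotal darts with the same edge are equal -/
lemma Pv.eq_of_edge (h : Pv ω x T e.1 e.2) (h' : Pv ω x T e'.1 e'.2)
    (he : s(e.1, e.2) = s(e'.1, e'.2)) : e = e' := by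
  rw [Sym2.eq_iff] at he
  rcases he with ⟨h1, h2⟩ | ⟨h1, h2⟩
  · exact Prod.ext h1 h2
  · exfalso
    have h3 := h.2.1
    have h4 := h'.2.2.1
    rw [← h1, ← h2, Sym2.eq_swap] at h4
    exact h4 h3

/-- `e` comes before `e'`. -/
structure Bef (ω : Finset (Sym2 V)) (x : V) (e e' : V × V) : Prop where
  sub : Ls ω x e ⊆ Ls ω x e'
  fst : e.1 ∈ Ls ω x e'
  snd : e.2 ∈ Ls ω x e'
  fst' : e'.1 ∈ Rs ω e
  snd' : e'.2 ∈ Rs ω e
  ne : s(e.1, e.2) ≠ s(e'.1, e'.2)
  Leq : cl ((ω.erase s(e.1, e.2)).erase s(e'.1, e'.2)) x = Ls ω x e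

lemma Pv.bef_or (h : Pv ω x T e.1 e.2) (h' : Pv ω x T e'.1 e'.2) (hne : e ≠ e') :
    Bef ω x e e' ∨ Bef ω x e' e := by
  have hne' : s(e.1, e.2) ≠ s(e'.1, e'.2) := fun hh => hne (h.eq_of_edge h' hh)
  have he' : s(e'.1, e'.2) ∈ ω.erase s(e.1, e.2) := mem_erase.2 ⟨hne'.symm, h'.1⟩
  have he : s(e.1, e.2) ∈ ω.erase s(e'.1, e'.2) := mem_erase.2 ⟨hne', h.1⟩
  have hC : e'.1 ∈ cl ω x := cl_mono (erase_subset _ _) x h'.2.1
  have swap : (ω.erase s(e'.1, e'.2)).erase s(e.1, e.2)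
      = (ω.erase s(e.1, e.2)).erase s(e'.1, e'.2) := erase_right_comm
  rw [h.cl_eq, mem_union] at hC
  rcases hC with hC | hC
  · -- both endpoints of `e'` in `Ls e`
    right
    have h1 : e'.2 ∈ Ls ω x e := Clo_cl _ _ _ _ he' hC
    -- the far side of `e` does not touch `e'`
    have hR : cl ((ω.erase s(e.1, e.2)).erase s(e'.1, e'.2)) e.2 = Rs ω e := by
      apply cl_erase_of_not_touch
      intro v hv hve
      rw [Sym2.mem_iff] at hve
      rcases hve with rfl | rfl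
      · exact (Finset.disjoint_left.1 h.disj hC) hv
      · exact (Finset.disjoint_left.1 h.disj h1) hv
    have ha : e.1 ∉ Ls ω x e' := by
      intro ha
      have hb : e.2 ∈ Ls ω x e' := Clo_cl _ _ _ _ he ha
      apply h'.2.2.2.1
      obtain ⟨y, hy, hT⟩ := h.2.2.2.2
      refine ⟨y, ?_, hT⟩
      have h2 : y ∈ cl ((ω.erase s(e'.1, e'.2)).erase s(e.1, e.2)) e.2 := by
        rw [swap, hR]; exact hy
      have h3 := cl_mono (erase_subset s(e.1, e.2) (ω.erase s(e'.1, e'.2))) e.2 h2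
      rw [cl_eq_of_mem hb] at h3
      exact h3
    have hb : e.2 ∉ Ls ω x e' := by
      intro hb
      exact ha (Clo_cl _ _ _ _ (by rw [show s(e.2, e.1) = s(e.1, e.2) from Sym2.eq_swap]; exact he) hb)
    have hL : cl ((ω.erase s(e'.1, e'.2)).erase s(e.1, e.2)) x = Ls ω x e' := by
      apply cl_erase_of_not_touch
      intro v hv hve
      rw [Sym2.mem_iff] at hve
      rcases hve with rfl | rfl
      · exact ha hv
      · exact hb hv
    have hsub : Ls ω x e' ⊆ Ls ω x e := by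
      rw [← hL, swap]
      exact cl_mono (erase_subset _ _) x
    have hCe : ∀ v, v ∈ cl ω x → v ∉ Ls ω x e' → v ∈ Rs ω e' := by
      intro v hv hn
      rw [h'.cl_eq, mem_union] at hv
      exact hv.resolve_left hn
    refine ⟨hsub, hC, h1, hCe _ ?_ ha, hCe _ ?_ hb, hne'.symm, hL⟩
    · rw [h.cl_eq]; exact mem_union_left _ h.fst_mem
    · rw [h.cl_eq]; exact mem_union_right _ h.snd_mem
  · left
    have h1 : e'.2 ∈ Rs ω e := Clo_cl _ _ _ _ he' hC
    have hL : cl ((ω.erase s(e.1, e.2)).erase s(e'.1, e'.2)) x = Ls ω x e := by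
      apply cl_erase_of_not_touch
      intro v hv hve
      rw [Sym2.mem_iff] at hve
      rcases hve with rfl | rfl
      · exact (Finset.disjoint_left.1 h.disj hv) hC
      · exact (Finset.disjoint_left.1 h.disj hv) h1
    have hsub : Ls ω x e ⊆ Ls ω x e' := by
      rw [← hL, ← swap]
      exact cl_mono (erase_subset _ _) x
    have ha : e.1 ∈ Ls ω x e' := hsub h.fst_mem
    exact ⟨hsub, ha, Clo_cl _ _ _ _ he ha, hC, h1, hne', hL⟩

lemma Bef.lt (hb : Bef ω x e e') (h : Pv ω x T e.1 e.2) : #(Ls ω x e) < #(Ls ω x e') := by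
  apply card_lt_card
  rw [ssubset_iff_of_subset hb.sub]
  exact ⟨e.2, hb.snd, h.snd_not_mem⟩

lemma Pv.bef_of_lt (h : Pv ω x T e.1 e.2) (h' : Pv ω x T e'.1 e'.2)
    (hlt : #(Ls ω x e) < #(Ls ω x e')) : Bef ω x e e' := by
  have hne : e ≠ e' := by rintro rfl; exact lt_irrefl _ hlt
  rcases h.bef_or h' hne with hb | hb
  · exact hb
  · exact absurd (hb.lt h') (by omega)

lemma Pv.eq_of_card (h : Pv ω x T e.1 e.2) (h' : Pv ω x T e'.1 e'.2)
    (he : #(Ls ω x e) = #(Ls ω x e')) : e = e' := by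
  by_contra hne
  rcases h.bef_or h' hne with hb | hb
  · exact absurd (hb.lt h) (by omega)
  · exact absurd (hb.lt h') (by omega)

lemma Pv.eq_of_card' (h : Pv ω x T e.1 e.2) (h' : Pv ω x T e'.1 e'.2)
    (he : #(Rs ω e) = #(Rs ω e')) : e = e' := by
  apply h.eq_of_card h'
  have h1 := h.card_eq
  have h2 := h'.card_eq
  omega

end basic

/-- the pivotal darts -/
def piv (ω : Finset (Sym2 V)) (x : V) (T : Set V) : Finset (V × V) :=
  (dt ω).filter fun e => Pv ω x T e.1 e.2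

lemma mem_piv {ω : Finset (Sym2 V)} {x : V} {T : Set V} {e : V × V} :
    e ∈ piv ω x T ↔ Pv ω x T e.1 e.2 := by
  rw [piv, mem_filter]
  exact ⟨fun h => h.2, fun h => ⟨mem_dt.2 h.1, h⟩⟩

lemma piv_card_L_le (ω : Finset (Sym2 V)) (x : V) (T : Set V) (m : ℕ) :
    #((piv ω x T).filter fun e => #(Ls ω x e) ≤ m) ≤ m := by
  have h1 : #((piv ω x T).filter fun e => #(Ls ω x e) ≤ m) ≤ #(Finset.Icc 1 m) := by
    apply card_le_card_of_injOn (fun e => #(Ls ω x e))
    · intro e he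
      rw [mem_coe, mem_filter] at he
      rw [mem_coe, Finset.mem_Icc]
      exact ⟨cl_pos _ _, he.2⟩
    · intro e he e' he' heq
      rw [mem_coe, mem_filter, mem_piv] at he he'
      exact he.1.eq_of_card he'.1 heq
  simpa using h1

lemma piv_card_R_le (ω : Finset (Sym2 V)) (x : V) (T : Set V) (m : ℕ) :
    #((piv ω x T).filter fun e => #(Rs ω e) ≤ m) ≤ m := by
  have h1 : #((piv ω x T).filter fun e => #(Rs ω e) ≤ m) ≤ #(Finset.Icc 1 m) := by
    apply card_le_card_of_injOn (fun e => #(Rs ω e))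
    · intro e he
      rw [mem_coe, mem_filter] at he
      rw [mem_coe, Finset.mem_Icc]
      exact ⟨cl_pos _ _, he.2⟩
    · intro e he e' he' heq
      rw [mem_coe, mem_filter, mem_piv] at he he'
      exact he.1.eq_of_card' he'.1 heq
  simpa using h1

/-! ### consecutive pivots -/

section pairs

variable {H ω : Finset (Sym2 V)} {x : V} {T : Set V} {e e' f : V × V}

/-- configuration seen after the first pivot -/
def aft (H ω : Finset (Sym2 V)) (x : V) (e : V × V) : Finset (Sym2 V) :=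
  (ω.erase s(e.1, e.2)) ∩ off H (Ls ω x e)

lemma aft_subset : aft H ω x e ⊆ off H (Ls ω x e) := inter_subset_right

lemma aft_erase (g : Sym2 V) : (aft H ω x e).erase g
    = ((ω.erase s(e.1, e.2)).erase g) ∩ off H (Ls ω x e) := by
  ext h
  simp only [aft, mem_erase, mem_inter]
  tauto

lemma Bef.edge_mem_aft (hω : ω ⊆ H) (hb : Bef ω x e e') (h : Pv ω x T e.1 e.2)
    (h' : Pv ω x T e'.1 e'.2) : s(e'.1, e'.2) ∈ aft H ω x e := by
  rw [aft, mem_inter, mem_erase, mem_off]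
  refine ⟨⟨hb.ne.symm, h'.1⟩, hω h'.1, ?_⟩
  intro v hv hve
  rw [Sym2.mem_iff] at hve
  rcases hve with rfl | rfl
  · exact (Finset.disjoint_left.1 h.disj hv) hb.fst'
  · exact (Finset.disjoint_left.1 h.disj hv) hb.snd'

/-- the middle part -/
lemma Bef.cl_mid (hω : ω ⊆ H) (_ : Bef ω x e e') (h : Pv ω x T e.1 e.2) :
    cl ((aft H ω x e).erase s(e'.1, e'.2)) e.2
      = cl ((ω.erase s(e.1, e.2)).erase s(e'.1, e'.2)) e.2 := by
  rw [aft_erase]
  apply cl_off_of_Clo (((erase_subset _ _).trans (erase_subset _ _)).trans hω)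
  · rw [Ls]; exact (Clo_cl _ _).mono (erase_subset _ _)
  · exact h.snd_not_mem

lemma Bef.Ls_eq (hb : Bef ω x e e') (h : Pv ω x T e.1 e.2) :
    Ls ω x e' = Ls ω x e ∪ cl ((ω.erase s(e.1, e.2)).erase s(e'.1, e'.2)) e.2 := by
  have swap : (ω.erase s(e'.1, e'.2)).erase s(e.1, e.2)
      = (ω.erase s(e.1, e.2)).erase s(e'.1, e'.2) := erase_right_comm
  have he : s(e.1, e.2) ∈ ω.erase s(e'.1, e'.2) := mem_erase.2 ⟨hb.ne, h.1⟩
  have h1 : insert s(e.1, e.2) ((ω.erase s(e'.1, e'.2)).erase s(e.1, e.2))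
      = ω.erase s(e'.1, e'.2) := insert_erase he
  have h2 := cl_insert_bd (ω := (ω.erase s(e'.1, e'.2)).erase s(e.1, e.2)) (a := e.1) (b := e.2)
    (w := x) (by rw [swap, hb.Leq]; exact h.fst_mem)
  rw [h1, swap, hb.Leq] at h2
  exact h2

lemma Bef.card_mid (hω : ω ⊆ H) (hb : Bef ω x e e') (h : Pv ω x T e.1 e.2) :
    #(Ls ω x e') = #(Ls ω x e) + #(cl ((aft H ω x e).erase s(e'.1, e'.2)) e.2) := by
  rw [hb.cl_mid hω h, hb.Ls_eq h, card_union_of_disjoint]
  refine disjoint_of_subset_right (cl_mono (erase_subset _ _) _) ?_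
  exact h.disj

lemma Bef.mid_eq (hω : ω ⊆ H) (hb : Bef ω x e e') (h : Pv ω x T e.1 e.2) :
    cl ((aft H ω x e).erase s(e'.1, e'.2)) e.2 = Ls ω x e' \ Ls ω x e := by
  rw [hb.cl_mid hω h, hb.Ls_eq h, union_sdiff_left, sdiff_eq_self_of_disjoint]
  refine (disjoint_of_subset_right (cl_mono (erase_subset _ _) _) ?_).symm
  exact h.disj

lemma Bef.cl_far (hω : ω ⊆ H) (hb : Bef ω x e e') (h : Pv ω x T e.1 e.2)
    (h' : Pv ω x T e'.1 e'.2) :
    cl ((aft H ω x e).erase s(e'.1, e'.2)) e'.2 = Rs ω e' := by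
  rw [aft_erase]
  have swap : (ω.erase s(e'.1, e'.2)).erase s(e.1, e.2)
      = (ω.erase s(e.1, e.2)).erase s(e'.1, e'.2) := erase_right_comm
  rw [cl_off_of_Clo (((erase_subset _ _).trans (erase_subset _ _)).trans hω)
    (by rw [Ls]; exact (Clo_cl _ _).mono (erase_subset _ _))
    (fun hh => (Finset.disjoint_left.1 h.disj hh) hb.snd')]
  rw [← swap]
  apply cl_erase_of_not_touch
  intro v hv hve
  rw [Sym2.mem_iff] at hve
  rcases hve with rfl | rfl
  · exact (Finset.disjoint_left.1 h'.disj hb.fst) hv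
  · exact (Finset.disjoint_left.1 h'.disj hb.snd) hv

/-- the second pivot is a pivot for the configuration seen after the first one. -/
lemma Bef.pv_aft (hω : ω ⊆ H) (hb : Bef ω x e e') (h : Pv ω x T e.1 e.2)
    (h' : Pv ω x T e'.1 e'.2) : Pv (aft H ω x e) e.2 T e'.1 e'.2 := by
  have hmid := hb.mid_eq hω h
  refine ⟨hb.edge_mem_aft hω h h', ?_, ?_, ?_, ?_⟩
  · rw [hmid, mem_sdiff]
    exact ⟨h'.fst_mem, fun hh => (Finset.disjoint_left.1 h.disj hh) hb.fst'⟩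
  · rw [hmid, mem_sdiff]
    exact fun hh => h'.snd_not_mem hh.1
  · rintro ⟨y, hy, hT⟩
    rw [hmid, mem_sdiff] at hy
    exact h'.2.2.2.1 ⟨y, hy.1, hT⟩
  · obtain ⟨y, hy, hT⟩ := h'.2.2.2.2
    exact ⟨y, by rw [hb.cl_far hω h h']; exact hy, hT⟩

/-- a pivot strictly between `e` and `e'` is pivotal for `e.2 ↔ e'.1` in the middle. -/
lemma Bef.between (hω : ω ⊆ H) (_ : Bef ω x e e') (h : Pv ω x T e.1 e.2)
    (h' : Pv ω x T e'.1 e'.2) (hf : Pv ω x T f.1 f.2) (h1 : Bef ω x e f) (h2 : Bef ω x f e') :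
    s(f.1, f.2) ∈ ((aft H ω x e).erase s(e'.1, e'.2)) ∩ off (off H (Ls ω x e)) (Rs ω e') ∧
    ¬ Hit ((((aft H ω x e).erase s(e'.1, e'.2)) ∩ off (off H (Ls ω x e)) (Rs ω e')).erase
      s(f.1, f.2)) e.2 {e'.1} := by
  constructor
  · rw [mem_inter, mem_erase, mem_off]
    have h3 := h1.edge_mem_aft hω h hf
    refine ⟨⟨h2.ne, h3⟩, aft_subset h3, ?_⟩
    intro v hv hve
    rw [Sym2.mem_iff] at hve
    rcases hve with rfl | rfl
    · exact (Finset.disjoint_left.1 h'.disj h2.fst) hv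
    · exact (Finset.disjoint_left.1 h'.disj h2.snd) hv
  · rintro ⟨y, hy, hT⟩
    rw [Set.mem_singleton_iff] at hT
    subst hT
    -- `e'.1` would be in `Ls f`
    have h3 : e'.1 ∈ Ls ω x f := by
      have h4 : ((((aft H ω x e).erase s(e'.1, e'.2)) ∩ off (off H (Ls ω x e)) (Rs ω e')).erase
          s(f.1, f.2)) ⊆ ω.erase s(f.1, f.2) := by
        intro g hg
        rw [mem_erase, mem_inter, mem_erase, aft, mem_inter, mem_erase] at hg
        exact mem_erase.2 ⟨hg.1, hg.2.1.2.1.2⟩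
      have h5 := cl_mono h4 e.2 hy
      rw [cl_eq_of_mem h1.snd] at h5
      exact h5
    exact (Finset.disjoint_left.1 hf.disj h3) h2.fst'

/-- number of pivots between -/
lemma Bef.npiv_ge (hω : ω ⊆ H) (hb : Bef ω x e e') (h : Pv ω x T e.1 e.2)
    (h' : Pv ω x T e'.1 e'.2) :
    #((piv ω x T).filter fun f => #(Ls ω x e) < #(Ls ω x f) ∧ #(Ls ω x f) < #(Ls ω x e'))
      ≤ npiv (((aft H ω x e).erase s(e'.1, e'.2)) ∩ off (off H (Ls ω x e)) (Rs ω e'))
          e.2 {e'.1} := by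
  rw [npiv]
  apply card_le_card_of_injOn (fun f => s(f.1, f.2))
  · intro f hf
    rw [mem_coe, mem_filter, mem_piv] at hf
    rw [mem_coe, mem_filter]
    exact hb.between hω h h' hf.1 (h.bef_of_lt hf.1 hf.2.1) (hf.1.bef_of_lt h' hf.2.2)
  · intro f hf g hg hfg
    rw [mem_coe, mem_filter, mem_piv] at hf hg
    exact hf.1.eq_of_edge hg.1 hfg

/-- number of pivots after -/
lemma Pv.npiv_ge (hω : ω ⊆ H) (h : Pv ω x T e.1 e.2) :
    #((piv ω x T).filter fun f => #(Ls ω x e) < #(Ls ω x f)) ≤ npiv (aft H ω x e) e.2 T := by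
  rw [npiv]
  apply card_le_card_of_injOn (fun f => s(f.1, f.2))
  · intro f hf
    rw [mem_coe, mem_filter, mem_piv] at hf
    rw [mem_coe, mem_filter]
    have h1 := (h.bef_of_lt hf.1 hf.2).pv_aft hω h hf.1
    exact ⟨h1.1, h1.2.2.2.1⟩
  · intro f hf g hg hfg
    rw [mem_coe, mem_filter, mem_piv] at hf hg
    exact hf.1.eq_of_edge hg.1 hfg

end pairs

/-! ### expectation formulas -/

lemma bd_subset_dt {H : Finset (Sym2 V)} (S : Finset V) : bd H S ⊆ dt H := by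
  rintro ⟨a, b⟩ h
  exact mem_dt.2 (mem_bd.1 h).2.2

lemma Ex_dt_flip {p : ℝ} (H : Finset (Sym2 V)) (G : Finset (Sym2 V) → V × V → ℝ) :
    (1 - p) * Ex p H (fun ω => ∑ e ∈ dt H, ind (s(e.1, e.2) ∈ ω) * G (ω.erase s(e.1, e.2)) e)
      = p * Ex p H (fun ω => ∑ e ∈ dt H, ind (s(e.1, e.2) ∉ ω) * G ω e) := by
  rw [Ex_sum, Ex_sum, mul_sum, mul_sum]
  refine Finset.sum_congr rfl fun e he => ?_
  rw [Ex_flip (mem_dt.1 he) (fun ω => G (ω.erase s(e.1, e.2)) e)]
  congr 1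
  refine Ex_congr fun ω _ => ?_
  by_cases h : s(e.1, e.2) ∈ ω
  · rw [ind_false (P := s(e.1, e.2) ∉ ω) (by simpa using h)]; ring
  · rw [erase_insert h]

/-- **One pivot formula.** -/
theorem Ex_one_pivot {p : ℝ} (H : Finset (Sym2 V)) (x : V) (T : Set V)
    (Φ : Finset V → V × V → Finset (Sym2 V) → ℝ) :
    (1 - p) * Ex p H (fun ω => ∑ e ∈ piv ω x T, Φ (Ls ω x e) e (aft H ω x e))
      = p * Ex p H (fun ω => ind (¬ Hit ω x T) * ∑ e ∈ bd H (cl ω x),
          Ex p (off H (cl ω x)) (fun η => ind (Hit η e.2 T) * Φ (cl ω x) e η)) := by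
  set G : Finset (Sym2 V) → V × V → ℝ := fun ω' e =>
      ind (e.1 ∈ cl ω' x ∧ e.2 ∉ cl ω' x) * (ind (¬ Hit ω' x T) * (ind (Hit ω' e.2 T) *
      Φ (cl ω' x) e (ω' ∩ off H (cl ω' x)))) with hG
  have h1 : Ex p H (fun ω => ∑ e ∈ piv ω x T, Φ (Ls ω x e) e (aft H ω x e))
      = Ex p H (fun ω => ∑ e ∈ dt H, ind (s(e.1, e.2) ∈ ω) * G (ω.erase s(e.1, e.2)) e) := by
    refine Ex_congr fun ω hω => ?_
    have hsub : piv ω x T ⊆ dt H := by
      intro e he
      exact mem_dt.2 (hω (mem_piv.1 he).1)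
    rw [← Finset.sum_subset hsub]
    · refine Finset.sum_congr rfl fun e he => ?_
      rw [mem_piv] at he
      simp only [hG]
      rw [ind_true he.1, ind_true ⟨he.2.1, he.2.2.1⟩, ind_true he.2.2.2.1, ind_true he.2.2.2.2]
      simp only [one_mul]
      rfl
    · intro e he hn
      rw [mem_piv] at hn
      simp only [hG]
      by_contra hne
      apply hn
      refine ⟨?_, ?_, ?_, ?_, ?_⟩
      · by_contra h; rw [ind_false h, zero_mul] at hne; exact hne rfl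
      · by_contra h
        have h' : ¬ (e.1 ∈ cl (ω.erase s(e.1, e.2)) x ∧ e.2 ∉ cl (ω.erase s(e.1, e.2)) x) :=
          fun hh => h hh.1
        rw [ind_false h'] at hne; simp at hne
      · intro h
        have h' : ¬ (e.1 ∈ cl (ω.erase s(e.1, e.2)) x ∧ e.2 ∉ cl (ω.erase s(e.1, e.2)) x) :=
          fun hh => hh.2 h
        rw [ind_false h'] at hne; simp at hne
      · intro h
        rw [ind_false (P := ¬ Hit _ _ _) (by simpa using h)] at hne; simp at hne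
      · by_contra h; rw [ind_false (P := Hit _ _ _) h] at hne; simp at hne
  rw [h1, Ex_dt_flip]
  congr 1
  have h2 : Ex p H (fun ω => ∑ e ∈ dt H, ind (s(e.1, e.2) ∉ ω) * G ω e)
      = Ex p H (fun ω => ind (¬ Hit ω x T) * ∑ e ∈ bd H (cl ω x),
          ind (Hit ω e.2 T) * Φ (cl ω x) e (ω ∩ off H (cl ω x))) := by
    refine Ex_congr fun ω hω => ?_
    rw [mul_sum, ← Finset.sum_subset (bd_subset_dt (cl ω x))]
    · refine Finset.sum_congr rfl fun e he => ?_
      obtain ⟨a, b⟩ := e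
      rw [mem_bd] at he
      simp only [hG]
      have h3 : s(a, b) ∉ ω := fun h => he.2.1 (Clo_cl ω x a b h he.1)
      rw [ind_true (P := s(a, b) ∉ ω) h3, ind_true (P := a ∈ _ ∧ _) ⟨he.1, he.2.1⟩]
      ring
    · rintro ⟨a, b⟩ he hn
      rw [mem_bd] at hn
      rw [mem_dt] at he
      simp only [hG]
      rw [ind_false (P := a ∈ _ ∧ _) (fun hh => hn ⟨hh.1, hh.2, he⟩)]
      ring
  rw [h2, Ex_markov p H x]
  refine Ex_congr fun ω hω => ?_
  rw [← Ex_sum, ← Ex_mul_left]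
  refine Ex_congr fun η hη => ?_
  have h3 : Hit ((ω ∩ tch H (cl ω x)) ∪ η) x T ↔ Hit ω x T := by
    rw [Hit, Hit, cl_mix_self hω hη]
  have h4 : ((ω ∩ tch H (cl ω x)) ∪ η) ∩ off H (cl ω x) = η := by
    rw [union_inter_distrib_right, inter_eq_left.2 hη, inter_assoc,
      disjoint_iff_inter_eq_empty.1 (disjoint_tch_off H (cl ω x)), inter_empty, empty_union]
  rw [ind_congr (not_congr h3), cl_mix_self hω hη, h4]
  congr 1
  refine Finset.sum_congr rfl fun e he => ?_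
  obtain ⟨a, b⟩ := e
  rw [mem_bd] at he
  simp only
  rw [Hit, Hit, cl_mix_other hω hη he.2.1]

end

end H97.IIC
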