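import Pool.Agent.H97.IIC.Piv

/-!
# The two pivot formula
-/

open Finset
open scoped Classical

namespace H97.IIC

noncomputable section

variable {V : Type*}

/-- configuration off the far side of the pivot `f` -/
def bfr (E η : Finset (Sym2 V)) (f : V × V) : Finset (Sym2 V) :=
  (η.erase s(f.1, f.2)) ∩ off E (Rs η f)

/-- in a configuration off `R`, the cluster of a vertex outside `R` does not meet `R`. -/
lemma cl_off_disjoint {E ζ : Finset (Sym2 V)} {R : Finset V} {b : V} (hζ : ζ ⊆ off E R)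
    (hb : b ∉ R) : Disjoint (cl ζ b) R := by
  rw [Finset.disjoint_left]
  intro y hy hyR
  rw [mem_cl] at hy
  rcases Relation.ReflTransGen.cases_tail hy with h | ⟨z, _, h⟩
  · exact hb (h ▸ hyR)
  · exact (mem_off.1 (hζ h)).2 y hyR (Sym2.mem_mk_right _ _)

/-- **One pivot formula, far side first.** -/
theorem Ex_one_pivot' {p : ℝ} (E : Finset (Sym2 V)) (b : V) (T : Set V)
    (Ψ : Finset V → V × V → Finset (Sym2 V) → ℝ) :
    (1 - p) * Ex p E (fun η => ∑ f ∈ piv η b T, Ψ (Rs η f) f (bfr E η f))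
      = p * Ex p E (fun η => ∑ f ∈ dt E, ind (f.1 ∉ cl η f.2) * (ind (b ∉ cl η f.2) *
          (ind (Hit η f.2 T) *
          Ex p (off E (cl η f.2)) (fun ζ => ind (f.1 ∈ cl ζ b) * (ind (¬ Hit ζ b T) *
            Ψ (cl η f.2) f ζ))))) := by
  set G : Finset (Sym2 V) → V × V → ℝ := fun η' f =>
      ind (f.1 ∈ cl η' b ∧ f.2 ∉ cl η' b) * (ind (¬ Hit η' b T) * (ind (Hit η' f.2 T) *
      Ψ (cl η' f.2) f (η' ∩ off E (cl η' f.2)))) with hG
  have h1 : Ex p E (fun η => ∑ f ∈ piv η b T, Ψ (Rs η f) f (bfr E η f))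
      = Ex p E (fun η => ∑ f ∈ dt E, ind (s(f.1, f.2) ∈ η) * G (η.erase s(f.1, f.2)) f) := by
    refine Ex_congr fun ω hω => ?_
    have hsub : piv ω b T ⊆ dt E := by
      intro e he
      exact mem_dt.2 (hω (mem_piv.1 he).1)
    rw [← Finset.sum_subset hsub]
    · refine Finset.sum_congr rfl fun e he => ?_
      rw [mem_piv] at he
      simp only [hG]
      rw [ind_true he.1, ind_true ⟨he.2.1, he.2.2.1⟩, ind_true he.2.2.2.1, ind_true he.2.2.2.2]
      simp only [one_mul]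
      rfl
    · intro e he hn
      rw [mem_piv] at hn
      simp only [hG]
      by_contra hne
      apply hn
      refine ⟨?_, ?_, ?_, ?_, ?_⟩
      · by_contra h; rw [ind_false h, zero_mul] at hne; exact hne rfl
      · by_contra h
        have h' : ¬ (e.1 ∈ cl (ω.erase s(e.1, e.2)) b ∧ e.2 ∉ cl (ω.erase s(e.1, e.2)) b) :=
          fun hh => h hh.1
        rw [ind_false h'] at hne; simp at hne
      · intro h
        have h' : ¬ (e.1 ∈ cl (ω.erase s(e.1, e.2)) b ∧ e.2 ∉ cl (ω.erase s(e.1, e.2)) b) :=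
          fun hh => hh.2 h
        rw [ind_false h'] at hne; simp at hne
      · intro h
        rw [ind_false (P := ¬ Hit _ _ _) (by simpa using h)] at hne; simp at hne
      · by_contra h; rw [ind_false (P := Hit _ _ _) h] at hne; simp at hne
  rw [h1, Ex_dt_flip]
  congr 1
  rw [Ex_sum, Ex_sum]
  refine Finset.sum_congr rfl fun f hf => ?_
  have h2 : Ex p E (fun η => ind (s(f.1, f.2) ∉ η) * G η f) = Ex p E (fun η => G η f) := by
    refine Ex_congr fun η _ => ?_
    by_cases h : s(f.1, f.2) ∈ η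
    · have h' : ¬ (f.1 ∈ cl η b ∧ f.2 ∉ cl η b) := fun hh => hh.2 (Clo_cl η b _ _ h hh.1)
      simp only [hG]
      rw [ind_false h']; ring
    · rw [ind_true (P := s(f.1, f.2) ∉ η) h, one_mul]
  rw [h2, Ex_markov p E f.2]
  refine Ex_congr fun η hη => ?_
  rw [← Ex_mul_left, ← Ex_mul_left, ← Ex_mul_left]
  refine Ex_congr fun ζ hζ => ?_
  set R := cl η f.2 with hR
  have h3 : Hit ((η ∩ tch E R) ∪ ζ) f.2 T ↔ Hit η f.2 T := by
    rw [Hit, Hit, cl_mix_self hη hζ]
  have h4 : ((η ∩ tch E R) ∪ ζ) ∩ off E R = ζ := by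
    rw [union_inter_distrib_right, inter_eq_left.2 hζ, inter_assoc,
      disjoint_iff_inter_eq_empty.1 (disjoint_tch_off E R), inter_empty, empty_union]
  simp only [hG]
  rw [ind_congr h3, cl_mix_self hη hζ, ← hR, h4]
  by_cases hb : b ∈ R
  · have h5 : f.2 ∈ cl ((η ∩ tch E R) ∪ ζ) b := by
      rw [mem_cl_comm, cl_mix_self hη hζ]; exact hb
    rw [ind_false (P := _ ∧ f.2 ∉ _) (fun hh => hh.2 h5), ind_false (P := b ∉ R) (by simpa using hb)]
    ring
  · have h6 : cl ((η ∩ tch E R) ∪ ζ) b = cl ζ b := cl_mix_other hη hζ hb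
    have hdis := cl_off_disjoint hζ hb
    have h7 : Hit ((η ∩ tch E R) ∪ ζ) b T ↔ Hit ζ b T := by rw [Hit, Hit, h6]
    rw [ind_congr (not_congr h7), h6, ind_true (P := b ∉ R) hb]
    have h8 : f.2 ∉ cl ζ b := fun hh => (Finset.disjoint_left.1 hdis hh) (self_mem_cl _ _)
    by_cases h9 : f.1 ∈ cl ζ b
    · have h10 : f.1 ∉ R := fun hh => (Finset.disjoint_left.1 hdis h9) hh
      rw [ind_true (P := _ ∧ _) ⟨h9, h8⟩, ind_true h10, ind_true h9]
      ring
    · rw [ind_false (P := _ ∧ _) (fun hh => h9 hh.1), ind_false h9]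
      ring

/-- **Two pivot formula.** -/
theorem Ex_two_pivot {p : ℝ} (H : Finset (Sym2 V)) (x : V) (T : Set V)
    (Ψ : Finset V → V × V → Finset V → V × V → Finset (Sym2 V) → ℝ) :
    (1 - p) ^ 2 * Ex p H (fun ω => ∑ e ∈ piv ω x T, ∑ f ∈ piv (aft H ω x e) e.2 T,
        Ψ (Ls ω x e) e (Rs (aft H ω x e) f) f (bfr (off H (Ls ω x e)) (aft H ω x e) f))
      = p ^ 2 * Ex p H (fun ω => ind (¬ Hit ω x T) * ∑ e ∈ bd H (cl ω x),
          Ex p (off H (cl ω x)) (fun η => ∑ f ∈ dt (off H (cl ω x)),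
            ind (f.1 ∉ cl η f.2) * (ind (e.2 ∉ cl η f.2) * (ind (Hit η f.2 T) *
            Ex p (off (off H (cl ω x)) (cl η f.2)) (fun ζ => ind (f.1 ∈ cl ζ e.2) *
              (ind (¬ Hit ζ e.2 T) * Ψ (cl ω x) e (cl η f.2) f ζ)))))) := by
  have h1 := Ex_one_pivot (p := p) H x T
    (fun L e η => ∑ f ∈ piv η e.2 T, Ψ L e (Rs η f) f (bfr (off H L) η f))
  have h2 : (1 - p) * Ex p H (fun ω => ind (¬ Hit ω x T) * ∑ e ∈ bd H (cl ω x),
          Ex p (off H (cl ω x)) (fun η => ind (Hit η e.2 T) *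
            ∑ f ∈ piv η e.2 T, Ψ (cl ω x) e (Rs η f) f (bfr (off H (cl ω x)) η f)))
      = p * Ex p H (fun ω => ind (¬ Hit ω x T) * ∑ e ∈ bd H (cl ω x),
          Ex p (off H (cl ω x)) (fun η => ∑ f ∈ dt (off H (cl ω x)),
            ind (f.1 ∉ cl η f.2) * (ind (e.2 ∉ cl η f.2) * (ind (Hit η f.2 T) *
            Ex p (off (off H (cl ω x)) (cl η f.2)) (fun ζ => ind (f.1 ∈ cl ζ e.2) *
              (ind (¬ Hit ζ e.2 T) * Ψ (cl ω x) e (cl η f.2) f ζ)))))) := by
    rw [← Ex_mul_left, ← Ex_mul_left]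
    refine Ex_congr fun ω _ => ?_
    rw [mul_left_comm, mul_left_comm p]
    congr 1
    rw [mul_sum, mul_sum]
    refine Finset.sum_congr rfl fun e _ => ?_
    have h3 := Ex_one_pivot' (p := p) (off H (cl ω x)) e.2 T
      (fun R f ζ => Ψ (cl ω x) e R f ζ)
    rw [← h3]
    congr 1
    refine Ex_congr fun η _ => ?_
    by_cases hh : Hit η e.2 T
    · rw [ind_true hh, one_mul]
    · rw [ind_false hh, zero_mul]
      symm
      apply Finset.sum_eq_zero
      intro f hf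
      exact absurd (mem_piv.1 hf).hit hh
  calc _ = (1 - p) * ((1 - p) * Ex p H (fun ω => ∑ e ∈ piv ω x T, ∑ f ∈ piv (aft H ω x e) e.2 T,
        Ψ (Ls ω x e) e (Rs (aft H ω x e) f) f (bfr (off H (Ls ω x e)) (aft H ω x e) f))) := by ring
    _ = _ := by
      rw [h1, mul_left_comm, h2]; ring

end

end H97.IIC
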